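import Pool.Agent.P.MP_618680_al.FH.Res

/-! Normal series with few layers of order not prime to `n`. -/

set_option autoImplicit false

namespace Pool.Agent.P.MP_618680_al.FH

open scoped commutatorElement
open Module

variable {X : Type} [Group X]


theorem PDl.quotient [Finite X] {p d : ℕ} (hp : p.Prime) (h : PDl X p d) (N : Subgroup X)
    [N.Normal] : PDl (X ⧸ N) p d := by
  intro Q hQ
  have := Fact.mk hp
  let f := (QuotientGroup.mk' N).subgroupComap Q
  have hf : Function.Surjective f :=
    MonoidHom.subgroupComap_surjective_of_surjective _ Q (QuotientGroup.mk'_surjective N)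
  let S : Sylow p (Q.comap (QuotientGroup.mk' N)) := default
  have h1 : (⊤ : Subgroup Q) = (S.mapSurjective hf : Subgroup Q) :=
    (S.mapSurjective hf).is_maximal' (hQ.to_subgroup ⊤) le_top
  have h2 : Q ≤ (S.1.map (Q.comap (QuotientGroup.mk' N)).subtype).map (QuotientGroup.mk' N) := by
    intro q hq
    have h3 : (⟨q, hq⟩ : Q) ∈ S.1.map f := by
      rw [← Sylow.coe_mapSurjective hf, ← h1]
      trivial
    obtain ⟨s, hs, e⟩ := h3
    exact ⟨s.1, ⟨s, hs, rfl⟩, congrArg Subtype.val e⟩
  refine le_bot_iff.1 ((der_mono h2 d).trans ?_)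
  rw [← map_der, h _ (S.2.map _), Subgroup.map_bot]

/-- In a nilpotent normal subgroup the derived series is computed prime by prime. -/
theorem not_dvd_orderOf_der [Finite X] (H : Subgroup X) [H.Normal] (hH : nres H = ⊥) {p d : ℕ}
    (hp : p.Prime) (h : ∀ Q : Subgroup X, Q.Normal → Q ≤ H → IsPGroup p Q → der Q d = ⊥) :
    ∀ x ∈ der H d, ¬ p ∣ orderOf x := by
  intro x hx hd
  obtain ⟨i, hi⟩ := exists_lcs_eq_nres H
  have : Group.IsNilpotent H := (Subgroup.isNilpotent_iff_lowerCentralSeries H).2 ⟨i, hi.trans hH⟩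
  let e := Sylow.directProductOfNormal (G := H) fun _ => inferInstance
  rw [der_eq_map] at hx
  obtain ⟨y, hy, rfl⟩ := hx
  obtain ⟨z, rfl⟩ := e.surjective y
  have e1 : orderOf (H.subtype (e z)) = orderOf z := by
    rw [orderOf_injective _ H.subtype_injective, MulEquiv.orderOf_eq]
  rw [e1] at hd
  have h1 := orderOf_pow_orderOf_div (orderOf_pos z).ne' hd
  have h2 : z ^ (orderOf z / p) = 1 := by
    funext q P
    have hq := Fact.mk (Nat.prime_of_mem_primeFactors q.2)
    rcases eq_or_ne (q : ℕ) p with rfl | hne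
    · have := P.characteristic_of_normal inferInstance
      have h3 := h (P.1.map H.subtype) inferInstance (Subgroup.map_subtype_le _) (P.2.map _)
      rw [← map_der, Subgroup.map_eq_bot_iff_of_injective _ H.subtype_injective,
        der_eq_bot_iff] at h3
      have h4 := map_derivedSeries_le_derivedSeries (((Pi.evalMonoidHom _ P).comp
        (Pi.evalMonoidHom _ q)).comp e.symm.toMonoidHom) d ⟨_, hy, rfl⟩
      have h5 : z q P = 1 := by simpa using Subgroup.mem_bot.1 (h3.le h4)
      rw [Pi.pow_apply, Pi.pow_apply, h5, one_pow]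
      rfl
    · obtain ⟨k, hk⟩ := P.2 ((z ^ (orderOf z / p)) q P)
      have h3 := congrFun (congrFun (pow_orderOf_eq_one (z ^ (orderOf z / p))) q) P
      rw [h1] at h3
      exact (pow_eq_one_iff_of_coprime
        (((Nat.coprime_primes hq.1 hp).2 hne).pow_left k)).1 ⟨hk, h3⟩
  rw [h2, orderOf_one] at h1
  exact hp.ne_one h1.symm

theorem ser_comm (A N : Subgroup X) [N.Normal] : ⁅A ⊔ N, A ⊔ N⁆ ≤ ⁅A, A⁆ ⊔ N := by
  have h := Subgroup.map_le_map_iff (f := QuotientGroup.mk' N) (H := ⁅A ⊔ N, A ⊔ N⁆)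
    (K := ⁅A, A⁆)
  rw [QuotientGroup.ker_mk'] at h
  refine h.1 ?_
  rw [Subgroup.map_commutator, Subgroup.map_commutator, Subgroup.map_sup,
    (Subgroup.map_eq_bot_iff (f := QuotientGroup.mk' N) N).2 (QuotientGroup.ker_mk' N).ge,
    sup_bot_eq]

theorem ser_mem {M : Subgroup X} {x : X} {e n : ℕ} (h : Nat.Coprime e n) (h1 : x ^ e ∈ M)
    (h2 : x ^ n ∈ M) : x ∈ M := by
  have h3 := Nat.gcd_eq_gcd_ab e n
  rw [h, Nat.cast_one] at h3
  rw [← zpow_one x, h3, zpow_add, zpow_mul, zpow_mul, zpow_natCast, zpow_natCast]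
  exact M.mul_mem (M.zpow_mem h1 _) (M.zpow_mem h2 _)

/-- A soluble layer of order prime to `n` costs nothing. -/
theorem Chain.coprime [Group.IsSolvable X] {n : ℕ} {L1 L0 : Subgroup X} {b : ℕ}
    (h : Chain n L1 b) [L0.Normal] (h10 : L1 ≤ L0)
    (he : ∀ x ∈ L0, ∃ e : ℕ, Nat.Coprime e n ∧ x ^ e ∈ L1) : Chain n L0 b := by
  have := h.normal
  have key : ∀ i j, der L0 (j + i) ≤ L1 → Chain n (der L0 j ⊔ L1) b := by
    intro i
    induction i with
    | zero => exact fun j (hj : der L0 j ≤ L1) => by rwa [sup_eq_right.2 hj]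
    | succ i ih =>
      intro j hj
      refine (ih (j + 1) (by rwa [add_assoc, add_comm 1])).good inferInstance
        (sup_le_sup_right (der_anti L0 j.le_succ) _) (ser_comm _ _) fun x hx hn => ?_
      obtain ⟨e, h1, h2⟩ := he x (sup_le (FH.der_le L0 j) h10 hx)
      exact ser_mem h1 (Subgroup.mem_sup_right h2) hn
  obtain ⟨i, hi⟩ := exists_der_eq_bot L0
  have h1 := key i 0 (by rw [zero_add, hi]; exact bot_le)
  rwa [der_zero, sup_eq_left.2 h10] at h1

/-- A layer of derived length at most `d` costs at most `d`. -/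
theorem Chain.der_le {n : ℕ} {L1 L0 : Subgroup X} {b : ℕ} (h : Chain n L1 b) [L0.Normal]
    (h10 : L1 ≤ L0) {d : ℕ} (hd : der L0 d ≤ L1) : Chain n L0 (b + d) := by
  have := h.normal
  have key : ∀ i j, der L0 (j + i) ≤ L1 → Chain n (der L0 j ⊔ L1) (b + i) := by
    intro i
    induction i with
    | zero => exact fun j (hj : der L0 j ≤ L1) => by rwa [sup_eq_right.2 hj]
    | succ i ih =>
      exact fun j hj => (ih (j + 1) (by rwa [add_assoc, add_comm 1])).bad inferInstance
        (sup_le_sup_right (der_anti L0 j.le_succ) _) (ser_comm _ _)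
  have h1 := key d 0 (by rwa [zero_add])
  rwa [der_zero, sup_eq_left.2 h10] at h1

theorem chain_top [Finite X] [Group.IsSolvable X] {n d t : ℕ}
    (h : ∀ p : ℕ, p.Prime → p ∣ n → PDl X p d) (ht : nresN t (⊤ : Subgroup X) = ⊥) :
    Chain n (⊤ : Subgroup X) (d * t) := by
  have key : ∀ i j, nresN (j + i) (⊤ : Subgroup X) = ⊥ →
      Chain n (nresN j (⊤ : Subgroup X)) (d * i) := by
    intro i
    induction i with
    | zero =>
      intro j hj
      rw [add_zero] at hj
      rw [hj]
      exact .bot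
    | succ i ih =>
      intro j hj
      have h1 := ih (j + 1) (by rwa [add_assoc, add_comm 1])
      rw [nresN_succ] at h1
      set L := nresN j (⊤ : Subgroup X)
      have hn : (L.map (QuotientGroup.mk' (nres L))).Normal :=
        Subgroup.Normal.map inferInstance _ (QuotientGroup.mk'_surjective _)
      have h2 : nres (L.map (QuotientGroup.mk' (nres L))) = ⊥ := by
        rw [← map_nres, Subgroup.map_eq_bot_iff, QuotientGroup.ker_mk']
      have h3 : Chain n (der L d ⊔ nres L) (d * i) := by
        refine h1.coprime le_sup_right fun x hx => ⟨orderOf (QuotientGroup.mk' (nres L) x),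
          Nat.coprime_of_dvd fun p hp h4 h5 => not_dvd_orderOf_der _ h2 hp (d := d)
            (fun Q _ _ hQ => (h p hp h5).quotient hp _ Q hQ) _ ?_ h4, ?_⟩
        · rw [← map_der]
          refine Subgroup.map_le_map_iff.2 ?_ (Subgroup.mem_map_of_mem _ hx)
          rw [QuotientGroup.ker_mk']
        · rw [← QuotientGroup.eq_one_iff]
          exact (map_pow (QuotientGroup.mk' (nres L)) x _).trans (pow_orderOf_eq_one _)
      exact h3.der_le (sup_le (der_le L d) (nres_le L)) le_sup_left
  exact key t 0 (by rwa [zero_add])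

end Pool.Agent.P.MP_618680_al.FH
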