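import Pool.Agent.P.MP_618680_al.FH.Grow
import Pool.Agent.P.MP_618680_al.FH.Ser

/-! Derived length of `p`-groups with few fixed points. -/

set_option autoImplicit false

namespace Pool.Agent.P.MP_618680_al.FH

open scoped commutatorElement
open Module

variable {X : Type} [Group X]


theorem der_eq_bot_of_fpf [Finite X] {n P k : ℕ} (hK : Krek n P k) {g : X} (hg : g ^ n = 1)
    {p : ℕ} (hp : p.Prime) (hP : P < p) (A B : Subgroup X) [A.Normal] [B.Normal]
    (hA : IsPGroup p A) (h : ∀ a ∈ A, ⁅a, g⁆ ∈ B → a ∈ B) : der A k ≤ B := by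
  have : Fact p.Prime := ⟨hp⟩
  have : (A.map (QuotientGroup.mk' B)).Normal :=
    Subgroup.Normal.map ‹_› _ (QuotientGroup.mk'_surjective B)
  have hA' : IsPGroup p (A.map (QuotientGroup.mk' B)) := hA.map _
  have := hA'.isNilpotent
  refine der_le_of_map ((der_eq_bot_iff _ _).2 (hK _ (fun q hq hd => ?_)
    (MulAut.conjNormal (g : X ⧸ B)).toMonoidHom ?_ ?_))
  · obtain ⟨e, he⟩ := hA'.exists_card_eq
    rw [he] at hd
    rwa [(Nat.prime_dvd_prime_iff_eq hq hp).1 (hq.dvd_of_dvd_pow hd)]
  · have h1 : ∀ j : ℕ, ((MulAut.conjNormal (g : X ⧸ B)).toMonoidHom :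
        A.map (QuotientGroup.mk' B) → _)^[j] = MulAut.conjNormal ((g : X ⧸ B) ^ j) := fun j => by
      induction j with
      | zero =>
        rw [pow_zero, map_one]
        rfl
      | succ j ih =>
        rw [Function.iterate_succ, ih, pow_succ, map_mul]
        rfl
    rw [h1, ← QuotientGroup.mk_pow, hg, QuotientGroup.mk_one, map_one]
    rfl
  · rintro ⟨_, a, ha, rfl⟩ h1
    have h2 : (g : X ⧸ B) * a * (g : X ⧸ B)⁻¹ = a := congrArg Subtype.val h1
    refine Subtype.ext ((QuotientGroup.eq_one_iff a).2 (h a ha ((QuotientGroup.eq_one_iff _).1 ?_)))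
    rw [commutatorElement_def, QuotientGroup.mk_mul, QuotientGroup.mk_mul, QuotientGroup.mk_mul,
      QuotientGroup.mk_inv, QuotientGroup.mk_inv]
    calc _ = (a : X ⧸ B) * ((g : X ⧸ B) * a * (g : X ⧸ B)⁻¹)⁻¹ := by group
      _ = 1 := by rw [h2, mul_inv_cancel]

theorem almost_fpf [Finite X] [Group.IsSolvable X] {n P k : ℕ} (hn : 0 < n) (hK : Krek n P k)
    {g : X} (hg : g ^ n = 1) {p : ℕ} (hp : p.Prime) (hP : P < p) (hpn : ¬ p ∣ n) (A : Subgroup X)
    [A.Normal] (hA : IsPGroup p A) {m : ℕ}
    (hm : Nat.card (A ⊓ Subgroup.centralizer ({g} : Set X) : Subgroup X) ≤ m) :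
    der A (m * (k + 1)) = ⊥ := by
  have key : ∀ j, der A (j * (k + 1)) = ⊥ ∨ Nat.card (Subgroup.centralizer ({g} : Set X) ⊓
      der A (j * (k + 1)) : Subgroup X) + j ≤ m := fun j => by
    induction j with
    | zero => exact Or.inr (by rwa [zero_mul, add_zero, inf_comm])
    | succ j ih =>
      have e : der A ((j + 1) * (k + 1)) = der (der A (j * (k + 1))) (k + 1) := by
        rw [add_mul, one_mul, der_add]
      rw [e]
      have hle := der_le A (j * (k + 1))
      have hN := der_normal A (j * (k + 1))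
      generalize der A (j * (k + 1)) = K at *
      rcases ih with rfl | ih
      · exact Or.inl (eq_bot_iff.2 (der_le _ _))
      by_cases h1 : Nat.card (Subgroup.centralizer ({g} : Set X) ⊓ der K (k + 1) : Subgroup X) <
          Nat.card (Subgroup.centralizer ({g} : Set X) ⊓ K : Subgroup X)
      · exact Or.inr (by omega)
      have h2 : Chain n (der K (k + 1)) 0 := Chain.bot.coprime bot_le fun x hx => by
        obtain ⟨i, hi⟩ := hA ⟨x, hle (der_le _ _ hx)⟩
        exact ⟨p ^ i, ((Nat.Prime.coprime_iff_not_dvd hp).2 hpn).pow_left i,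
          congrArg Subtype.val hi⟩
      have h3 := grow_chain hn hg (Subgroup.centralizer {g}) le_rfl (I := 1) (c := Nat.card X)
        Nat.card_pos (Subgroup.relIndex_self _).le
        (fun B1 B0 => (Set.ncard_le_card _).trans (Nat.le_mul_of_pos_right _ Nat.card_pos)) h2 K _
        le_rfl (by simp [Subgroup.normalizer_eq_top]) (by simp [Subgroup.normalizer_eq_top])
      rw [pow_zero, one_mul, one_mul, mul_comm] at h3
      have h4 := Nat.le_of_mul_le_mul_left (h3.trans (Nat.mul_le_mul_right _ (not_lt.1 h1)))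
        Nat.card_pos
      have h5 : (der K (k + 1) : Set X) = fixS K (der K (k + 1)) g :=
        Set.eq_of_subset_of_ncard_le (fun a ha => ⟨der_le _ _ ha, by
          rw [commutatorElement_def, mul_assoc, mul_assoc, ← mul_assoc g]
          exact mul_mem ha ((der_normal K _).conj_mem _ (inv_mem ha) g)⟩) h4
      have h6 : der K k ≤ der K (k + 1) := der_eq_bot_of_fpf hK hg hp hP K _ (hA.to_le hle)
        fun a ha h7 => (Set.ext_iff.1 h5 a).2 ⟨ha, h7⟩
      have h7 : ∀ i, der K k ≤ der (der K k) i := fun i => by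
        induction i with
        | zero => exact le_rfl
        | succ i ih => exact h6.trans (Subgroup.commutator_mono ih ih)
      obtain ⟨i, hi⟩ := exists_der_eq_bot (der K k)
      exact Or.inl (eq_bot_iff.2 ((der_anti K k.le_succ).trans ((h7 i).trans hi.le)))
  refine (key m).resolve_right fun h => ?_
  have := Nat.card_pos (α := (Subgroup.centralizer ({g} : Set X) ⊓
    der A (m * (k + 1)) : Subgroup X))
  omega

end Pool.Agent.P.MP_618680_al.FH
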