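import Pool.Agent.P.MP_618680_al.FH.Defs

/-! Extension of scalars to the algebraic closure of a prime field. -/

set_option autoImplicit false

namespace Pool.Agent.P.MP_618680_al.FH

open scoped commutatorElement
open Module

variable {X : Type} [Group X]

section Gen

open scoped TensorProduct

variable {F : Type} [Field F] (k : Type) [Field k] [Algebra F k] {M : Type} [AddCommGroup M]
  [Module F M] [FiniteDimensional F M]

theorem bc_range (f : M →ₗ[F] M) :
    finrank k (LinearMap.range (f.baseChange k)) = finrank F (LinearMap.range f) := by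
  have h1 : LinearMap.range (f.baseChange k) = (LinearMap.range f).baseChange k := by
    have e : f.baseChange k =
        ((LinearMap.range f).subtype.baseChange k).comp (f.rangeRestrict.baseChange k) := by
      rw [← LinearMap.baseChange_comp]
      rfl
    have hs : Function.Surjective (f.rangeRestrict.baseChange k) :=
      LinearMap.lTensor_surjective k f.surjective_rangeRestrict
    rw [e, LinearMap.range_comp_of_range_eq_top _ (LinearMap.range_eq_top.2 hs)]
    rfl
  rw [h1, ← (Submodule.toBaseChange.toLinearEquiv k (LinearMap.range f)).finrank_eq,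
    Module.finrank_baseChange]

theorem bc_ker (f : M →ₗ[F] M) :
    finrank k (LinearMap.ker (f.baseChange k)) = finrank F (LinearMap.ker f) := by
  have h1 := (f.baseChange k).finrank_range_add_finrank_ker
  have h2 := f.finrank_range_add_finrank_ker
  rw [bc_range, Module.finrank_baseChange] at h1
  omega

end Gen

theorem bc_main {M : Type} [AddCommGroup M] (σ : Representation ℤ X M) {r : ℕ} (hr : 1 < r)
    (F : Type) [Field F] (hF : Nat.card F = r) [Module F M] [FiniteDimensional F M]
    (ρ : Representation F X M) (hρ : ∀ x v, ρ x v = σ x v) :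
    ∃ (k : Type) (_ : Field k) (_ : IsAlgClosed k) (W : Type) (_ : AddCommGroup W)
      (_ : Module k W) (_ : FiniteDimensional k W) (τ : Representation k X W),
      τ.ker = σ.ker ∧ ∀ x : X, r ^ fixDim τ x = Nat.card (LinearMap.ker (σ x - 1)) ∧
        r ^ movDim τ x = Nat.card (LinearMap.range (σ x - 1)) := by
  let k := AlgebraicClosure F
  let τ : Representation k X (TensorProduct F k M) :=
    (Module.End.baseChangeHom F k M).toMonoidHom.comp ρ
  have hτ : ∀ x, τ x - 1 = (ρ x - 1).baseChange k := by
    intro x
    rw [LinearMap.baseChange_sub, LinearMap.baseChange_one]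
    rfl
  have hk : ∀ x, r ^ fixDim τ x = Nat.card (LinearMap.ker (σ x - 1)) := by
    intro x
    rw [fixDim, hτ, bc_ker, ← hF, ← Module.natCard_eq_pow_finrank]
    refine Nat.card_congr (Equiv.subtypeEquivRight fun v => ?_)
    simp [hρ]
  have hm : ∀ x, r ^ movDim τ x = Nat.card (LinearMap.range (σ x - 1)) := by
    intro x
    rw [movDim, hτ, bc_range, ← hF, ← Module.natCard_eq_pow_finrank]
    refine Nat.card_congr (Equiv.subtypeEquivRight fun v => ?_)
    simp [hρ]
  refine ⟨k, inferInstance, inferInstance, TensorProduct F k M, inferInstance,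
    inferInstance, inferInstance, τ, ?_, fun x => ⟨hk x, hm x⟩⟩
  ext x
  rw [MonoidHom.mem_ker, MonoidHom.mem_ker, ← sub_eq_zero, ← sub_eq_zero (a := σ x),
    ← LinearMap.range_eq_bot, ← LinearMap.range_eq_bot, ← Submodule.finrank_eq_zero]
  have h1 := hm x
  rw [movDim] at h1
  constructor
  · intro h0
    rw [h0, pow_zero] at h1
    have : Subsingleton (LinearMap.range (σ x - 1)) := (Nat.card_eq_one_iff_unique.1 h1.symm).1
    exact Submodule.eq_bot_of_subsingleton
  · intro h0
    rw [h0, Nat.card_unique] at h1
    exact (Nat.pow_eq_one.1 h1).resolve_left hr.ne'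

/-- An integral representation on a module over `ZMod r` is linear over `ZMod r`. -/
def bcRep {M : Type} [AddCommGroup M] (σ : Representation ℤ X M) (r : ℕ) [Module (ZMod r) M] :
    Representation (ZMod r) X M where
  toFun x := (σ x).toAddMonoidHom.toZModLinearMap r
  map_one' := LinearMap.ext fun v => by simp
  map_mul' a b := LinearMap.ext fun v => by simp

theorem exists_baseChange {M : Type} [AddCommGroup M] [Finite M] (σ : Representation ℤ X M)
    {r : ℕ} (hr : r.Prime) (h : ∀ v : M, r • v = 0) :
    ∃ (k : Type) (_ : Field k) (_ : IsAlgClosed k) (W : Type) (_ : AddCommGroup W)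
      (_ : Module k W) (_ : FiniteDimensional k W) (τ : Representation k X W),
      τ.ker = σ.ker ∧ ∀ x : X, r ^ fixDim τ x = Nat.card (LinearMap.ker (σ x - 1)) ∧
        r ^ movDim τ x = Nat.card (LinearMap.range (σ x - 1)) := by
  have : Fact r.Prime := ⟨hr⟩
  let i1 : Module (ZMod r) M := AddCommGroup.zmodModule h
  have i2 : FiniteDimensional (ZMod r) M := Module.Finite.of_finite
  exact @bc_main X _ M _ σ r hr.one_lt (ZMod r) _ (Nat.card_zmod r) i1 i2 (@bcRep X _ M _ σ r i1)
    fun _ _ => rfl

end Pool.Agent.P.MP_618680_al.FH
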