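import Pool.Agent.P.MP_618680_al.FH.Defs

/-! Fixed vectors and systems of imprimitivity. -/

set_option autoImplicit false

namespace Pool.Agent.P.MP_618680_al.FH

open scoped commutatorElement
open Module

variable {k : Type} [Field k] {X : Type} [Group X] {W : Type} [AddCommGroup W] [Module k W]


variable {ρ : Representation k X W} {X0 : Subgroup X} {U : X ⧸ X0 → Submodule k W}

theorem blk_sum {ι : Type} [Fintype ι] [FiniteDimensional k W] (V : ι → Submodule k W)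
    (g : W →ₗ[k] W) (P : ι → W →ₗ[k] W) (Z : Submodule k W) (hZ : ∀ i, ∀ v ∈ V i, g v ∈ Z)
    (h0 : ∀ i j, j ≠ i → ∀ v ∈ V j, P i (g v) = 0) (h1 : ∀ i, ∀ v ∈ V i, P i (g v) = 0 → v = 0) :
    ∑ i, finrank k (V i) ≤ finrank k Z := by
  let Φ : (∀ i, V i) →ₗ[k] W := ∑ i, g ∘ₗ (V i).subtype ∘ₗ LinearMap.proj i
  have hΦ : ∀ v, Φ v = ∑ i, g (v i) := fun v => by simp [Φ]
  rw [← finrank_pi_fintype k]
  refine LinearMap.finrank_le_finrank_of_injective
    (f := Φ.codRestrict Z fun v => ?_) ((injective_iff_map_eq_zero _).2 fun v hv => ?_)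
  · rw [hΦ]
    exact Z.sum_mem fun i _ => hZ i _ (v i).2
  · have h2 : Φ v = 0 := congrArg Subtype.val hv
    funext i
    refine Subtype.ext (h1 i _ (v i).2 ?_)
    have h3 := congrArg (P i) h2
    rwa [hΦ, map_sum, map_zero,
      Finset.sum_eq_single i (fun j _ hj => h0 i j hj _ (v j).2) (by simp)] at h3

theorem blk_max {Ω : Type} [Finite Ω] (S : Set Ω) (r : Ω → Ω → Prop) :
    ∃ T ⊆ S, (∀ a ∈ T, ∀ b ∈ T, r a b → a = b) ∧ ∀ a ∈ S, a ∈ T ∨ ∃ b ∈ T, r a b ∨ r b a := by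
  obtain ⟨T, hT⟩ := (Set.toFinite
    {T : Set Ω | T ⊆ S ∧ ∀ a ∈ T, ∀ b ∈ T, r a b → a = b}).exists_maximal
    ⟨∅, Set.empty_subset _, by simp⟩
  refine ⟨T, hT.prop.1, hT.prop.2, fun a ha => ?_⟩
  by_contra hn
  obtain ⟨h1, h2⟩ := not_or.1 hn
  refine h1 (hT.le_of_ge (y := insert a T) ⟨Set.insert_subset ha hT.prop.1, ?_⟩
    (Set.subset_insert _ _) (Set.mem_insert _ _))
  rintro x (rfl | hx) y (rfl | hy) hr
  · rfl
  · exact absurd ⟨y, hy, Or.inl hr⟩ h2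
  · exact absurd ⟨x, hx, Or.inr hr⟩ h2
  · exact hT.prop.2 x hx y hy hr

theorem Blocks.blk_proj (hB : Blocks ρ X0 U) : ∃ P : X ⧸ X0 → W →ₗ[k] W,
    (∀ ω, ∀ v ∈ U ω, P ω v = v) ∧ ∀ ω ω', ω' ≠ ω → ∀ v ∈ U ω', P ω v = 0 := by
  have h : ∀ ω, ∃ P : W →ₗ[k] W, (∀ v ∈ U ω, P v = v) ∧ ∀ ω', ω' ≠ ω → ∀ v ∈ U ω', P v = 0 := by
    intro ω
    obtain ⟨Q, hQ, hc⟩ := (hB.indep ω).symm.exists_isCompl
    refine ⟨(U ω).projection Q hc.symm, fun v hv => ?_, fun ω' hne v hv => ?_⟩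
    · exact Submodule.projection_apply_left hc.symm ⟨v, hv⟩
    · exact Submodule.projection_apply_right hc.symm
        ⟨v, hQ (le_iSup₂_of_le (f := fun j (_ : j ≠ ω) => U j) ω' hne le_rfl hv)⟩
  choose P h1 h2 using h
  exact ⟨P, h1, h2⟩

theorem Blocks.blk_mem (hB : Blocks ρ X0 U) (x : X) {ω : X ⧸ X0} {v : W} (hv : v ∈ U ω) :
    ρ x v ∈ U (x • ω) := by
  rw [← hB.equiv]
  exact Submodule.mem_map_of_mem hv

theorem Blocks.blk_rank (hB : Blocks ρ X0 U) (ω : X ⧸ X0) :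
    finrank k (U ω) = finrank k (U ((1 : X) : X ⧸ X0)) := by
  obtain ⟨g, rfl⟩ := QuotientGroup.mk_surjective ω
  have h : (g : X ⧸ X0) = g • ((1 : X) : X ⧸ X0) := by
    rw [MulAction.Quotient.smul_coe, smul_eq_mul, mul_one]
  have hi : Function.Injective (ρ g) := fun a b hab => by
    simpa using congrArg (ρ g⁻¹) hab
  rw [h, ← hB.equiv]
  exact (Submodule.equivMapOfInjective _ hi _).finrank_eq.symm

theorem blk_geom (s : X) (m : ℕ) (v : W) :
    (ρ s - 1) ((∑ i ∈ Finset.range m, ρ (s ^ i)) v) = ρ (s ^ m) v - v := by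
  simp only [map_pow]
  rw [← Module.End.mul_apply, mul_geom_sum]
  rfl

theorem Blocks.blk_orb (hB : Blocks ρ X0 U) {P : W →ₗ[k] W} {ω : X ⧸ X0}
    (h1 : ∀ v ∈ U ω, P v = v) (h2 : ∀ ω', ω' ≠ ω → ∀ v ∈ U ω', P v = 0) (s : X) {m : ℕ}
    (hm : 0 < m) (hs : ∀ i, 0 < i → i < m → s ^ i • ω ≠ ω) {v : W} (hv : v ∈ U ω) :
    P ((∑ i ∈ Finset.range m, ρ (s ^ i)) v) = v := by
  rw [LinearMap.sum_apply, map_sum, Finset.sum_eq_single 0]
  · simpa using h1 v hv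
  · exact fun i hi hi0 =>
      h2 _ (hs i (Nat.pos_of_ne_zero hi0) (Finset.mem_range.1 hi)) _ (hB.blk_mem _ hv)
  · exact fun h => absurd (Finset.mem_range.2 hm) h

theorem blk_reg {Ω : Type} [MulAction X Ω] {s : X} {m : ℕ} {ω : Ω} (hω : ω ∈ Reg s m Ω)
    (hs : s ^ m • ω = ω) {i : ℕ} (h0 : 0 < i) (hi : i < m) : s ^ i • ω ≠ ω := by
  intro h
  rw [MulAction.pow_smul_eq_iff_period_dvd] at h hs
  obtain ⟨c, hc⟩ := hs
  have hc1 : c ≠ 1 := by
    rintro rfl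
    have := Nat.le_of_dvd h0 h
    omega
  obtain ⟨p, hp, d, rfl⟩ := Nat.exists_prime_and_dvd hc1
  have e : m = p * (MulAction.period s ω * d) := by rw [hc]; ring
  refine hω p hp ⟨_, e⟩ ?_
  rw [MulAction.pow_smul_eq_iff_period_dvd, Nat.div_eq_of_eq_mul_right hp.pos e]
  exact Dvd.intro _ rfl

theorem Blocks.smul_eq_of_mem_ker (hB : Blocks ρ X0 U) {x : X} (hx : ρ x = 1) (ω : X ⧸ X0) :
    x • ω = ω := by
  by_contra hne
  have h1 := hB.equiv x ω
  have h2 : (U ω).map (ρ x) = U ω := by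
    rw [hx]
    exact Submodule.map_id _
  have h3 : Disjoint (U (x • ω)) (U ω) := hB.indep.pairwiseDisjoint hne
  rw [← h1, h2] at h3
  exact hB.ne_bot ω (disjoint_self.1 h3)

/-- A normal subgroup that is trivial on the base block is trivial. -/
theorem Blocks.le_ker (hB : Blocks ρ X0 U) (L : Subgroup X) [L.Normal] (hL : L ≤ X0)
    (h : L.subgroupOf X0 ≤ hB.base.ker) : L ≤ ρ.ker := by
  intro l hl
  have h1 : ⨆ ω, U ω ≤ LinearMap.ker (ρ l - 1) := by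
    refine iSup_le fun ω => ?_
    obtain ⟨g, rfl⟩ := QuotientGroup.mk_surjective ω
    have e : (g : X ⧸ X0) = g • ((1 : X) : X ⧸ X0) := by
      rw [MulAction.Quotient.smul_coe, smul_eq_mul, mul_one]
    rw [e, ← hB.equiv]
    rintro _ ⟨u, hu, rfl⟩
    have hm : g⁻¹ * l * g ∈ L := Subgroup.Normal.conj_mem' inferInstance l hl g
    have h2 : hB.base ⟨_, hL hm⟩ = 1 := h (show (⟨_, hL hm⟩ : X0) ∈ L.subgroupOf X0 from hm)
    have h3 : ρ (g⁻¹ * l * g) u = u := congrArg Subtype.val (LinearMap.congr_fun h2 ⟨u, hu⟩)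
    have h4 : l * g = g * (g⁻¹ * l * g) := by group
    rw [LinearMap.mem_ker, LinearMap.sub_apply, ← Module.End.mul_apply, ← map_mul, h4, map_mul,
      Module.End.mul_apply, h3, Module.End.one_apply, sub_self]
  rw [hB.top, top_le_iff, LinearMap.ker_eq_top, sub_eq_zero] at h1
  exact h1

/-- Orbit sums over regular orbits of blocks. -/
theorem Blocks.ncard_reg_le [Finite X] [FiniteDimensional k W] (hB : Blocks ρ X0 U) (s : X) {m : ℕ}
    (hm : 0 < m) (hs : ρ (s ^ m) = 1) : (Reg s m (X ⧸ X0)).ncard ≤ m * fixDim ρ s := by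
  classical
  obtain ⟨P, hP1, hP2⟩ := hB.blk_proj
  obtain ⟨T, hTS, hT1, hT2⟩ := blk_max (Reg s m (X ⧸ X0)) fun a b => ∃ i < m, s ^ i • a = b
  have hfix := hB.smul_eq_of_mem_ker hs
  have h1 : (Reg s m (X ⧸ X0)).ncard ≤ m * T.ncard := by
    have h2 : Reg s m (X ⧸ X0) ⊆
        (fun p : ℕ × (X ⧸ X0) => s ^ p.1 • p.2) '' ((Finset.range m : Set ℕ) ×ˢ T) := by
      intro a ha
      rcases hT2 a ha with h | ⟨b, hb, ⟨i, hi, h⟩ | ⟨i, hi, h⟩⟩
      · exact ⟨(0, a), ⟨by simpa using hm, h⟩, by simp⟩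
      · rcases Nat.eq_zero_or_pos i with rfl | hi0
        · exact ⟨(0, b), ⟨by simpa using hm, hb⟩, by simpa using h.symm⟩
        · refine ⟨(m - i, b), ⟨by simp; omega, hb⟩, ?_⟩
          change s ^ (m - i) • b = a
          rw [← h, smul_smul, ← pow_add, Nat.sub_add_cancel hi.le, hfix]
      · exact ⟨(i, b), ⟨by simpa using hi, hb⟩, h⟩
    have h3 : ((Finset.range m : Set ℕ) ×ˢ T).Finite :=
      (Finset.finite_toSet _).prod (Set.toFinite T)
    refine (Set.ncard_le_ncard h2 (h3.image _)).trans ((Set.ncard_image_le h3).trans ?_)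
    rw [Set.ncard_prod, Set.ncard_coe_finset, Finset.card_range]
  refine h1.trans (Nat.mul_le_mul_left _ ?_)
  have := Fintype.ofFinite T
  refine le_trans ?_ (blk_sum (fun ω : T => U ω) (∑ i ∈ Finset.range m, ρ (s ^ i))
    (fun ω => P ω) _ (fun ω v _ => ?_) (fun ω ω' hne v hv => ?_) fun ω v hv h => ?_)
  · rw [← Nat.card_coe_set_eq, Nat.card_eq_fintype_card, ← Finset.card_univ,
      Finset.card_eq_sum_ones]
    exact Finset.sum_le_sum fun ω _ => Submodule.one_le_finrank_iff.2 (hB.ne_bot _)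
  · rw [LinearMap.mem_ker, blk_geom, hs, Module.End.one_apply, sub_self]
  · rw [LinearMap.sum_apply, map_sum]
    refine Finset.sum_eq_zero fun i hi => hP2 _ _ (fun e => ?_) _ (hB.blk_mem _ hv)
    exact hne (Subtype.ext (hT1 _ ω'.2 _ ω.2 ⟨i, Finset.mem_range.1 hi, e⟩))
  · rwa [hB.blk_orb (hP1 ω) (hP2 ω) s hm
      (fun i h0 hi => blk_reg (hTS ω.2) (hfix _) h0 hi) hv] at h

/-- Orbit sums over the orbit of the base block. -/
theorem Blocks.fixDim_base_le [FiniteDimensional k W] (hB : Blocks ρ X0 U) (s : X) {j : ℕ}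
    (hj0 : 0 < j) (hj : s ^ j ∈ X0) (hmin : ∀ i, 0 < i → i < j → s ^ i ∉ X0) :
    fixDim hB.base ⟨s ^ j, hj⟩ ≤ fixDim ρ s := by
  obtain ⟨P, hP1, hP2⟩ := hB.blk_proj
  have h := blk_sum (ι := Unit)
    (fun _ => (LinearMap.ker (hB.base ⟨s ^ j, hj⟩ - 1)).map (U ((1 : X) : X ⧸ X0)).subtype)
    (∑ i ∈ Finset.range j, ρ (s ^ i)) (fun _ => P ((1 : X) : X ⧸ X0)) (LinearMap.ker (ρ s - 1))
    ?_ (fun _ _ hne => absurd rfl hne) ?_
  · rwa [Fintype.sum_unique, Submodule.finrank_map_subtype_eq] at h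
  · rintro _ _ ⟨u, hu, rfl⟩
    rw [LinearMap.mem_ker, blk_geom]
    exact congrArg Subtype.val (LinearMap.mem_ker.1 hu)
  · rintro _ _ ⟨u, -, rfl⟩ h
    refine (hB.blk_orb (hP1 _) (hP2 _) s hj0 (fun i h0 hi e => hmin i h0 hi ?_) u.2).symm.trans h
    rw [MulAction.Quotient.smul_coe, QuotientGroup.eq] at e
    simpa using e

theorem Blocks.movDim_base_le [FiniteDimensional k W] (hB : Blocks ρ X0 U) (y : X0) :
    movDim hB.base y ≤ movDim ρ y := by
  rw [movDim, movDim, ← Submodule.finrank_map_subtype_eq]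
  refine Submodule.finrank_mono ?_
  rintro _ ⟨_, ⟨u, rfl⟩, rfl⟩
  exact ⟨u, rfl⟩

/-- An element of small rank moves few blocks. -/
theorem Blocks.ncard_moved_le [Finite X] [FiniteDimensional k W] (hB : Blocks ρ X0 U) (y : X) :
    {ω : X ⧸ X0 | y • ω ≠ ω}.ncard * finrank k (U ((1 : X) : X ⧸ X0)) ≤ 3 * movDim ρ y := by
  classical
  obtain ⟨P, hP1, hP2⟩ := hB.blk_proj
  obtain ⟨T, hTS, hT1, hT2⟩ := blk_max {ω : X ⧸ X0 | y • ω ≠ ω} fun a b => y • a = b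
  have h1 : {ω : X ⧸ X0 | y • ω ≠ ω}.ncard ≤ 3 * T.ncard := by
    have h2 : {ω : X ⧸ X0 | y • ω ≠ ω} ⊆ T ∪ (fun b => y⁻¹ • b) '' T ∪ (fun b => y • b) '' T := by
      intro a ha
      rcases hT2 a ha with h | ⟨b, hb, h | h⟩
      · exact Or.inl (Or.inl h)
      · exact Or.inl (Or.inr ⟨b, hb, by simp [← h]⟩)
      · exact Or.inr ⟨b, hb, h⟩
    have h3 := Set.ncard_le_ncard h2
    have h4 := Set.ncard_union_le (T ∪ (fun b => y⁻¹ • b) '' T) ((fun b => y • b) '' T)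
    have h5 := Set.ncard_union_le T ((fun b => y⁻¹ • b) '' T)
    have h6 := Set.ncard_image_le (f := fun b => y⁻¹ • b) (Set.toFinite T)
    have h7 := Set.ncard_image_le (f := fun b => y • b) (Set.toFinite T)
    omega
  have := Fintype.ofFinite T
  have hy : ∀ ω ω' : T, ∀ v ∈ U ω', P ω (ρ y v) = 0 := fun ω ω' v hv =>
    hP2 _ _ (fun e => hTS ω'.2 (e.trans (hT1 _ ω'.2 _ ω.2 e).symm)) _ (hB.blk_mem _ hv)
  have h := blk_sum (fun ω : T => U ω) (ρ y - 1) (fun ω => P ω) (LinearMap.range (ρ y - 1))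
    (fun ω v _ => ⟨v, rfl⟩) (fun ω ω' hne v hv => ?_) fun ω v hv h => ?_
  · simp only [hB.blk_rank, Finset.sum_const, Finset.card_univ, smul_eq_mul] at h
    rw [← Nat.card_eq_fintype_card, Nat.card_coe_set_eq] at h
    calc _ ≤ 3 * T.ncard * _ := Nat.mul_le_mul_right _ h1
      _ ≤ _ := by
        rw [mul_assoc]
        exact Nat.mul_le_mul_left _ h
  · rw [LinearMap.sub_apply, map_sub, hy ω ω' v hv, Module.End.one_apply,
      hP2 _ _ (fun e => hne (Subtype.ext e)) v hv, sub_zero]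
  · rwa [LinearMap.sub_apply, map_sub, hy ω ω v hv, Module.End.one_apply, hP1 _ v hv, zero_sub,
      neg_eq_zero] at h

end Pool.Agent.P.MP_618680_al.FH
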