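import Pool.Agent.P.MP_618680_al.FH.ML
import Pool.Agent.P.MP_618680_al.FH.Afp

/-! The bound for the derived length of the finite subgroups. -/

set_option autoImplicit false

namespace Pool.Agent.P.MP_618680_al.FH

open scoped commutatorElement
open Module

theorem bound_cube (L : ℕ) : (L + 1) ^ 3 ≤ 8 * 2 ^ L := by
  rcases Nat.lt_or_ge L 3 with h | h
  · interval_cases L <;> norm_num
  · obtain ⟨j, rfl⟩ := Nat.exists_eq_add_of_le' h
    induction j with
    | zero => norm_num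
    | succ j ih =>
      have h1 := ih (by omega)
      have h2 : (j + 1 + 3 + 1) ^ 3 ≤ 2 * (j + 3 + 1) ^ 3 := by
        have : 2 * (j + 3 + 1) ^ 3 = (j + 1 + 3 + 1) ^ 3 + (j ^ 3 + 9 * j ^ 2 + 21 * j + 3) := by
          ring
        omega
      have h3 : 2 ^ (j + 1 + 3) = 2 * 2 ^ (j + 3) := by ring
      omega

theorem exists_bound_lam (α a b : ℕ) : ∃ T : ℕ, ∀ t : ℕ, t ≤ α * lam (a * t + b) → t ≤ T := by
  refine ⟨α * (16 * (8 * (a * α * 16 + b) + 1) ^ 2), fun t ht => ht.trans ?_⟩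
  refine Nat.mul_le_mul_left _ (Nat.mul_le_mul_left _ (Nat.pow_le_pow_left ?_ 2))
  rcases Nat.eq_zero_or_pos (a * t + b) with h0 | h0
  · rw [h0]; simp
  unfold lam at ht
  set L := Nat.log 2 (a * t + b) with hL
  have h1 : 2 ^ L ≤ a * t + b := Nat.pow_log_le_self 2 h0.ne'
  have h2 : a * t ≤ a * (α * (16 * (L + 1) ^ 2)) := Nat.mul_le_mul_left _ ht
  have h3 : b ≤ b * (L + 1) ^ 2 := Nat.le_mul_of_pos_right _ (by positivity)
  have h4 : (L + 1) * (L + 1) ^ 2 ≤ (8 * (a * α * 16 + b)) * (L + 1) ^ 2 := by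
    have e1 : (L + 1) * (L + 1) ^ 2 = (L + 1) ^ 3 := by ring
    have e2 : (8 * (a * α * 16 + b)) * (L + 1) ^ 2 =
        8 * (a * (α * (16 * (L + 1) ^ 2)) + b * (L + 1) ^ 2) := by ring
    have := bound_cube L
    omega
  have h5 := Nat.le_of_mul_le_mul_right h4 (by positivity)
  omega

theorem bound_le_normalizer {X : Type} [Group X] {A B : Subgroup X} (hBA : B ≤ A)
    (hc : ⁅A, A⁆ ≤ B) : A ≤ Subgroup.normalizer (B : Set X) := by
  have key : ∀ a ∈ A, ∀ x ∈ B, a * x * a⁻¹ ∈ B := fun a ha x hx => by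
    have h1 : ⁅a, x⁆ ∈ B := hc (Subgroup.commutator_mem_commutator ha (hBA hx))
    have e : a * x * a⁻¹ = ⁅a, x⁆ * x := by rw [commutatorElement_def]; group
    rw [e]
    exact B.mul_mem h1 hx
  intro a ha
  rw [Subgroup.mem_normalizer_iff]
  refine fun x => ⟨key a ha x, fun hx => ?_⟩
  have := key a⁻¹ (A.inv_mem ha) _ hx
  simpa [mul_assoc] using this

/-- Bounded Fitting height. -/
theorem height_bound {n : ℕ} (hn : 0 < n) (I c d : ℕ) : ∃ T : ℕ, ∀ (X : Type) [Group X] [Finite X]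
    [Group.IsSolvable X] (g : X) (D : Subgroup X), g ^ n = 1 →
    D ≤ Subgroup.centralizer ({g} : Set X) → (∀ x ∈ D, ∀ y ∈ D, x * y = y * x) →
    D.relIndex (Subgroup.centralizer ({g} : Set X)) ≤ I → (tor D n).ncard ≤ c →
    (∀ r : ℕ, r.Prime → (tor D r).ncard ≤ c) → (∀ p : ℕ, p.Prime → p ∣ n → PDl X p d) →
    nresN T (⊤ : Subgroup X) = ⊥ := by
  classical
  obtain ⟨α, c', hM⟩ := thmM n hn
  obtain ⟨T, hT⟩ := exists_bound_lam α (c' * c * d) (c' * (I + c + 1))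
  refine ⟨T, fun X _ _ _ g D hg hD hDc hI hc hr hp => ?_⟩
  have hex : ∃ t, nresN t (⊤ : Subgroup X) = ⊥ := exists_nresN_eq_bot ⊤
  have ht : nresN (Nat.find hex) (⊤ : Subgroup X) = ⊥ := Nat.find_spec hex
  have hch := chain_top hp ht
  have hS : Star g (I + c * (d * Nat.find hex + 1)) := by
    rintro A B hBA _ hgB hc' ⟨r, hr', hAB⟩
    refine (fixS_le_of_chain hn hg D hD hDc hI hc (hr r hr') hch A B
      (bound_le_normalizer hBA hc') hgB hAB).trans (Nat.mul_le_mul_right _ ?_)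
    rw [pow_add 2, pow_mul 2]
    exact Nat.mul_le_mul Nat.lt_two_pow_self.le (Nat.pow_le_pow_left Nat.lt_two_pow_self.le _)
  have h1 := hM X g _ hS ⊤ ⊥ (by rw [hg]; exact Subgroup.one_mem _)
    (by rw [Subgroup.normalizer_eq_top])
  have h2 : Nat.find hex ≤ bnd α c' 0 (I + c * (d * Nat.find hex + 1)) :=
    Nat.find_min' hex (le_bot_iff.1 h1)
  have h3 : Nat.find hex ≤ T := by
    refine hT _ (h2.trans (le_of_eq ?_))
    unfold bnd
    rw [zero_add]
    congr 2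
    ring
  exact le_bot_iff.1 (ht ▸ nresN_anti h3 ⊤)

theorem bound_card_fix {X : Type} [Group X] [Finite X] (N : Subgroup X) [N.Normal] (g : X)
    (Q : Subgroup (X ⧸ N)) :
    (fixS (Q.comap (QuotientGroup.mk' N)) N g).ncard =
      Nat.card (Q ⊓ Subgroup.centralizer ({(g : X ⧸ N)} : Set (X ⧸ N)) : Subgroup (X ⧸ N)) *
        Nat.card N := by
  have e : fixS (Q.comap (QuotientGroup.mk' N)) N g = QuotientGroup.mk ⁻¹'
      ((Q ⊓ Subgroup.centralizer ({(g : X ⧸ N)} : Set (X ⧸ N)) : Subgroup (X ⧸ N)) :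
        Set (X ⧸ N)) := by
    ext a
    have h1 : ⁅a, g⁆ ∈ N ↔ (a : X ⧸ N) * (g : X ⧸ N) = (g : X ⧸ N) * (a : X ⧸ N) := by
      rw [← commutatorElement_eq_one_iff_mul_comm, ← QuotientGroup.eq_one_iff]
      rfl
    simp only [fixS, Set.mem_ofPred_eq, Subgroup.mem_comap, QuotientGroup.mk'_apply,
      Set.mem_preimage, SetLike.mem_coe, Subgroup.mem_inf, Subgroup.mem_centralizer_singleton_iff,
      h1]
  rw [e, ← Nat.card_coe_set_eq, QuotientGroup.card_preimage_mk, mul_comm]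
  rfl

/-- One nilpotent layer. -/
theorem bound_layer {n P k : ℕ} (hn : 0 < n) (hK : Krek n P k) {I c d b : ℕ} {X : Type} [Group X]
    [Finite X] [Group.IsSolvable X] {g : X} {D : Subgroup X} (hg : g ^ n = 1)
    (hD : D ≤ Subgroup.centralizer ({g} : Set X)) (hDc : ∀ x ∈ D, ∀ y ∈ D, x * y = y * x)
    (hI : D.relIndex (Subgroup.centralizer ({g} : Set X)) ≤ I) (hc : (tor D n).ncard ≤ c)
    (hp : ∀ p : ℕ, p.Prime →
      PDl X p d ∨ (P < p ∧ ¬ p ∣ n ∧ ∀ e : ℕ, (tor D (p ^ e)).ncard ≤ c))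
    (hch : Chain n (⊤ : Subgroup X) b) (L : Subgroup X) [L.Normal] :
    der L (max d (I * c ^ (b + 1) * (k + 1))) ≤ nres L := by
  refine der_le_of_map ?_
  have hH : (L.map (QuotientGroup.mk' (nres L))).Normal :=
    Subgroup.Normal.map ‹_› _ (QuotientGroup.mk'_surjective _)
  have hH0 : nres (L.map (QuotientGroup.mk' (nres L))) = ⊥ := by
    rw [← map_nres, Subgroup.map_eq_bot_iff, QuotientGroup.ker_mk']
  rw [eq_bot_iff]
  intro x hx
  rw [Subgroup.mem_bot, ← orderOf_eq_one_iff, Nat.eq_one_iff_not_exists_prime_dvd]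
  intro p hp'
  refine not_dvd_orderOf_der _ hH0 hp' (fun Q hQn _ hQ => ?_) x hx
  rcases hp p hp' with h | ⟨hP, hpn, he⟩
  · have h1 := h.quotient hp' (nres L) Q hQ
    exact le_bot_iff.1 (h1 ▸ der_anti Q (le_max_left _ _))
  · have : Fact p.Prime := ⟨hp'⟩
    obtain ⟨e, hQe⟩ := IsPGroup.iff_card.1 hQ
    have h1 := fixS_le_of_chain hn hg D hD hDc hI hc (he e) hch
      (Q.comap (QuotientGroup.mk' (nres L))) (nres L)
      (by rw [Subgroup.normalizer_eq_top]; exact le_top)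
      (by rw [Subgroup.normalizer_eq_top]; exact Subgroup.mem_top _)
      (fun a ha => by
        rw [← QuotientGroup.eq_one_iff, QuotientGroup.mk_pow, ← hQe]
        have := pow_card_eq_one' (x := (⟨(a : X ⧸ nres L), ha⟩ : Q))
        exact congrArg Subtype.val this)
    rw [bound_card_fix] at h1
    have h2 := Nat.le_of_mul_le_mul_right h1 Nat.card_pos
    have h3 := almost_fpf hn hK (g := (g : X ⧸ nres L))
      (by rw [← QuotientGroup.mk_pow, hg, QuotientGroup.mk_one]) hp' hP hpn Q hQ h2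
    exact le_bot_iff.1 (h3 ▸ der_anti Q (le_max_right _ _))

/-- Bounded derived length. -/
theorem fin_bound {n P k : ℕ} (hn : 0 < n) (hK : Krek n P k) (I c d : ℕ) : ∃ δ : ℕ,
    ∀ (X : Type) [Group X] [Finite X] [Group.IsSolvable X] (g : X) (D : Subgroup X), g ^ n = 1 →
    D ≤ Subgroup.centralizer ({g} : Set X) → (∀ x ∈ D, ∀ y ∈ D, x * y = y * x) →
    D.relIndex (Subgroup.centralizer ({g} : Set X)) ≤ I → (tor D n).ncard ≤ c →
    (∀ r : ℕ, r.Prime → (tor D r).ncard ≤ c) →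
    (∀ p : ℕ, p.Prime → PDl X p d ∨ (P < p ∧ ¬ p ∣ n ∧ ∀ e : ℕ, (tor D (p ^ e)).ncard ≤ c)) →
    der (⊤ : Subgroup X) δ = ⊥ := by
  obtain ⟨T, hT⟩ := height_bound hn I c d
  refine ⟨T * max d (I * c ^ (d * T + 1) * (k + 1)),
    fun X _ _ _ g D hg hD hDc hI hc hr hp => ?_⟩
  have hp' : ∀ p : ℕ, p.Prime → p ∣ n → PDl X p d := fun p h1 h2 =>
    (hp p h1).resolve_right fun h => h.2.1 h2
  have h0 := hT X g D hg hD hDc hI hc hr hp'
  have hch := chain_top hp' h0
  have key : ∀ i, der (⊤ : Subgroup X) (i * max d (I * c ^ (d * T + 1) * (k + 1))) ≤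
      nresN i ⊤ := by
    intro i
    induction i with
    | zero => simp
    | succ i ih =>
      rw [Nat.succ_mul, nresN_succ]
      exact der_trans ih (bound_layer hn hK hg hD hDc hI hc hp hch _)
  exact le_bot_iff.1 (h0 ▸ key T)

end Pool.Agent.P.MP_618680_al.FH
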