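import Mathlib

/-! Definitions for the bound on the Fitting height under an almost fixed-point-free
automorphism. -/

set_option autoImplicit false

namespace Pool.Agent.P.MP_618680_al.FH

open scoped commutatorElement
open Module

section Groups

variable {X : Type} [Group X]

/-- The nilpotent residual of `K`. -/
def nres (K : Subgroup X) : Subgroup X := ⨅ i, K.lowerCentralSeries i

/-- The iterated nilpotent residual. -/
def nresN (h : ℕ) (K : Subgroup X) : Subgroup X := nres^[h] K

/-- The derived series of `K`, computed in the ambient group. -/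
def der (K : Subgroup X) : ℕ → Subgroup X
  | 0 => K
  | i + 1 => ⁅der K i, der K i⁆

/-- The bound for the Fitting height of soluble linear groups of degree `d`. -/
def lam (d : ℕ) : ℕ := 16 * (Nat.log 2 d + 1) ^ 2

/-- The bound for groups generated by elements of rank at most `c`. -/
def srb (c : ℕ) : ℕ := lam (6 * c + 1) + 2

/-- The shape of the bounds in the two main inductions. -/
def bnd (α c h0 μ : ℕ) : ℕ := α * (h0 + lam (c * (μ + 1)))

/-- Points fixed by no `s ^ (m / p)`, `p` a prime divisor of `m`. -/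
def Reg (s : X) (m : ℕ) (Ω : Type) [MulAction X Ω] : Set Ω :=
  {ω | ∀ p : ℕ, p.Prime → p ∣ m → s ^ (m / p) • ω ≠ ω}

/-- The induction hypothesis carried through the two main lemmas. -/
def IH (K : Subgroup X) (s : X) (m h0 : ℕ) : Prop :=
  ∀ i p : ℕ, p.Prime → p ∣ m → ∀ L : Subgroup X, s ^ (m / p) ∈ L →
    nresN i K ≤ Subgroup.normalizer (L : Set X) → nresN (h0 + i) K ≤ L

/-- The elements of `A` that commute with `x` modulo `B`. -/
def fixS (A B : Subgroup X) (x : X) : Set X := {a | a ∈ A ∧ ⁅a, x⁆ ∈ B}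

/-- The centraliser of the section `A / B`. -/
def secCent (A B : Subgroup X) [B.Normal] : Subgroup X :=
  (Subgroup.centralizer (A.map (QuotientGroup.mk' B) : Set (X ⧸ B))).comap (QuotientGroup.mk' B)

/-- `g` has at most `2 ^ μ` fixed points in every elementary abelian section it normalises. -/
def Star (g : X) (μ : ℕ) : Prop :=
  ∀ A B : Subgroup X, B ≤ A → g ∈ Subgroup.normalizer (A : Set X) →
    g ∈ Subgroup.normalizer (B : Set X) → ⁅A, A⁆ ≤ B →
    (∃ r : ℕ, r.Prime ∧ ∀ a ∈ A, a ^ r ∈ B) → (fixS A B g).ncard ≤ 2 ^ μ * Nat.card B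

/-- `M` with the action `σ` is the abelian section `A / B`, written additively; `π` is the
quotient map (with arbitrary values outside `A`). -/
structure SecRep (A B : Subgroup X) {M : Type} [AddCommGroup M] (σ : Representation ℤ X M)
    (π : X → M) : Prop where
  surj : ∀ v : M, ∃ a ∈ A, π a = v
  mul : ∀ a ∈ A, ∀ b ∈ A, π (a * b) = π a + π b
  zero : ∀ a ∈ A, (π a = 0 ↔ a ∈ B)
  conj : ∀ x : X, ∀ a ∈ A, π (x * a * x⁻¹) = σ x (π a)

/-- `L` has a series of normal subgroups of `X` with abelian factors, at most `b` of which are not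
of order prime to `n`. -/
inductive Chain (n : ℕ) : Subgroup X → ℕ → Prop
  | bot : Chain n ⊥ 0
  | mono {L : Subgroup X} {b b' : ℕ} : Chain n L b → b ≤ b' → Chain n L b'
  | bad {L1 L0 : Subgroup X} {b : ℕ} : Chain n L1 b → L0.Normal → L1 ≤ L0 → ⁅L0, L0⁆ ≤ L1 →
      Chain n L0 (b + 1)
  | good {L1 L0 : Subgroup X} {b : ℕ} : Chain n L1 b → L0.Normal → L1 ≤ L0 → ⁅L0, L0⁆ ≤ L1 →
      (∀ x ∈ L0, x ^ n ∈ L1 → x ∈ L1) → Chain n L0 b

/-- The `q`-torsion of `D`. -/
def tor (D : Subgroup X) (q : ℕ) : Set X := {x | x ∈ D ∧ x ^ q = 1}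

end Groups

/-- All `p`-subgroups have derived length at most `d`. -/
def PDl (X : Type) [Group X] (p d : ℕ) : Prop :=
  ∀ Q : Subgroup X, IsPGroup p Q → der Q d = ⊥

/-- The bound for the derived length under a fixed-point-free automorphism, primes above `P`. -/
def Krek (n P k : ℕ) : Prop :=
  ∀ (G : Type) [Group G] [Finite G] [Group.IsNilpotent G],
    (∀ p : ℕ, p.Prime → p ∣ Nat.card G → P < p) → ∀ φ : G →* G,
      φ^[n] = id → MonoidHom.FixedPointFree φ → derivedSeries G k = ⊥

section Modules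

variable {k : Type} [Field k] {X : Type} [Group X] {W : Type} [AddCommGroup W] [Module k W]

/-- Dimension of the fixed space of `x`. -/
noncomputable def fixDim (ρ : Representation k X W) (x : X) : ℕ :=
  finrank k (LinearMap.ker (ρ x - 1))

/-- Rank of `x - 1`. -/
noncomputable def movDim (ρ : Representation k X W) (x : X) : ℕ :=
  finrank k (LinearMap.range (ρ x - 1))

/-- Irreducible (and nonzero). -/
def Irr (ρ : Representation k X W) : Prop :=
  Nontrivial W ∧ ∀ U : Submodule k W, (∀ x : X, ∀ v ∈ U, ρ x v ∈ U) → U = ⊥ ∨ U = ⊤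

/-- The elements acting as scalars. -/
def scal (ρ : Representation k X W) : Subgroup X where
  carrier := {x | ∃ c : kˣ, ∀ v, ρ x v = (c : k) • v}
  one_mem' := ⟨1, fun v => by simp⟩
  mul_mem' := by
    rintro a b ⟨c, hc⟩ ⟨d, hd⟩
    exact ⟨c * d, fun v => by rw [map_mul, Module.End.mul_apply, hd, map_smul, hc, smul_smul,
      Units.val_mul, mul_comm]⟩
  inv_mem' := by
    rintro a ⟨c, hc⟩
    refine ⟨c⁻¹, fun v => ?_⟩
    have h : ρ a⁻¹ (ρ a v) = v := by
      rw [← Module.End.mul_apply, ← map_mul, inv_mul_cancel, map_one, Module.End.one_apply]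
    rw [hc, map_smul] at h
    rw [← h, smul_smul, Units.inv_mul, one_smul, h]

instance scal_normal (ρ : Representation k X W) : (scal ρ).Normal :=
  ⟨by
    rintro a ⟨c, hc⟩ g
    refine ⟨c, fun v => ?_⟩
    rw [map_mul, map_mul, Module.End.mul_apply, Module.End.mul_apply, hc, map_smul,
      ← Module.End.mul_apply, ← map_mul, mul_inv_cancel, map_one, Module.End.one_apply]⟩

/-- Quasi-primitive: irreducible, and normal subgroups with abelian image act by scalars. -/
def QPrim (ρ : Representation k X W) : Prop :=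
  Irr ρ ∧ ∀ A : Subgroup X, A.Normal → ⁅A, A⁆ ≤ ρ.ker → A ≤ scal ρ

/-- Restriction to a subgroup and a subspace invariant under it. -/
def resRep (ρ : Representation k X W) (X0 : Subgroup X) (W0 : Submodule k W)
    (h : ∀ x ∈ X0, ∀ v ∈ W0, ρ x v ∈ W0) : Representation k X0 W0 :=
  Representation.subrepresentation (ρ.comp X0.subtype) W0 fun g v hv => h g g.2 v hv

/-- `ρ'` is dominated by `ρ` (as a composition factor is). -/
def Dom {W' : Type} [AddCommGroup W'] [Module k W'] (ρ' : Representation k X W')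
    (ρ : Representation k X W) : Prop :=
  finrank k W' ≤ finrank k W ∧ ∀ x : X, fixDim ρ' x ≤ fixDim ρ x ∧ movDim ρ' x ≤ movDim ρ x

/-- A system of imprimitivity indexed by the cosets of `X0`. -/
structure Blocks (ρ : Representation k X W) (X0 : Subgroup X) (U : X ⧸ X0 → Submodule k W) :
    Prop where
  equiv : ∀ (x : X) (ω : X ⧸ X0), (U ω).map (ρ x) = U (x • ω)
  indep : iSupIndep U
  top : ⨆ ω, U ω = ⊤
  ne_bot : ∀ ω, U ω ≠ ⊥

theorem Blocks.inv {ρ : Representation k X W} {X0 : Subgroup X} {U : X ⧸ X0 → Submodule k W}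
    (hB : Blocks ρ X0 U) : ∀ x ∈ X0, ∀ v ∈ U ((1 : X) : X ⧸ X0), ρ x v ∈ U ((1 : X) : X ⧸ X0) := by
  intro x hx v hv
  have h : x • ((1 : X) : X ⧸ X0) = ((1 : X) : X ⧸ X0) := by
    rw [MulAction.Quotient.smul_coe, QuotientGroup.eq]
    simpa using hx
  have h2 := hB.equiv x ((1 : X) : X ⧸ X0)
  rw [h] at h2
  rw [← h2]
  exact Submodule.mem_map_of_mem hv

/-- The action of the stabiliser on the base block. -/
def Blocks.base {ρ : Representation k X W} {X0 : Subgroup X} {U : X ⧸ X0 → Submodule k W}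
    (hB : Blocks ρ X0 U) : Representation k X0 (U ((1 : X) : X ⧸ X0)) :=
  resRep ρ X0 _ hB.inv

/-- The properties of a normal subgroup maximal subject to being abelian modulo the scalars. -/
structure SymF (ρ : Representation k X W) (F : Subgroup X) : Prop where
  normal : F.Normal
  scal_le : scal ρ ≤ F
  comm : ⁅F, F⁆ ≤ scal ρ
  cent : secCent F (scal ρ) ≤ F
  nondeg : ∀ x ∈ F, (∀ y ∈ F, ⁅x, y⁆ ∈ ρ.ker) → x ∈ scal ρ

/-- Conjugation `f ↦ ρ x * f * ρ x⁻¹` on the endomorphism algebra. -/
def conjEnd (ρ : Representation k X W) (x : X) : Module.End k (Module.End k W) :=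
  (LinearMap.mulLeft k (ρ x)).comp (LinearMap.mulRight k (ρ x⁻¹))

end Modules

end Pool.Agent.P.MP_618680_al.FH
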