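import Pool.Agent.P.MP_618680_al.FH.ML

/-! Fitting height under an almost fixed-point-free automorphism. -/

set_option autoImplicit false

namespace Pool.Agent.P.MP_618680_al.FH

open scoped commutatorElement
open Module

theorem fit_nresN (n : ℕ) (hn : 0 < n) (m : ℕ) : ∃ h : ℕ, ∀ (G : Type) [Group G] [Finite G]
    [Group.IsSolvable G] (φ : MulAut G), φ ^ n = 1 → {x : G | φ x = x}.ncard ≤ m →
    nresN h (⊤ : Subgroup G) = ⊥ := by
  obtain ⟨α, c, h⟩ := thmM n hn
  refine ⟨bnd α c 0 (m * n), fun G _ _ _ φ h1 h2 => ?_⟩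
  let X := G ⋊[(Subgroup.zpowers φ).subtype] Subgroup.zpowers φ
  have : Finite X := Finite.of_equiv _ SemidirectProduct.equivProd.symm
  have : Group.IsSolvable X := Group.isSolvable_of_ker_le_range SemidirectProduct.inl
    SemidirectProduct.rightHom SemidirectProduct.range_inl_eq_ker_rightHom.ge
  let g : X := SemidirectProduct.inr ⟨φ, Subgroup.mem_zpowers φ⟩
  have h3 : g ^ n = 1 := by
    rw [← map_pow, show (⟨φ, Subgroup.mem_zpowers φ⟩ : Subgroup.zpowers φ) ^ n = 1 from
      Subtype.ext h1, map_one]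
  have h4 : Nat.card (Subgroup.centralizer ({g} : Set X)) ≤ m * n := by
    let f : Subgroup.centralizer ({g} : Set X) → {x : G | φ x = x} × Subgroup.zpowers φ :=
      fun x => (⟨x.1.left, by
        have e : 1 * φ x.1.left = x.1.left * x.1.right.1 1 :=
          congrArg SemidirectProduct.left (x.2 g rfl)
        rwa [one_mul, map_one, mul_one] at e⟩, x.1.right)
    have hf : Function.Injective f := fun x y e => Subtype.ext (SemidirectProduct.ext
      (congrArg (fun z => z.1.1) e) (congrArg Prod.snd e))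
    refine (Nat.card_le_card_of_injective f hf).trans ?_
    rw [Nat.card_prod, Nat.card_zpowers]
    exact Nat.mul_le_mul h2 (orderOf_le_of_pow_eq_one hn h1)
  have h5 : Star g (m * n) := fun A B _ _ _ _ _ => (ncard_fixS_le A B g).trans
    (Nat.mul_le_mul_right _ (((Subgroup.card_le_of_le inf_le_right).trans h4).trans
      Nat.lt_two_pow_self.le))
  have h6 := h X g (m * n) h5 ⊤ ⊥ (h3 ▸ one_mem _) (Subgroup.normalizer_eq_top ⊥).ge
  rw [← Subgroup.map_eq_bot_iff_of_injective (f := (SemidirectProduct.inl : G →* X)) _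
    SemidirectProduct.inl_injective, map_nresN, eq_bot_iff]
  exact (nresN_mono _ le_top).trans h6

theorem series_of_nresN {G : Type} [Group G] [Finite G] {h : ℕ}
    (hh : nresN h (⊤ : Subgroup G) = ⊥) : ∃ H : Fin (h + 1) → Subgroup G,
      H 0 = ⊥ ∧ H (Fin.last h) = ⊤ ∧ (∀ i, (H i).Normal) ∧
      ∀ i : Fin h, H (Fin.castSucc i) ≤ H (Fin.succ i) ∧
        ∃ c : ℕ, (fun L : Subgroup G => ⁅L, H (Fin.succ i)⁆)^[c] (H (Fin.succ i))
          ≤ H (Fin.castSucc i) := by
  refine ⟨fun i => nresN (h - i) ⊤, hh, ?_, fun i => inferInstance, fun i => ?_⟩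
  · simp [nresN]
  · have e : h - (Fin.castSucc i : ℕ) = h - (Fin.succ i : ℕ) + 1 := by
      have := i.2
      simp only [Fin.val_castSucc, Fin.val_succ]
      omega
    simp only [e, nresN_succ]
    generalize nresN (h - (Fin.succ i : ℕ)) (⊤ : Subgroup G) = K
    obtain ⟨c, hc⟩ := exists_lcs_eq_nres K
    refine ⟨nres_le K, c, le_of_eq (Eq.trans ?_ hc)⟩
    clear hc
    induction c with
    | zero => rfl
    | succ c ih => rw [Function.iterate_succ_apply', ih, Subgroup.lowerCentralSeries_succ]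

end Pool.Agent.P.MP_618680_al.FH
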