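import Pool.Agent.P.MP_618680_al.FH.Sec

/-! Growth of the number of fixed points along a normal series. -/

set_option autoImplicit false

namespace Pool.Agent.P.MP_618680_al.FH

open scoped commutatorElement
open Module

variable {X : Type} [Group X]


/-- Counting by fibres. -/
theorem grow_fib {α β γ : Type} [Finite α] [Finite β] [Finite γ] (S : Set α) (T : Set β)
    (U : Set γ) (f : α → β) (hf : ∀ a ∈ S, f a ∈ T) (u : α → α → γ)
    (hu : ∀ a ∈ S, ∀ a' ∈ S, f a' = f a → u a a' ∈ U)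
    (hi : ∀ a ∈ S, ∀ a' ∈ S, ∀ a'' ∈ S, f a' = f a → f a'' = f a → u a a' = u a a'' → a' = a'') :
    S.ncard ≤ U.ncard * T.ncard := by
  classical
  rw [Set.ncard_eq_toFinset_card S, Set.ncard_eq_toFinset_card T]
  refine Finset.card_le_mul_card_image_of_maps_to (f := f) (fun a ha => ?_) _ fun b _ => ?_
  · simpa using hf a (by simpa using ha)
  · rcases Finset.eq_empty_or_nonempty
      ((Set.toFinite S).toFinset.filter fun a => f a = b) with h | ⟨a, ha⟩
    · rw [h]; simp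
    · rw [← Set.ncard_coe_finset]
      simp only [Finset.mem_filter, Set.Finite.mem_toFinset] at ha
      refine Set.ncard_le_ncard_of_injOn (u a) (fun a' ha' => ?_) fun a' ha' a'' ha'' e => ?_
      · simp only [Finset.coe_filter, Set.Finite.mem_toFinset, Set.mem_ofPred_eq] at ha'
        exact hu a ha.1 a' ha'.1 (ha'.2.trans ha.2.symm)
      · simp only [Finset.coe_filter, Set.Finite.mem_toFinset, Set.mem_ofPred_eq] at ha' ha''
        exact hi a ha.1 a' ha'.1 a'' ha''.1 (ha'.2.trans ha.2.symm) (ha''.2.trans ha.2.symm) e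

theorem grow_card (H : Subgroup X) : (H : Set X).ncard = Nat.card H := rfl

/-- The norm map to an abelian quotient. -/
theorem grow_norm {g : X} {n : ℕ} (hg : g ^ n = 1) (B1 B0 : Subgroup X)
    (hg1 : g ∈ Subgroup.normalizer (B1 : Set X)) (hg0 : g ∈ Subgroup.normalizer (B0 : Set X))
    {M : Type} [CommGroup M] (π : B0 →* M) (hπ : ∀ b : B0, π b = 1 ↔ (b : X) ∈ B1) :
    ∃ ν : B0 →* M, (∀ b : B0, (b : X) ∈ B1 → ν b = 1) ∧
      (∀ (a : X) (b : B0), (b : X) = ⁅a, g⁆ → ν b = 1) ∧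
      ∀ b : B0, Commute g b → ν b = π (b ^ n) := by
  let φ : ℕ → B0 →* B0 := fun i =>
    (B0.normalizerMonoidHom ⟨g ^ i, pow_mem hg0 i⟩).toMonoidHom
  have hφ : ∀ i (b : B0), (φ i b : X) = g ^ i * b * (g ^ i)⁻¹ := fun _ _ => rfl
  refine ⟨∏ i ∈ Finset.range n, π.comp (φ i), fun b hb => ?_, fun a b hb => ?_, fun b hb => ?_⟩
  · rw [MonoidHom.finsetProd_apply]
    refine Finset.prod_eq_one fun i _ => (hπ _).mpr ?_
    rw [hφ]
    exact (Subgroup.mem_normalizer_iff.mp (pow_mem hg1 i) _).mp hb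
  · have key : ∀ k : ℕ, ∃ e : B0, (e : X) = ⁅a, g ^ k⁆ ∧
        ∏ i ∈ Finset.range k, π (φ i b) = π e := by
      intro k
      induction k with
      | zero => exact ⟨1, by simp, by simp⟩
      | succ k ih =>
        obtain ⟨e, he, he'⟩ := ih
        refine ⟨e * φ k b, ?_, by rw [Finset.prod_range_succ, he', map_mul]⟩
        rw [Subgroup.coe_mul, he, hφ, hb, pow_succ]
        simp only [commutatorElement_def]
        group
    obtain ⟨e, he, he'⟩ := key n
    rw [MonoidHom.finsetProd_apply]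
    have : e = 1 := Subtype.ext (by rw [he, hg]; simp)
    rw [this, map_one] at he'
    exact he'
  · rw [MonoidHom.finsetProd_apply, map_pow]
    refine (Finset.prod_congr rfl fun i _ => ?_).trans
      ((Finset.prod_const (π b)).trans (by rw [Finset.card_range]))
    refine congrArg π (Subtype.ext ?_)
    rw [hφ, (hb.pow_left i).eq, mul_inv_cancel_right]

/-- One abelian layer. -/
theorem grow_step [Finite X] {g : X} {n : ℕ} (hn : 0 < n) (hg : g ^ n = 1) (D A B1 B0 : Subgroup X)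
    (hD : D ≤ Subgroup.centralizer ({g} : Set X)) (h10 : B1 ≤ B0) (hc : ⁅B0, B0⁆ ≤ B1)
    (hA1 : A ≤ Subgroup.normalizer (B1 : Set X)) (hg1 : g ∈ Subgroup.normalizer (B1 : Set X))
    (hg0 : g ∈ Subgroup.normalizer (B0 : Set X)) {c : ℕ}
    (h : {d : X | d ∈ D ⊓ B0 ∧ d ^ n ∈ B1}.ncard ≤ c * Nat.card (D ⊓ B1 : Subgroup X)) :
    (fixS A B0 g).ncard * Nat.card (D ⊓ B0 : Subgroup X) * Nat.card B1 ≤
      c * ((fixS A B1 g).ncard * Nat.card (D ⊓ B1 : Subgroup X) * Nat.card B0) := by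
  have hN : (B1.subgroupOf B0).Normal := ⟨fun b hb x => by
    rw [Subgroup.mem_subgroupOf] at hb ⊢
    have := B1.mul_mem (hc (Subgroup.commutator_mem_commutator x.2 b.2)) hb
    simpa [commutatorElement_def] using this⟩
  have hπ : ∀ b : B0, QuotientGroup.mk' (B1.subgroupOf B0) b = 1 ↔ (b : X) ∈ B1 := fun b => by
    rw [QuotientGroup.mk'_apply, QuotientGroup.eq_one_iff, Subgroup.mem_subgroupOf]
  have hM : ∀ x y : B0 ⧸ B1.subgroupOf B0, x * y = y * x := by
    intro x y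
    obtain ⟨x, rfl⟩ := QuotientGroup.mk'_surjective _ x
    obtain ⟨y, rfl⟩ := QuotientGroup.mk'_surjective _ y
    rw [← commutatorElement_eq_one_iff_mul_comm, ← map_commutatorElement, hπ]
    exact hc (Subgroup.commutator_mem_commutator x.2 y.2)
  letI : CommGroup (B0 ⧸ B1.subgroupOf B0) :=
    { (inferInstance : Group (B0 ⧸ B1.subgroupOf B0)) with mul_comm := hM }
  obtain ⟨ν, h1, h2, h3⟩ := grow_norm hg B1 B0 hg1 hg0 (QuotientGroup.mk' (B1.subgroupOf B0)) hπ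
  have e1 : Nat.card ν.ker * Nat.card ν.range = Nat.card B0 := by
    rw [← Subgroup.index_ker, Subgroup.card_mul_index]
  have e2 : (fixS A B0 g).ncard * Nat.card B1 ≤ (fixS A B1 g).ncard * Nat.card ν.ker := by
    rw [← grow_card B1, ← Set.ncard_prod, ← Subgroup.card_map_of_injective (K := ν.ker)
      B0.subtype_injective, ← grow_card]
    refine grow_fib _ _ _ (fun x => x.2 * ⁅x.1, g⁆) ?_ (fun x y => x.1⁻¹ * y.1) ?_ ?_
    · rintro ⟨a, b⟩ ⟨ha, hb⟩
      refine ⟨⟨b, h10 hb⟩ * ⟨⁅a, g⁆, ha.2⟩, ?_, rfl⟩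
      rw [SetLike.mem_coe, MonoidHom.mem_ker, map_mul, h1 _ hb, h2 a _ rfl, one_mul]
    · rintro ⟨a, b⟩ ⟨ha, hb⟩ ⟨a', b'⟩ ⟨ha', hb'⟩ e
      refine ⟨A.mul_mem (A.inv_mem ha.1) ha'.1, ?_⟩
      have e' : ⁅a', g⁆ = b'⁻¹ * (b * ⁅a, g⁆) := eq_inv_mul_of_mul_eq e
      have : ⁅a⁻¹ * a', g⁆ = a⁻¹ * (⁅a', g⁆ * ⁅a, g⁆⁻¹) * a := by
        simp only [commutatorElement_def]; group
      rw [this, e', ← mul_assoc b'⁻¹, mul_inv_cancel_right]
      exact (Subgroup.mem_normalizer_iff''.mp (hA1 ha.1) _).mp (B1.mul_mem (B1.inv_mem hb') hb)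
    · rintro ⟨a, b⟩ - ⟨a', b'⟩ - ⟨a'', b''⟩ - e e' e''
      obtain rfl : a' = a'' := mul_left_cancel e''
      exact Prod.ext rfl (mul_right_cancel (e.trans e'.symm))
  have e3 : Nat.card (D ⊓ B0 : Subgroup X) ≤
      {d : X | d ∈ D ⊓ B0 ∧ d ^ n ∈ B1}.ncard * Nat.card ν.range := by
    rw [← Nat.card_congr
      (Subgroup.subgroupOfEquivOfLe (inf_le_right : D ⊓ B0 ≤ B0)).toEquiv, ← grow_card,
      ← grow_card]
    refine grow_fib _ _ _ ν (fun a _ => ⟨a, rfl⟩) (fun x y => (x⁻¹ * y : B0)) ?_ ?_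
    · intro a ha a' ha' e
      have hm : ((a⁻¹ * a' : B0) : X) ∈ D ⊓ B0 :=
        (D ⊓ B0).mul_mem ((D ⊓ B0).inv_mem ha) ha'
      refine ⟨hm, ?_⟩
      have := h3 (a⁻¹ * a') (Subgroup.mem_centralizer_iff.mp (hD hm.1) g rfl)
      rw [map_mul, map_inv, e, inv_mul_cancel] at this
      exact (hπ _).mp this.symm
    · intro a _ a' _ a'' _ _ _ e
      exact mul_left_cancel (Subtype.ext e)
  calc _ = (fixS A B0 g).ncard * Nat.card B1 * Nat.card (D ⊓ B0 : Subgroup X) := by ring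
    _ ≤ (fixS A B1 g).ncard * Nat.card ν.ker *
        (c * Nat.card (D ⊓ B1 : Subgroup X) * Nat.card ν.range) :=
      Nat.mul_le_mul e2 (e3.trans (Nat.mul_le_mul_right _ h))
    _ = _ := by rw [← e1]; ring

theorem grow_inf {x : X} {B : Subgroup X} (L : Subgroup X) [hL : L.Normal]
    (h : x ∈ Subgroup.normalizer (B : Set X)) :
    x ∈ Subgroup.normalizer ((B ⊓ L : Subgroup X) : Set X) :=
  Subgroup.mem_normalizer_iff.mpr fun y => by
    rw [Subgroup.mem_inf, Subgroup.mem_inf, ← Subgroup.mem_normalizer_iff.mp h y,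
      ← Subgroup.mem_normalizer_iff.mp (Subgroup.le_normalizer_of_normal (Subgroup.mem_top x)) y]

theorem grow_layer [Finite X] {g : X} {n : ℕ} (hn : 0 < n) (hg : g ^ n = 1) (D A B L1 L0 : Subgroup X)
    [L1.Normal] (hD : D ≤ Subgroup.centralizer ({g} : Set X)) (hL : ⁅L0, L0⁆ ≤ L1) (hBL : B ≤ L0)
    (hA : A ≤ Subgroup.normalizer (B : Set X)) (hgB : g ∈ Subgroup.normalizer (B : Set X))
    {c m : ℕ} (h : {d : X | d ∈ D ⊓ B ∧ d ^ n ∈ B ⊓ L1}.ncard ≤
      c * Nat.card (D ⊓ (B ⊓ L1) : Subgroup X))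
    (ih : (fixS A (B ⊓ L1) g).ncard * Nat.card (D ⊓ (B ⊓ L1) : Subgroup X) ≤
      m * Nat.card (B ⊓ L1 : Subgroup X)) :
    (fixS A B g).ncard * Nat.card (D ⊓ B : Subgroup X) ≤ c * m * Nat.card B := by
  have := grow_step hn hg D A (B ⊓ L1) B hD inf_le_left
    (le_inf B.commutator_le_self ((Subgroup.commutator_mono hBL hBL).trans hL))
    (fun a ha => grow_inf L1 (hA ha)) (grow_inf L1 hgB) hgB h
  refine Nat.le_of_mul_le_mul_right (this.trans ?_) (Nat.card_pos (α := (B ⊓ L1 : Subgroup X)))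
  calc _ ≤ c * (m * Nat.card (B ⊓ L1 : Subgroup X) * Nat.card B) :=
        Nat.mul_le_mul_left _ (Nat.mul_le_mul_right _ ih)
    _ = _ := by ring

/-- A whole chain. -/
theorem grow_chain [Finite X] {g : X} {n : ℕ} (hn : 0 < n) (hg : g ^ n = 1) (D : Subgroup X)
    (hD : D ≤ Subgroup.centralizer ({g} : Set X)) {I c : ℕ} (hc0 : 0 < c)
    (hI : D.relIndex (Subgroup.centralizer ({g} : Set X)) ≤ I)
    (hc : ∀ B1 B0 : Subgroup X,
      {d : X | d ∈ D ⊓ B0 ∧ d ^ n ∈ B1}.ncard ≤ c * Nat.card (D ⊓ B1 : Subgroup X))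
    {L : Subgroup X} {b : ℕ} (hL : Chain n L b) (A B : Subgroup X) (hBL : B ≤ L)
    (hA : A ≤ Subgroup.normalizer (B : Set X)) (hgB : g ∈ Subgroup.normalizer (B : Set X)) :
    (fixS A B g).ncard * Nat.card (D ⊓ B : Subgroup X) ≤
      I * c ^ b * Nat.card (D ⊓ A : Subgroup X) * Nat.card B := by
  induction hL generalizing B with
  | bot =>
    obtain rfl : B = ⊥ := le_bot_iff.mp hBL
    have e : fixS A ⊥ g = (A ⊓ Subgroup.centralizer ({g} : Set X) : Subgroup X) := by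
      ext a
      simp only [fixS, Set.mem_ofPred_eq, Subgroup.mem_bot, commutatorElement_eq_one_iff_mul_comm,
        SetLike.mem_coe, Subgroup.mem_inf, Subgroup.mem_centralizer_singleton_iff]
    rw [e, grow_card, inf_bot_eq, Subgroup.card_bot, pow_zero, mul_one, mul_one, mul_one,
      ← Subgroup.card_mul_index (D.subgroupOf (A ⊓ Subgroup.centralizer ({g} : Set X))), mul_comm]
    refine Nat.mul_le_mul ?_ (le_of_eq ?_)
    · exact (Subgroup.relIndex_le_of_le_right inf_le_right Subgroup.index_ne_zero_of_finite).trans hI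
    · rw [← Subgroup.inf_subgroupOf_right,
        Nat.card_congr (Subgroup.subgroupOfEquivOfLe inf_le_right).toEquiv, ← inf_assoc,
        inf_eq_left.mpr (inf_le_left.trans hD)]
  | mono _ hb ih =>
    refine (ih B hBL hA hgB).trans ?_
    gcongr
  | @bad L1 L0 b h1 _ _ h2 ih =>
    haveI := h1.normal
    refine (grow_layer hn hg D A B L1 L0 hD h2 hBL hA hgB (hc _ _)
      (ih (B ⊓ L1) inf_le_right (fun a ha => grow_inf L1 (hA ha)) (grow_inf L1 hgB))).trans
      (le_of_eq (by ring))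
  | @good L1 L0 b h1 _ _ h2 h3 ih =>
    haveI := h1.normal
    refine (grow_layer (c := 1) hn hg D A B L1 L0 hD h2 hBL hA hgB ?_
      (ih (B ⊓ L1) inf_le_right (fun a ha => grow_inf L1 (hA ha)) (grow_inf L1 hgB))).trans
      (le_of_eq (by ring))
    rw [one_mul, ← grow_card]
    exact Set.ncard_le_ncard fun d hd => ⟨hd.1.1, hd.1.2, h3 d (hBL hd.1.2) hd.2.2⟩

/-- Counting the fibres of the power map of an abelian group. -/
theorem pow_count [Finite X] (D : Subgroup X) (hD : ∀ x ∈ D, ∀ y ∈ D, x * y = y * x) {q c : ℕ}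
    (h : (tor D q).ncard ≤ c) (B1 B0 : Subgroup X) :
    {d : X | d ∈ D ⊓ B0 ∧ d ^ q ∈ B1}.ncard ≤ c * Nat.card (D ⊓ B1 : Subgroup X) := by
  refine le_trans ?_ (Nat.mul_le_mul_right _ h)
  rw [← grow_card]
  refine grow_fib _ _ _ (fun d => d ^ q) (fun d hd => ⟨D.pow_mem hd.1.1 q, hd.2⟩)
    (fun x y => x⁻¹ * y) (fun a ha a' ha' e => ?_) fun _ _ _ _ _ _ _ _ e => mul_left_cancel e
  refine ⟨D.mul_mem (D.inv_mem ha.1.1) ha'.1.1, ?_⟩
  have hc : Commute a⁻¹ a' := hD _ (D.inv_mem ha.1.1) _ ha'.1.1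
  rw [hc.mul_pow, inv_pow, show a' ^ q = a ^ q from e, inv_mul_cancel]

/-- The resulting bound in a section of exponent dividing `q`. -/
theorem fixS_le_of_chain [Finite X] {g : X} {n : ℕ} (hn : 0 < n) (hg : g ^ n = 1) (D : Subgroup X)
    (hD : D ≤ Subgroup.centralizer ({g} : Set X)) (hDc : ∀ x ∈ D, ∀ y ∈ D, x * y = y * x)
    {I c b q : ℕ} (hI : D.relIndex (Subgroup.centralizer ({g} : Set X)) ≤ I)
    (hc : (tor D n).ncard ≤ c) (hq : (tor D q).ncard ≤ c) (hL : Chain n (⊤ : Subgroup X) b)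
    (A B : Subgroup X) (hA : A ≤ Subgroup.normalizer (B : Set X))
    (hgB : g ∈ Subgroup.normalizer (B : Set X)) (hAB : ∀ a ∈ A, a ^ q ∈ B) :
    (fixS A B g).ncard ≤ I * c ^ (b + 1) * Nat.card B := by
  have hc0 : 0 < c := lt_of_lt_of_le
    ((Set.ncard_pos (Set.toFinite (tor D n))).mpr ⟨1, D.one_mem, one_pow n⟩) hc
  have h1 := grow_chain hn hg D hD hc0 hI (pow_count D hDc hc) hL A B le_top hA hgB
  have h2 := pow_count D hDc hq B A
  have e : {d : X | d ∈ D ⊓ A ∧ d ^ q ∈ B} = (D ⊓ A : Subgroup X) :=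
    Set.ext fun d => ⟨fun h => h.1, fun h => ⟨h, hAB d h.2⟩⟩
  rw [e, grow_card] at h2
  refine Nat.le_of_mul_le_mul_right (h1.trans ?_) (Nat.card_pos (α := (D ⊓ B : Subgroup X)))
  calc _ ≤ I * c ^ b * (c * Nat.card (D ⊓ B : Subgroup X)) * Nat.card B := by gcongr
    _ = _ := by ring

end Pool.Agent.P.MP_618680_al.FH
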