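import Pool.Agent.P.MP_618680_al.FH.Defs

/-! A system of imprimitivity with quasi-primitive blocks. -/

set_option autoImplicit false

namespace Pool.Agent.P.MP_618680_al.FH

open scoped commutatorElement
open Module

variable {k : Type} [Field k] {X : Type} [Group X] {W : Type} [AddCommGroup W] [Module k W]

theorem imp_finrank_map (ρ : Representation k X W) (x : X) (V : Submodule k W) :
    finrank k (V.map (ρ x)) = finrank k V :=
  (Submodule.equivMapOfInjective (ρ x) (ρ.apply_bijective x).1 V).finrank_eq.symm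

theorem imp_map_mul (ρ : Representation k X W) (x y : X) (V : Submodule k W) :
    V.map (ρ (x * y)) = (V.map (ρ y)).map (ρ x) := by
  rw [map_mul, Module.End.mul_eq_comp, Submodule.map_comp]

theorem imp_map_eq (ρ : Representation k X W) {X0 : Subgroup X} {V : Submodule k W}
    (h : ∀ x ∈ X0, ∀ v ∈ V, ρ x v ∈ V) {x : X} (hx : x ∈ X0) : V.map (ρ x) = V :=
  le_antisymm (Submodule.map_le_iff_le_comap.2 (h x hx)) fun v hv =>
    ⟨ρ x⁻¹ v, h _ (X0.inv_mem hx) v hv, by
      rw [← Module.End.mul_apply, ← map_mul, mul_inv_cancel, map_one, Module.End.one_apply]⟩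

theorem imp_sum_le [FiniteDimensional k W] {ι : Type} [Fintype ι] {U : ι → Submodule k W}
    (h : iSupIndep U) : ∑ i, finrank k (U i) ≤ finrank k W := by
  classical
  rw [← finrank_directSum]
  exact LinearMap.finrank_le_finrank_of_injective (f := DirectSum.coeLinearMap U)
    h.dfinsupp_lsum_injective

theorem imp_indep [FiniteDimensional k W] {ι : Type} [Fintype ι] {U : ι → Submodule k W}
    (h : ⨆ i, U i = ⊤) (h' : ∑ i, finrank k (U i) ≤ finrank k W) :
    iSupIndep U ∧ ∑ i, finrank k (U i) = finrank k W := by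
  classical
  have h1 : Function.Surjective (DirectSum.coeLinearMap U) :=
    LinearMap.range_eq_top.1 (DirectSum.range_coeLinearMap.trans h)
  have h2 := LinearMap.finrank_le_finrank_of_surjective h1
  rw [finrank_directSum] at h2
  have h3 := le_antisymm h' h2
  exact ⟨(iSupIndep_iff_dfinsupp_lsum_injective U).2
    ((LinearMap.injective_iff_surjective_of_finrank_eq_finrank
      ((finrank_directSum k _).trans h3)).2 h1), h3⟩

/-- The translates of a small invariant subspace form a system of imprimitivity. -/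
theorem imp_blocks [Finite X] [FiniteDimensional k W] {ρ : Representation k X W} (hρ : Irr ρ)
    {X0 : Subgroup X} {V : Submodule k W} (h0 : V ≠ ⊥) (h : ∀ x ∈ X0, ∀ v ∈ V, ρ x v ∈ V)
    (hd : X0.index * finrank k V ≤ finrank k W) :
    ∃ U : X ⧸ X0 → Submodule k W, Blocks ρ X0 U ∧ U ((1 : X) : X ⧸ X0) = V ∧
      X0.index * finrank k V = finrank k W := by
  have := Fintype.ofFinite (X ⧸ X0)
  obtain ⟨U, hU⟩ : ∃ U : X ⧸ X0 → Submodule k W, ∀ x : X, U x = V.map (ρ x) := by
    refine ⟨fun ω => V.map (ρ ω.out), fun x => ?_⟩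
    obtain ⟨y, hy⟩ := QuotientGroup.mk_out_eq_mul X0 x
    simp only [hy, imp_map_mul, imp_map_eq ρ h y.2]
  have h1 : ∀ ω, finrank k (U ω) = finrank k V := fun ω => by
    induction ω using QuotientGroup.induction_on with
    | H x => rw [hU, imp_finrank_map]
  have h2 : ∀ (x : X) (ω : X ⧸ X0), (U ω).map (ρ x) = U (x • ω) := fun x ω => by
    induction ω using QuotientGroup.induction_on with
    | H y => rw [MulAction.Quotient.smul_coe, hU, hU, smul_eq_mul, imp_map_mul]
  have h3 : U ((1 : X) : X ⧸ X0) = V := by rw [hU, imp_map_eq ρ h X0.one_mem]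
  have h4 : ⨆ ω, U ω = ⊤ := by
    refine (hρ.2 _ fun x v hv => ?_).resolve_left fun e => h0 (le_bot_iff.1 ?_)
    · have h5 : (⨆ ω, U ω).map (ρ x) ≤ ⨆ ω, U ω := by
        rw [Submodule.map_iSup]
        exact iSup_le fun ω => (h2 x ω).trans_le (le_iSup U _)
      exact h5 (Submodule.mem_map_of_mem hv)
    · rw [← e, ← h3]
      exact le_iSup U _
  have h5 : ∑ ω, finrank k (U ω) = X0.index * finrank k V := by
    simp only [h1, Finset.sum_const, smul_eq_mul, Finset.card_univ, Subgroup.index,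
      Nat.card_eq_fintype_card]
  obtain ⟨h6, h7⟩ := imp_indep h4 (h5.trans_le hd)
  refine ⟨U, ⟨h2, h6, h4, fun ω e => h0 ?_⟩, h3, h5.symm.trans h7⟩
  rw [← Submodule.finrank_eq_zero, ← h1 ω, e, finrank_bot]

/-- A commuting family has a common eigenvector. -/
theorem imp_eigen [IsAlgClosed k] [FiniteDimensional k W] [Nontrivial W] {ι : Type}
    (f : ι → Module.End k W) (hc : ∀ i j, Commute (f i) (f j)) :
    ∃ χ : ι → k, ⨅ i, (f i).eigenspace (χ i) ≠ ⊥ := by
  obtain ⟨V, ⟨h0, hV⟩, hmin⟩ := exists_minimalFor_of_wellFoundedLT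
    (fun V : Submodule k W => V ≠ ⊥ ∧ ∀ i, ∀ v ∈ V, f i v ∈ V) id ⟨⊤, top_ne_bot, fun _ _ _ => trivial⟩
  have h1 : ∀ i, ∃ c, V ≤ (f i).eigenspace c := fun i => by
    have := Submodule.nontrivial_iff_ne_bot.2 h0
    obtain ⟨c, hc'⟩ := Module.End.exists_eigenvalue ((f i).restrict (hV i))
    obtain ⟨v, hv, hv0⟩ := hc'.exists_hasEigenvector
    have h2 : v.1 ∈ (f i).eigenspace c :=
      Module.End.mem_eigenspace_iff.2 (congrArg Subtype.val (Module.End.mem_eigenspace_iff.1 hv))
    refine ⟨c, le_trans (hmin (j := V ⊓ (f i).eigenspace c) ⟨?_, fun j w hw => ⟨hV j w hw.1, ?_⟩⟩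
      inf_le_left) inf_le_right⟩
    · exact (Submodule.ne_bot_iff _).2 ⟨v.1, ⟨v.2, h2⟩, fun e => hv0 (Subtype.ext e)⟩
    · refine Module.End.mem_eigenspace_iff.2 ?_
      rw [← Module.End.mul_apply, (hc i j).eq, Module.End.mul_apply,
        Module.End.mem_eigenspace_iff.1 hw.2, map_smul]
  choose χ hχ using h1
  exact ⟨χ, fun e => h0 (le_bot_iff.1 (e ▸ le_iInf hχ))⟩

theorem imp_qprim [IsAlgClosed k] [Finite X] [FiniteDimensional k W] [Nontrivial W]
    {ρ : Representation k X W} (hM : ∀ (X1 : Subgroup X) (V : Submodule k W), V ≠ ⊥ →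
      (∀ x ∈ X1, ∀ v ∈ V, ρ x v ∈ V) → X1.index * finrank k V ≤ finrank k W → V = ⊤) :
    QPrim ρ := by
  refine ⟨⟨inferInstance, fun V hV => or_iff_not_imp_left.2 fun h0 => hM ⊤ V h0
    (fun x _ => hV x) ?_⟩, fun A hA hc => ?_⟩
  · rw [Subgroup.index_top, one_mul]
    exact V.finrank_le
  have h1 : ∀ a b : A, Commute (ρ a.1) (ρ b.1) := fun a b => by
    have h2 : ρ ⁅a.1, b.1⁆ = 1 := hc (Subgroup.commutator_mem_commutator a.2 b.2)
    have h3 : a.1 * b.1 = ⁅a.1, b.1⁆ * (b.1 * a.1) := by rw [commutatorElement_def]; group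
    rw [Commute, SemiconjBy, ← map_mul, h3, map_mul, h2, one_mul, map_mul]
  obtain ⟨χ, hχ⟩ := imp_eigen (fun a : A => ρ a.1) h1
  let E : (A → k) → Submodule k W := fun ψ => ⨅ a : A, Module.End.eigenspace (ρ a.1) (ψ a)
  have hE : iSupIndep E :=
    (Module.End.independent_iInf_maxGenEigenspace_of_forall_mapsTo (fun a : A => ρ a.1)
      fun a b c => Module.End.mapsTo_maxGenEigenspace_of_comm (h1 b a) c).mono
      fun ψ => iInf_mono fun a => Module.End.eigenspace_le_maxGenEigenspace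
  have h2 : ∀ x : X, (E χ).map (ρ x) ≤ E fun a => χ (MulAut.conjNormal x⁻¹ a) := fun x => by
    rintro _ ⟨v, hv, rfl⟩
    refine (Submodule.mem_iInf _).2 fun a => Module.End.mem_eigenspace_iff.2 ?_
    have h3 := Module.End.mem_eigenspace_iff.1
      ((Submodule.mem_iInf _).1 hv (MulAut.conjNormal x⁻¹ a))
    rw [← map_smul, ← h3, ← Module.End.mul_apply, ← Module.End.mul_apply, ← map_mul, ← map_mul,
      MulAut.conjNormal_apply, inv_inv, ← mul_assoc, mul_inv_cancel_left]
  let X1 : Subgroup X :=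
    { carrier := {x | ∀ a : A, χ (MulAut.conjNormal x⁻¹ a) = χ a}
      one_mem' := fun a => by rw [inv_one, map_one, MulAut.one_apply]
      mul_mem' := fun {x y} hx hy a => by
        rw [mul_inv_rev, map_mul, MulAut.mul_apply, hy, hx]
      inv_mem' := fun {x} hx a => by
        rw [← hx, ← MulAut.mul_apply, ← map_mul, mul_inv_cancel, map_one, MulAut.one_apply] }
  have := Fintype.ofFinite (X ⧸ X1)
  have h3 : Function.Injective fun (ω : X ⧸ X1) (a : A) => χ (MulAut.conjNormal ω.out⁻¹ a) := by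
    intro ω ω' e
    rw [← ω.out_eq, ← ω'.out_eq]
    refine QuotientGroup.eq.2 fun a => ?_
    have h4 := congrFun e (MulAut.conjNormal ω.out a)
    dsimp only at h4
    rw [mul_inv_rev, inv_inv, map_mul, MulAut.mul_apply, ← h4, ← MulAut.mul_apply, ← map_mul,
      inv_mul_cancel, map_one, MulAut.one_apply]
  have h4 : E χ = ⊤ := by
    refine hM X1 _ hχ (fun x hx v hv => ?_) (le_trans ?_ (imp_sum_le (hE.comp h3)))
    · have h5 := h2 x (Submodule.mem_map_of_mem hv)
      rwa [show (fun a => χ (MulAut.conjNormal x⁻¹ a)) = χ from funext hx] at h5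
    · rw [Subgroup.index, Nat.card_eq_fintype_card, ← Finset.card_univ, ← smul_eq_mul]
      exact Finset.card_nsmul_le_sum _ _ _ fun ω _ =>
        (imp_finrank_map ρ ω.out _).symm.trans_le (Submodule.finrank_mono (h2 ω.out))
  intro a ha
  have h5 : ∀ v, ρ a v = χ ⟨a, ha⟩ • v := fun v => Module.End.mem_eigenspace_iff.1
    ((Submodule.mem_iInf _).1 (h4 ▸ Submodule.mem_top : v ∈ E χ) ⟨a, ha⟩)
  obtain ⟨v, hv⟩ := exists_ne (0 : W)
  refine ⟨Units.mk0 (χ ⟨a, ha⟩) fun e => hv ((ρ.apply_bijective a).1 ?_), h5⟩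
  rw [h5, e, zero_smul, map_zero]

theorem exists_blocks [IsAlgClosed k] [Finite X] [FiniteDimensional k W]
    (ρ : Representation k X W) (hρ : Irr ρ) :
    ∃ (X0 : Subgroup X) (U : X ⧸ X0 → Submodule k W) (hB : Blocks ρ X0 U),
      X0.index * finrank k (U ((1 : X) : X ⧸ X0)) = finrank k W ∧ QPrim hB.base := by
  have := hρ.1
  obtain ⟨⟨X0, V⟩, ⟨h0, h, hd⟩, hmin⟩ := exists_minimalFor_of_wellFoundedLT
    (fun p : Subgroup X × Submodule k W => p.2 ≠ ⊥ ∧ (∀ x ∈ p.1, ∀ v ∈ p.2, ρ x v ∈ p.2) ∧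
      p.1.index * finrank k p.2 ≤ finrank k W) (fun p => finrank k p.2)
    ⟨(⊤, ⊤), top_ne_bot, fun _ _ _ _ => trivial, by simp⟩
  have hmin' : ∀ (X1 : Subgroup X) (V1 : Submodule k W), V1 ≠ ⊥ → (∀ x ∈ X1, ∀ v ∈ V1, ρ x v ∈ V1) →
      X1.index * finrank k V1 ≤ finrank k W → finrank k V ≤ finrank k V1 := fun X1 V1 a b c =>
    (le_total _ _).elim id (hmin (j := (X1, V1)) ⟨a, b, c⟩)
  clear hmin
  dsimp only at h0 h hd
  obtain ⟨U, hB, rfl, h1⟩ := imp_blocks hρ h0 h hd
  refine ⟨X0, U, hB, h1, ?_⟩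
  have := Submodule.nontrivial_iff_ne_bot.2 h0
  refine imp_qprim fun X1 V hV hi hle => Submodule.eq_top_of_finrank_eq (le_antisymm V.finrank_le ?_)
  refine (hmin' (X1.map X0.subtype) (V.map (Submodule.subtype _)) ?_ ?_ ?_).trans_eq
    (Submodule.finrank_map_subtype_eq _ _)
  · exact fun e => hV (Submodule.map_injective_of_injective (Submodule.injective_subtype _)
      (e.trans (Submodule.map_bot _).symm))
  · rintro _ ⟨x, hx, rfl⟩ _ ⟨v, hv, rfl⟩
    exact ⟨_, hi x hx v hv, rfl⟩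
  · rw [Submodule.finrank_map_subtype_eq, Subgroup.index_map_subtype, mul_comm X1.index, mul_assoc]
    exact (Nat.mul_le_mul_left _ hle).trans hd

end Pool.Agent.P.MP_618680_al.FH
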