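import Pool.Agent.P.MP_618680_al.FH.Res

/-! A subgroup trivial on all composition factors has trivial residual. -/

set_option autoImplicit false

namespace Pool.Agent.P.MP_618680_al.FH

open scoped commutatorElement
open Module

variable {X : Type} [Group X]

section Unip

variable {R : Type} [CommRing R] {W W' : Type} [AddCommGroup W] [Module R W] [AddCommGroup W']
  [Module R W'] (ρ : Representation R X W) (ρ' : Representation R X W') (L : Subgroup X)

/-- vectors that `L` fixes modulo `U` -/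
def kal_S (U : Submodule R W) : Submodule R W := ⨅ l : L, U.comap (ρ l - 1)

theorem kal_mem {U : Submodule R W} {v : W} : v ∈ kal_S ρ L U ↔ ∀ l ∈ L, ρ l v - v ∈ U := by
  simp [kal_S]

theorem kal_mono : Monotone (kal_S ρ L) := fun _ _ h =>
  iInf_mono fun _ => Submodule.comap_mono h

theorem kal_comap (f : W →ₗ[R] W') (hf : ∀ x v, f (ρ x v) = ρ' x (f v)) (U : Submodule R W')
    (c : ℕ) : ((kal_S ρ' L)^[c] U).comap f = (kal_S ρ L)^[c] (U.comap f) := by
  induction c with
  | zero => rfl
  | succ c ih =>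
    ext v
    rw [Function.iterate_succ_apply', Function.iterate_succ_apply', ← ih, Submodule.mem_comap,
      kal_mem, kal_mem]
    simp only [Submodule.mem_comap, map_sub, hf]

/-- `L` acts unitriangularly -/
def kal_Unip : Prop := ∃ c, (kal_S ρ L)^[c] ⊥ = ⊤

theorem kal_of_ker (h : L ≤ ρ.ker) : kal_Unip ρ L :=
  ⟨1, eq_top_iff.2 fun v _ => (kal_mem ρ L).2 fun l hl => by
    rw [MonoidHom.mem_ker.1 (h hl), Module.End.one_apply, sub_self]
    exact zero_mem _⟩

theorem kal_ext {U : Submodule R W} (hU : ∀ x, U ≤ U.comap (ρ x))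
    (h1 : kal_Unip (ρ.subrepresentation U hU) L) (h2 : kal_Unip (ρ.quotient U hU) L) :
    kal_Unip ρ L := by
  obtain ⟨a, ha⟩ := h1
  obtain ⟨b, hb⟩ := h2
  have e1 := kal_comap (ρ.subrepresentation U hU) ρ L U.subtype (fun _ _ => rfl) ⊥ a
  have e2 := kal_comap ρ (ρ.quotient U hU) L U.mkQ (fun _ _ => rfl) ⊥ b
  rw [Submodule.comap_bot, Submodule.ker_subtype, ha, Submodule.comap_subtype_eq_top] at e1
  rw [Submodule.comap_bot, Submodule.ker_mkQ, hb, Submodule.comap_top] at e2
  refine ⟨b + a, eq_top_iff.2 (e2.le.trans ?_)⟩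
  rw [Function.iterate_add_apply]
  exact (kal_mono ρ L).iterate b e1

theorem kal_nres (h : kal_Unip ρ L) : nres L ≤ ρ.ker := by
  obtain ⟨c, hc⟩ := h
  have h0 : Monotone fun j => (kal_S ρ L)^[j] ⊥ := (kal_mono ρ L).monotone_iterate_of_le_map bot_le
  have h1 : ∀ x ∈ L, ∀ j, ∀ v ∈ (kal_S ρ L)^[j] ⊥, ρ x v - v ∈ (kal_S ρ L)^[j - 1] ⊥ := by
    rintro x hx (_ | j) v hv
    · rw [(Submodule.mem_bot R).1 hv, map_zero, sub_self]
      exact zero_mem _
    · rw [Function.iterate_succ_apply', kal_mem] at hv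
      exact hv x hx
  have h2 : (kal_S ρ L)^[0] ⊥ = ⊥ := rfl
  generalize hZ : (fun j => (kal_S ρ L)^[j] ⊥) = Z at h0
  simp only [show ∀ j, (kal_S ρ L)^[j] ⊥ = Z j from congrFun hZ] at hc h1 h2
  have h3 : ∀ x ∈ L, ∀ j, ∀ v ∈ Z j, ρ x v ∈ Z j := fun x hx j v hv => by
    simpa using add_mem (h0 (j.sub_le 1) (h1 x hx j v hv)) hv
  have h4 : ∀ x y v, ρ (x * y) v = ρ x (ρ y v) := fun x y v => by rw [map_mul]; rfl
  let G : ℕ → Subgroup X := fun i =>
    { carrier := {x | x ∈ L ∧ ∀ j, ∀ v ∈ Z j, ρ x v - v ∈ Z (j - (i + 1))}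
      one_mem' := ⟨L.one_mem, fun j v _ => by simp⟩
      mul_mem' {x y} hx hy := ⟨L.mul_mem hx.1 hy.1, fun j v hv => by
        simpa only [sub_add_sub_cancel, ← h4] using
          add_mem (hx.2 j _ (h3 y hy.1 j v hv)) (hy.2 j v hv)⟩
      inv_mem' {x} hx := ⟨L.inv_mem hx.1, fun j v hv => by
        simpa only [neg_sub, ← h4, mul_inv_cancel, map_one, Module.End.one_apply] using
          neg_mem (hx.2 j _ (h3 _ (L.inv_mem hx.1) j v hv))⟩ }
  have h5 : ∀ i, L.lowerCentralSeries i ≤ G i := fun i => by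
    induction i with
    | zero => exact fun x hx => ⟨hx, h1 x hx⟩
    | succ i ih =>
      refine Subgroup.commutator_le.2 fun a ha b hb => ?_
      obtain ⟨ha1, ha2⟩ := ih ha
      refine ⟨L.mul_mem (L.mul_mem (L.mul_mem ha1 hb) (L.inv_mem ha1)) (L.inv_mem hb),
        fun j v hv => ?_⟩
      have hw := h3 _ (L.inv_mem (L.mul_mem hb ha1)) j v hv
      have e1 : v = ρ b (ρ a (ρ (b * a)⁻¹ v)) := by
        rw [← h4, ← h4, mul_inv_cancel, map_one, Module.End.one_apply]
      have e2 : ρ ⁅a, b⁆ v = ρ a (ρ b (ρ (b * a)⁻¹ v)) := by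
        rw [← h4, ← h4, mul_inv_rev, ← mul_assoc, commutatorElement_def]
      generalize ρ (b * a)⁻¹ v = w at hw e1 e2
      have a1 := ha2 _ _ (h1 b hb j w hw)
      have a2 := h1 b hb _ _ (ha2 j w hw)
      rw [show j - 1 - (i + 1) = j - (i + 1 + 1) by omega] at a1
      rw [show j - (i + 1) - 1 = j - (i + 1 + 1) by omega] at a2
      rw [e2, e1]
      convert sub_mem a1 a2 using 1
      rw [map_sub, map_sub]
      abel
  intro x hx
  refine LinearMap.ext fun v => sub_eq_zero.1 ?_
  have := (h5 c (nres_le_lcs L c hx)).2 c v (hc ▸ trivial)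
  rwa [show c - (c + 1) = 0 by omega, h2] at this

theorem kal_range (f : W →ₗ[R] W') (hf : ∀ x v, f (ρ x v) = ρ' x (f v)) (x : X) :
    (LinearMap.range (ρ x - 1)).map f ≤ LinearMap.range (ρ' x - 1) := by
  rintro _ ⟨_, ⟨v, rfl⟩, rfl⟩
  exact ⟨f v, by simp [hf]⟩

theorem kal_range' (f : W →ₗ[R] W') (hf : ∀ x v, f (ρ x v) = ρ' x (f v))
    (hs : Function.Surjective f) (x : X) :
    (LinearMap.range (ρ x - 1)).map f = LinearMap.range (ρ' x - 1) := by
  refine (kal_range ρ ρ' f hf x).antisymm ?_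
  rintro _ ⟨v, rfl⟩
  obtain ⟨v, rfl⟩ := hs v
  exact ⟨_, ⟨v, rfl⟩, by simp [hf]⟩

end Unip

section Dom

variable {k : Type} [Field k] {W W' : Type} [AddCommGroup W] [Module k W] [AddCommGroup W']
  [Module k W'] (ρ : Representation k X W) (ρ' : Representation k X W')

theorem kal_dom_inj [FiniteDimensional k W'] (f : W →ₗ[k] W')
    (hf : ∀ x v, f (ρ x v) = ρ' x (f v)) (hi : Function.Injective f) : Dom ρ ρ' := by
  refine ⟨f.finrank_le_finrank_of_injective hi, fun x => ⟨?_, ?_⟩⟩
  · refine (Submodule.equivMapOfInjective f hi _).finrank_eq.le.trans (Submodule.finrank_mono ?_)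
    rintro _ ⟨v, hv, rfl⟩
    have : ρ x v - v = 0 := hv
    change ρ' x (f v) - f v = 0
    rw [← hf, ← map_sub, this, map_zero]
  · exact (Submodule.equivMapOfInjective f hi _).finrank_eq.le.trans
      (Submodule.finrank_mono (kal_range ρ ρ' f hf x))

theorem kal_dom_surj [FiniteDimensional k W] (f : W →ₗ[k] W')
    (hf : ∀ x v, f (ρ x v) = ρ' x (f v)) (hs : Function.Surjective f) : Dom ρ' ρ := by
  have := Module.Finite.of_surjective f hs
  refine ⟨f.finrank_le_finrank_of_surjective hs, fun x => ⟨?_, ?_⟩⟩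
  · have h1 := (ρ x - 1).finrank_range_add_finrank_ker
    have h2 := (ρ' x - 1).finrank_range_add_finrank_ker
    have h3 := (LinearMap.range (ρ x - 1)).finrank_quotient_add_finrank
    have h4 := (LinearMap.range (ρ' x - 1)).finrank_quotient_add_finrank
    have h5 := (Submodule.mapQ _ _ f (Submodule.map_le_iff_le_comap.1
      (kal_range ρ ρ' f hf x))).finrank_le_finrank_of_surjective fun v => by
        obtain ⟨v, rfl⟩ := Submodule.mkQ_surjective _ v
        obtain ⟨v, rfl⟩ := hs v
        exact ⟨Submodule.mkQ _ v, rfl⟩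
    unfold fixDim
    omega
  · rw [movDim, ← kal_range' ρ ρ' f hf hs]
    exact Submodule.finrank_map_le _ _

end Dom

theorem kal_k {k : Type} [Field k] {W : Type} [AddCommGroup W] [Module k W]
    [FiniteDimensional k W] (ρ : Representation k X W) (L : Subgroup X)
    (h : ∀ (W' : Type) [AddCommGroup W'] [Module k W'] [FiniteDimensional k W']
      (ρ' : Representation k X W'), Irr ρ' → Dom ρ' ρ → L ≤ ρ'.ker) : nres L ≤ ρ.ker := by
  have tr : ∀ {W1 W2 : Type} [AddCommGroup W1] [Module k W1] [AddCommGroup W2] [Module k W2]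
      {ρ1 : Representation k X W1} {ρ2 : Representation k X W2}, Dom ρ1 ρ2 → Dom ρ2 ρ →
      Dom ρ1 ρ := fun h1 h2 =>
    ⟨h1.1.trans h2.1, fun x => ⟨(h1.2 x).1.trans (h2.2 x).1, (h1.2 x).2.trans (h2.2 x).2⟩⟩
  have key : ∀ (n : ℕ) (W' : Type) [AddCommGroup W'] [Module k W'] [FiniteDimensional k W']
      (ρ' : Representation k X W'), finrank k W' < n → Dom ρ' ρ → kal_Unip ρ' L := fun n => by
    induction n with
    | zero => exact fun _ _ _ _ _ hn => absurd hn (Nat.not_lt_zero _)
    | succ n ih =>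
      intro W' _ _ _ ρ' hn hd
      rcases subsingleton_or_nontrivial W' with _ | hW
      · exact ⟨0, Subsingleton.elim _ _⟩
      by_cases hi : Irr ρ'
      · exact kal_of_ker ρ' L (h W' ρ' hi hd)
      simp only [Irr, hW, true_and, not_forall, not_or] at hi
      obtain ⟨U, hU, h1, h2⟩ := hi
      have h3 := Submodule.finrank_lt h2
      have h4 := U.finrank_quotient_add_finrank
      have h5 := Submodule.finrank_eq_zero.not.2 h1
      exact kal_ext ρ' L hU
        (ih _ _ (by omega) (tr (kal_dom_inj _ ρ' U.subtype (fun _ _ => rfl) U.injective_subtype) hd))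
        (ih _ _ (by omega) (tr (kal_dom_surj ρ' _ U.mkQ (fun _ _ => rfl) U.mkQ_surjective) hd))
  exact kal_nres ρ L (key _ W ρ (Nat.lt_succ_self _) ⟨le_rfl, fun _ => ⟨le_rfl, le_rfl⟩⟩)

theorem kal_fin {R : Type} [CommRing R] {M : Type} [AddCommGroup M] [Module R M] [Finite M]
    (σ : Representation R X M) (L : Subgroup X)
    (h' : ∀ (M' : Type) [AddCommGroup M'] [Module R M'] [Finite M'] (σ' : Representation R X M')
      (r : ℕ),
      r.Prime → (∀ v : M', r • v = 0) →
      (∀ x : X, Nat.card (LinearMap.range (σ' x - 1)) ≤ Nat.card (LinearMap.range (σ x - 1))) →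
      L ≤ σ'.ker) : nres L ≤ σ.ker := by
  have key : ∀ (n : ℕ) (M' : Type) [AddCommGroup M'] [Module R M'] [Finite M']
      (σ' : Representation R X M'), Nat.card M' < n →
      (∀ x : X, Nat.card (LinearMap.range (σ' x - 1)) ≤ Nat.card (LinearMap.range (σ x - 1))) →
      kal_Unip σ' L := fun n => by
    induction n with
    | zero => exact fun _ _ _ _ _ hn => absurd hn (Nat.not_lt_zero _)
    | succ n ih =>
      intro M' _ _ _ σ' hn hd
      rcases subsingleton_or_nontrivial M' with _ | hM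
      · exact ⟨0, Subsingleton.elim _ _⟩
      obtain ⟨r, hr, h1⟩ := Nat.exists_prime_and_dvd (Finite.one_lt_card (α := M')).ne'
      have := Fact.mk hr
      obtain ⟨v, hv⟩ := exists_prime_addOrderOf_dvd_card' r h1
      let U : Submodule R M' := LinearMap.ker (r • LinearMap.id)
      have hU : ∀ x, U ≤ U.comap (σ' x) := fun x w hw => by
        have : r • w = 0 := hw
        change r • σ' x w = 0
        rw [← map_nsmul, this, map_zero]
      have h2 : Nontrivial U := ⟨⟨v, show r • v = 0 from hv ▸ addOrderOf_nsmul_eq_zero v⟩, 0,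
        fun e => hr.one_lt.ne' (hv ▸ AddMonoid.addOrderOf_eq_one_iff.2 (congrArg Subtype.val e))⟩
      have : Finite (M' ⧸ U) := .of_surjective _ U.mkQ_surjective
      have h3 := U.card_eq_card_quotient_mul_card
      have h4 := Finite.one_lt_card (α := U)
      have h5 := Nat.card_pos (α := M' ⧸ U)
      refine kal_ext σ' L hU (kal_of_ker _ L (h' _ _ r hr (fun w => Subtype.ext w.2) fun x =>
        le_trans ?_ (hd x))) (ih _ _ (by nlinarith) fun x => le_trans ?_ (hd x))
      · exact (Nat.card_congr (Submodule.equivMapOfInjective _ U.injective_subtype _).toEquiv).le.trans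
          (Nat.card_le_card_of_injective _ (Submodule.inclusion_injective
            (kal_range (σ'.subrepresentation U hU) σ' U.subtype (fun _ _ => rfl) x)))
      · rw [← kal_range' σ' (σ'.quotient U hU) U.mkQ (fun _ _ => rfl) U.mkQ_surjective]
        exact Nat.card_le_card_of_surjective _ (LinearMap.submoduleMap_surjective _ _)
  exact kal_nres σ L (key _ M σ (Nat.lt_succ_self _) fun _ => le_rfl)

theorem kal_Z {M : Type} [AddCommGroup M] [Finite M] (σ : Representation ℤ X M) (L : Subgroup X)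
    (h : ∀ (M' : Type) [AddCommGroup M'] [Finite M'] (σ' : Representation ℤ X M') (r : ℕ),
      r.Prime → (∀ v : M', r • v = 0) →
      (∀ x : X, Nat.card (LinearMap.range (σ' x - 1)) ≤ Nat.card (LinearMap.range (σ x - 1))) →
      L ≤ σ'.ker) : nres L ≤ σ.ker := by
  refine kal_fin σ L fun M' _ i => ?_
  obtain rfl := Subsingleton.elim i (AddCommGroup.toIntModule M')
  exact h M'

end Pool.Agent.P.MP_618680_al.FH
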