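import Pool.Agent.P.MP_618680_al.FH.Res

/-! Abelian sections as modules. -/

set_option autoImplicit false

namespace Pool.Agent.P.MP_618680_al.FH

open scoped commutatorElement
open Module

variable {X : Type} [Group X]


theorem exists_secRep [Finite X] (A B : Subgroup X) [A.Normal] [B.Normal] (hc : ⁅A, A⁆ ≤ B) :
    ∃ (M : Type) (_ : AddCommGroup M) (_ : Finite M) (σ : Representation ℤ X M) (π : X → M),
      SecRep A B σ π := by
  classical
  let A' : Subgroup (X ⧸ B) := A.map (QuotientGroup.mk' B)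
  have hN : A'.Normal := Subgroup.Normal.map ‹_› _ (QuotientGroup.mk'_surjective B)
  let _ : CommGroup A' :=
    { (inferInstance : Group A') with
      mul_comm := by
        rintro ⟨_, a, ha, rfl⟩ ⟨_, b, hb, rfl⟩
        apply Subtype.ext
        change QuotientGroup.mk' B a * QuotientGroup.mk' B b =
          QuotientGroup.mk' B b * QuotientGroup.mk' B a
        rw [← commutatorElement_eq_one_iff_mul_comm, ← map_commutatorElement, ← MonoidHom.mem_ker,
          QuotientGroup.ker_mk']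
        exact hc (Subgroup.commutator_mem_commutator ha hb) }
  let c : X → A' →* A' := fun x =>
    (MulAut.conjNormal (H := A') (QuotientGroup.mk' B x)).toMonoidHom
  let σ : Representation ℤ X (Additive A') :=
    { toFun := fun x => (MonoidHom.toAdditive (c x)).toIntLinearMap
      map_one' := by
        refine LinearMap.ext fun v => ?_
        change Additive.ofMul (MulAut.conjNormal (H := A') (QuotientGroup.mk' B 1) v.toMul) = v
        rw [map_one, map_one]
        rfl
      map_mul' := fun x y => by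
        refine LinearMap.ext fun v => ?_
        change Additive.ofMul (MulAut.conjNormal (H := A') (QuotientGroup.mk' B (x * y)) v.toMul) =
          Additive.ofMul (MulAut.conjNormal (H := A') (QuotientGroup.mk' B x)
            (MulAut.conjNormal (H := A') (QuotientGroup.mk' B y) v.toMul))
        rw [map_mul, map_mul]
        rfl }
  let π : X → Additive A' := fun a =>
    if ha : a ∈ A then Additive.ofMul ⟨QuotientGroup.mk' B a, a, ha, rfl⟩ else 0
  have hπ : ∀ a (ha : a ∈ A), π a = Additive.ofMul ⟨QuotientGroup.mk' B a, a, ha, rfl⟩ :=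
    fun a ha => dif_pos ha
  refine ⟨Additive A', inferInstance, inferInstance, σ, π, ?_, ?_, ?_, ?_⟩
  · rintro ⟨_, a, ha, rfl⟩
    exact ⟨a, ha, hπ a ha⟩
  · intro a ha b hb
    rw [hπ a ha, hπ b hb, hπ _ (mul_mem ha hb), ← ofMul_mul]
    exact congrArg Additive.ofMul (Subtype.ext (map_mul _ _ _))
  · intro a ha
    rw [hπ a ha, ofMul_eq_zero, Subtype.ext_iff]
    change QuotientGroup.mk' B a = 1 ↔ _
    rw [← MonoidHom.mem_ker, QuotientGroup.ker_mk']
  · intro x a ha
    rw [hπ a ha, hπ _ (‹A.Normal›.conj_mem a ha x)]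
    refine congrArg Additive.ofMul (Subtype.ext ?_)
    change QuotientGroup.mk' B (x * a * x⁻¹) =
      QuotientGroup.mk' B x * QuotientGroup.mk' B a * (QuotientGroup.mk' B x)⁻¹
    rw [map_mul, map_mul, map_inv]

variable {A B : Subgroup X} {M : Type} [AddCommGroup M] {σ : Representation ℤ X M} {π : X → M}

/-- The quotient map as a homomorphism. -/
def SecRep.sec_hom (h : SecRep A B σ π) : A →* Multiplicative M :=
  MonoidHom.mk' (fun a => Multiplicative.ofAdd (π a)) fun a b => by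
    rw [Subgroup.coe_mul, h.mul _ a.2 _ b.2, ofAdd_add]

theorem SecRep.sec_hom_apply (h : SecRep A B σ π) (a : A) : h.sec_hom a = Multiplicative.ofAdd (π a) :=
  rfl

theorem SecRep.sec_hom_surj (h : SecRep A B σ π) : Function.Surjective h.sec_hom := fun v => by
  obtain ⟨a, ha, e⟩ := h.surj v.toAdd
  exact ⟨⟨a, ha⟩, by rw [h.sec_hom_apply, e]; rfl⟩

theorem SecRep.sec_hom_ker (h : SecRep A B σ π) : h.sec_hom.ker = B.subgroupOf A := by
  ext a
  rw [MonoidHom.mem_ker, h.sec_hom_apply, ofAdd_eq_one, h.zero _ a.2, Subgroup.mem_subgroupOf]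

theorem SecRep.sec_inv (h : SecRep A B σ π) {a : X} (ha : a ∈ A) : π a⁻¹ = -π a :=
  congrArg Multiplicative.toAdd (map_inv h.sec_hom ⟨a, ha⟩)

theorem SecRep.sec_pow (h : SecRep A B σ π) {a : X} (ha : a ∈ A) (r : ℕ) : π (a ^ r) = r • π a :=
  congrArg Multiplicative.toAdd (map_pow h.sec_hom ⟨a, ha⟩ r)

theorem SecRep.sec_comm_mem_iff [hA : A.Normal] (h : SecRep A B σ π) {a : X} (ha : a ∈ A) (x : X) :
    ⁅a, x⁆ ∈ B ↔ σ x (π a) = π a := by
  have e : ⁅a, x⁆ = a * (x * a⁻¹ * x⁻¹) := by rw [commutatorElement_def]; group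
  have h1 : x * a⁻¹ * x⁻¹ ∈ A := hA.conj_mem _ (inv_mem ha) x
  rw [e, ← h.zero _ (mul_mem ha h1), h.mul _ ha _ h1, h.conj _ _ (inv_mem ha), h.sec_inv ha, map_neg,
    add_neg_eq_zero, eq_comm]

theorem sec_card_eq (h : SecRep A B σ π) : Nat.card M = B.relIndex A := by
  rw [Subgroup.relIndex, ← h.sec_hom_ker, Subgroup.index_ker, MonoidHom.range_eq_top.2 h.sec_hom_surj,
    Subgroup.card_top]
  rfl

theorem SecRep.card [Finite X] (h : SecRep A B σ π) (hBA : B ≤ A) :
    Nat.card M * Nat.card B = Nat.card A := by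
  rw [sec_card_eq h, Subgroup.relIndex,
    ← Nat.card_congr (Subgroup.subgroupOfEquivOfLe hBA).toEquiv, Subgroup.index_mul_card]

theorem SecRep.card_eq_relIndex (h : SecRep A B σ π) : Nat.card M = B.relIndex A := by
  exact sec_card_eq h

theorem SecRep.ker_eq [A.Normal] [B.Normal] (h : SecRep A B σ π) : σ.ker = secCent A B := by
  ext x
  rw [MonoidHom.mem_ker, mem_secCent]
  refine ⟨fun hx a ha => (h.sec_comm_mem_iff ha x).2 (by rw [hx]; rfl), fun hx => ?_⟩
  refine LinearMap.ext fun v => ?_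
  obtain ⟨a, ha, rfl⟩ := h.surj v
  exact (h.sec_comm_mem_iff ha x).1 (hx a ha)

theorem SecRep.card_fix [Finite X] [A.Normal] [B.Normal] (h : SecRep A B σ π) (hBA : B ≤ A)
    (x : X) :
    Nat.card (LinearMap.ker (σ x - 1)) * Nat.card B = (fixS A B x).ncard := by
  let K : Subgroup (Multiplicative M) :=
    AddSubgroup.toSubgroup (LinearMap.ker (σ x - 1)).toAddSubgroup
  have hK : Nat.card K = Nat.card (LinearMap.ker (σ x - 1)) := rfl
  have hf : fixS A B x = ((K.comap h.sec_hom).map A.subtype : Subgroup X) := by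
    ext a
    constructor
    · rintro ⟨ha, hx⟩
      refine ⟨⟨a, ha⟩, ?_, rfl⟩
      change (σ x - 1) (π a) = 0
      rw [LinearMap.sub_apply, (h.sec_comm_mem_iff ha x).1 hx, Module.End.one_apply, sub_self]
    · rintro ⟨a, ha, rfl⟩
      refine ⟨a.2, (h.sec_comm_mem_iff a.2 x).2 ?_⟩
      change (σ x - 1) (π a) = 0 at ha
      rwa [LinearMap.sub_apply, Module.End.one_apply, sub_eq_zero] at ha
  have h1 : (fixS A B x).ncard = Nat.card (K.comap h.sec_hom) := by
    rw [hf, ← Nat.card_coe_set_eq]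
    exact Subgroup.card_map_of_injective A.subtype_injective
  have h2 := Subgroup.index_mul_card (K.comap h.sec_hom)
  have h3 : K.index * Nat.card K = Nat.card M := Subgroup.index_mul_card K
  have h4 := h.card hBA
  have h5 : (K.comap h.sec_hom).index ≠ 0 := Subgroup.index_ne_zero_of_finite
  rw [Subgroup.index_comap_of_surjective _ h.sec_hom_surj] at h2 h5
  rw [h1, ← hK]
  refine Nat.eq_of_mul_eq_mul_left (Nat.pos_of_ne_zero h5) ?_
  rw [h2, ← mul_assoc, h3, h4]

theorem SecRep.nsmul_eq_zero (h : SecRep A B σ π) {r : ℕ} (hr : ∀ a ∈ A, a ^ r ∈ B) (v : M) :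
    r • v = 0 := by
  obtain ⟨a, ha, rfl⟩ := h.surj v
  rw [← h.sec_pow ha, h.zero _ (pow_mem ha r)]
  exact hr a ha

/-- Counting the fibres of `a ↦ ⁅a, g⁆`. -/
theorem ncard_fixS_le [Finite X] (A B : Subgroup X) (g : X) :
    (fixS A B g).ncard ≤ Nat.card (A ⊓ Subgroup.centralizer ({g} : Set X) : Subgroup X) *
      Nat.card B := by
  classical
  let rep : X → X := fun b => if h : ∃ a ∈ A, ⁅a, g⁆ = b then h.choose else 1
  have hrep : ∀ a ∈ A, rep ⁅a, g⁆ ∈ A ∧ ⁅rep ⁅a, g⁆, g⁆ = ⁅a, g⁆ := fun a ha => by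
    have h : ∃ a' ∈ A, ⁅a', g⁆ = ⁅a, g⁆ := ⟨a, ha, rfl⟩
    have e : rep ⁅a, g⁆ = h.choose := dif_pos h
    rw [e]
    exact h.choose_spec
  have hmem : ∀ a ∈ A, (rep ⁅a, g⁆)⁻¹ * a ∈ A ⊓ Subgroup.centralizer ({g} : Set X) := fun a ha => by
    obtain ⟨h1, h2⟩ := hrep a ha
    refine Subgroup.mem_inf.2 ⟨A.mul_mem (A.inv_mem h1) ha, Subgroup.mem_centralizer_singleton_iff.2 ?_⟩
    generalize rep ⁅a, g⁆ = r at h2 ⊢
    rw [commutatorElement_def, commutatorElement_def, mul_left_inj] at h2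
    calc r⁻¹ * a * g = r⁻¹ * (a * g * a⁻¹) * a := by group
      _ = g * (r⁻¹ * a) := by rw [← h2]; group
  let F : fixS A B g → (A ⊓ Subgroup.centralizer ({g} : Set X) : Subgroup X) × B := fun a =>
    (⟨_, hmem a a.2.1⟩, ⟨_, a.2.2⟩)
  have hF : Function.Injective F := fun a b e => by
    have e1 : (rep ⁅(a : X), g⁆)⁻¹ * a = (rep ⁅(b : X), g⁆)⁻¹ * b :=
      congrArg (fun z => (z.1 : X)) e
    have e2 : ⁅(a : X), g⁆ = ⁅(b : X), g⁆ := congrArg (fun z => (z.2 : X)) e
    rw [e2] at e1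
    exact Subtype.ext (mul_left_cancel e1)
  rw [← Nat.card_coe_set_eq, ← Nat.card_prod]
  exact Nat.card_le_card_of_injective F hF

/-- `Star` passes to subgroups containing `g`. -/
theorem Star.subgroup {g : X} {μ : ℕ} (h : Star g μ) (Y : Subgroup X) (hg : g ∈ Y) :
    Star (⟨g, hg⟩ : Y) μ := by
  intro A B hBA hA hB hc hr
  obtain ⟨r, hr, hr'⟩ := hr
  have H := h (A.map Y.subtype) (B.map Y.subtype) (Subgroup.map_mono hBA)
    (Subgroup.le_normalizer_map Y.subtype ⟨_, hA, rfl⟩)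
    (Subgroup.le_normalizer_map Y.subtype ⟨_, hB, rfl⟩)
    (by rw [← Subgroup.map_commutator]; exact Subgroup.map_mono hc)
    ⟨r, hr, by
      rintro _ ⟨a, ha, rfl⟩
      exact ⟨a ^ r, hr' a ha, map_pow _ _ _⟩⟩
  have e : fixS (A.map Y.subtype) (B.map Y.subtype) g = Subtype.val '' fixS A B ⟨g, hg⟩ := by
    ext x
    constructor
    · rintro ⟨⟨a, ha, rfl⟩, b, hb, e⟩
      refine ⟨a, ⟨ha, ?_⟩, rfl⟩
      have : b = ⁅a, ⟨g, hg⟩⁆ := Subtype.ext e
      exact this ▸ hb
    · rintro ⟨a, ⟨ha, hb⟩, rfl⟩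
      exact ⟨⟨a, ha, rfl⟩, _, hb, rfl⟩
  rwa [e, Set.ncard_image_of_injective _ Subtype.val_injective,
    Subgroup.card_map_of_injective Y.subtype_injective] at H

end Pool.Agent.P.MP_618680_al.FH
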