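import Pool.Agent.P.MP_618680_al.FH.SymA
import Pool.Agent.P.MP_618680_al.FH.Sec

/-! The endomorphism algebra is permuted like `F / Z`. -/

set_option autoImplicit false

namespace Pool.Agent.P.MP_618680_al.FH

open scoped commutatorElement
open Module

variable {k : Type} [Field k] {X : Type} [Group X] {W : Type} [AddCommGroup W] [Module k W]

section Abstract

variable {E : Type} [AddCommGroup E] [Fintype E] {V : Type} [AddCommGroup V] [Module k V]

theorem symp_sum_zero (ψ : E → k) (hψ : ∀ x y, ψ (x + y) = ψ x * ψ y) {x0 : E} (h : ψ x0 ≠ 1) :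
    ∑ x, ψ x = 0 := by
  have h1 : ∑ x, ψ x = ψ x0 * ∑ x, ψ x := by
    rw [Finset.mul_sum, ← Equiv.sum_comp (Equiv.addLeft x0) ψ]
    exact Finset.sum_congr rfl fun x _ => hψ x0 x
  have h2 : (ψ x0 - 1) * ∑ x, ψ x = 0 := by rw [sub_mul, one_mul, ← h1, sub_self]
  exact (mul_eq_zero.1 h2).resolve_left (sub_ne_zero.2 h)

theorem symp_card_ne (χ : E → E → k) (h0 : ∀ y, χ y 0 = 1)
    (hr : ∀ y x x', χ y (x + x') = χ y x * χ y x') (nd : ∀ x, (∀ y, χ y x = 1) → x = 0) :
    (Fintype.card E : k) ≠ 0 := by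
  intro hc
  have hp : (ringChar k) ∣ Fintype.card E := (ringChar.spec k _).1 hc
  rcases CharP.char_is_prime_or_zero k (ringChar k) with hpr | hz
  · have : Fact (ringChar k).Prime := ⟨hpr⟩
    obtain ⟨x, hx⟩ := exists_prime_addOrderOf_dvd_card (ringChar k) hp
    have hpow : ∀ y (n : ℕ), χ y (n • x) = χ y x ^ n := by
      intro y n
      induction n with
      | zero => rw [zero_smul, h0, pow_zero]
      | succ n ih => rw [succ_nsmul, hr, ih, pow_succ]
    have hx0 : x = 0 := nd x fun y => by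
      have h1 : χ y x ^ ringChar k = 1 := by
        rw [← hpow, ← hx, addOrderOf_nsmul_eq_zero, h0]
      have h2 : (χ y x - 1) ^ ringChar k = 0 := by
        rw [sub_pow_char, h1, one_pow, sub_self]
      exact sub_eq_zero.1 (pow_eq_zero_iff hpr.ne_zero |>.1 h2)
    rw [hx0, addOrderOf_zero] at hx
    exact hpr.one_lt.ne hx
  · rw [hz, zero_dvd_iff] at hp
    exact Fintype.card_ne_zero hp

/-- The projector onto the weight space. -/
noncomputable def symp_q (Ad : E → Module.End k V) (χ : E → E → k) (x : E) : Module.End k V :=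
  (Fintype.card E : k)⁻¹ • ∑ y, χ (-y) x • Ad y

theorem symp_ad_q {Ad : E → Module.End k V} {χ : E → E → k}
    (hA : ∀ y y', Ad (y + y') = Ad y * Ad y')
    (hl : ∀ y y' x, χ (y + y') x = χ y x * χ y' x) (y x : E) :
    Ad y * symp_q Ad χ x = χ y x • symp_q Ad χ x := by
  unfold symp_q
  rw [mul_smul_comm, smul_comm (χ y x)]
  congr 1
  rw [Finset.mul_sum, Finset.smul_sum,
    ← Equiv.sum_comp (Equiv.addLeft y) fun z => χ y x • χ (-z) x • Ad z]
  refine Finset.sum_congr rfl fun z _ => ?_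
  simp only [Equiv.coe_addLeft]
  rw [mul_smul_comm, hA, smul_smul, ← hl, show y + -(y + z) = -z by abel]

theorem symp_coi {Ad : E → Module.End k V} {χ : E → E → k} (hA0 : Ad 0 = 1)
    (hA : ∀ y y', Ad (y + y') = Ad y * Ad y') (h0 : ∀ y, χ y 0 = 1) (h0' : ∀ x, χ 0 x = 1)
    (hl : ∀ y y' x, χ (y + y') x = χ y x * χ y' x)
    (hr : ∀ y x x', χ y (x + x') = χ y x * χ y x') (nd : ∀ x, (∀ y, χ y x = 1) → x = 0)
    (nd' : ∀ y, (∀ x, χ y x = 1) → y = 0) : CompleteOrthogonalIdempotents (symp_q Ad χ) := by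
  classical
  have hN := symp_card_ne χ h0 hr nd
  have hmul : ∀ x x', symp_q Ad χ x * symp_q Ad χ x' =
      ((Fintype.card E : k)⁻¹ * ∑ y, χ (-y) x * χ y x') • symp_q Ad χ x' := by
    intro x x'
    conv_lhs => rw [symp_q]
    rw [smul_mul_assoc, Finset.sum_mul, mul_smul, Finset.sum_smul]
    congr 1
    refine Finset.sum_congr rfl fun y _ => ?_
    rw [smul_mul_assoc, symp_ad_q hA hl, smul_smul]
  have hneg : ∀ y x, χ (-y) x = χ y (-x) := by
    intro y x
    have e1 : χ (-y) x * χ y x = 1 := by rw [← hl, neg_add_cancel, h0']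
    have e2 : χ y x * χ y (-x) = 1 := by rw [← hr, add_neg_cancel, h0]
    calc χ (-y) x = χ (-y) x * (χ y x * χ y (-x)) := by rw [e2, mul_one]
      _ = χ y (-x) := by rw [← mul_assoc, e1, one_mul]
  refine ⟨⟨fun x => ?_, fun x x' hx => ?_⟩, ?_⟩
  · unfold IsIdempotentElem
    rw [hmul]
    have : ∀ y, χ (-y) x * χ y x = 1 := fun y => by rw [← hl, neg_add_cancel, h0']
    simp only [this, Finset.sum_const, Finset.card_univ, nsmul_eq_mul, mul_one]
    rw [inv_mul_cancel₀ hN, one_smul]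
  · change symp_q Ad χ x * symp_q Ad χ x' = 0
    rw [hmul]
    have : ∀ y, χ (-y) x * χ y x' = χ y (-x + x') := fun y => by rw [hneg, hr]
    simp only [this]
    have hne : ¬ ∀ y, χ y (-x + x') = 1 := fun h => hx (neg_add_eq_zero.1 (nd _ h))
    obtain ⟨y0, hy0⟩ := not_forall.1 hne
    rw [symp_sum_zero (fun y => χ y (-x + x')) (fun a b => hl a b _) hy0, mul_zero, zero_smul]
  · unfold symp_q
    rw [← Finset.smul_sum, Finset.sum_comm]
    simp only [← Finset.sum_smul]
    rw [Finset.sum_eq_single 0]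
    · simp only [neg_zero, h0', Finset.sum_const, Finset.card_univ, nsmul_eq_mul, mul_one, hA0]
      rw [smul_smul, inv_mul_cancel₀ hN, one_smul]
    · intro y _ hy
      have hne : ¬ ∀ x, χ (-y) x = 1 := fun h => hy (neg_eq_zero.1 (nd' _ h))
      obtain ⟨x0, hx0⟩ := not_forall.1 hne
      rw [symp_sum_zero (χ (-y)) (hr _) hx0, zero_smul]
    · intro h
      exact absurd (Finset.mem_univ _) h

theorem symp_q_mul {Ad : E → Module.End k V} {χ : E → E → k} (h0 : ∀ y, χ y 0 = 1)
    (h0' : ∀ x, χ 0 x = 1) (hl : ∀ y y' x, χ (y + y') x = χ y x * χ y' x) {T : Module.End k V}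
    {x : E} (hT : ∀ y, Ad y * T = χ y x • (T * Ad y)) :
    symp_q Ad χ x * T = T * symp_q Ad χ 0 := by
  unfold symp_q
  rw [smul_mul_assoc, mul_smul_comm, Finset.sum_mul, Finset.mul_sum]
  congr 1
  refine Finset.sum_congr rfl fun y _ => ?_
  rw [smul_mul_assoc, hT, smul_smul, ← hl, neg_add_cancel, h0', h0, one_smul, one_smul]

theorem symp_rank_eq {p p' T T' : Module.End k V} (h1 : T * T' = 1) (h2 : T' * T = 1)
    (h : p * T = T * p') :
    finrank k (LinearMap.range p) = finrank k (LinearMap.range p') := by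
  let e : V ≃ₗ[k] V := LinearEquiv.ofLinearMap T T' h1 h2
  have hT : LinearMap.range T = ⊤ := LinearMap.range_eq_top.2 e.surjective
  have e1 : LinearMap.range p = LinearMap.range (p * T) :=
    (LinearMap.range_comp_of_range_eq_top p hT).symm
  have e2 : LinearMap.range (T * p') = (LinearMap.range p').map (e : V →ₗ[k] V) :=
    LinearMap.range_comp p' T
  rw [e1, h, e2, LinearEquiv.finrank_map_eq]

theorem symp_sum_rank [FiniteDimensional k V] {ι : Type} [Fintype ι] {q : ι → Module.End k V}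
    (hq : CompleteOrthogonalIdempotents q) :
    ∑ x, finrank k (LinearMap.range (q x)) = finrank k V := by
  classical
  let φ : V →ₗ[k] ∀ x, LinearMap.range (q x) := LinearMap.pi fun x => (q x).rangeRestrict
  have hφ : Function.Bijective φ := by
    constructor
    · rw [injective_iff_map_eq_zero]
      intro v hv
      have h1 : ∀ x, q x v = 0 := fun x => congrArg Subtype.val (congrFun hv x)
      have h2 : (∑ x, q x) v = v := by rw [hq.complete]; rfl
      rw [← h2, LinearMap.sum_apply]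
      exact Finset.sum_eq_zero fun x _ => h1 x
    · intro w
      refine ⟨∑ y, (w y : V), funext fun x => Subtype.ext ?_⟩
      change q x (∑ y, (w y : V)) = w x
      rw [map_sum, Finset.sum_eq_single x]
      · obtain ⟨u, hu⟩ := (w x).2
        rw [← hu, ← Module.End.mul_apply, hq.idem x]
      · intro y _ hy
        obtain ⟨u, hu⟩ := (w y).2
        rw [← hu, ← Module.End.mul_apply, hq.ortho hy.symm, LinearMap.zero_apply]
      · intro h
        exact absurd (Finset.mem_univ _) h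
  rw [(LinearEquiv.ofBijective φ hφ).finrank_eq, Module.finrank_pi_fintype]

end Abstract

theorem symp_conj_apply (ρ : Representation k X W) (x : X) (f : Module.End k W) :
    conjEnd ρ x f = ρ x * (f * ρ x⁻¹) := rfl

theorem symp_conj_mul (ρ : Representation k X W) (x y : X) :
    conjEnd ρ (x * y) = conjEnd ρ x * conjEnd ρ y := by
  refine LinearMap.ext fun f => ?_
  rw [Module.End.mul_apply, symp_conj_apply, symp_conj_apply, symp_conj_apply, mul_inv_rev,
    map_mul, map_mul]
  simp only [mul_assoc]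

theorem symp_scal {ρ : Representation k X W} {z : X} (hz : z ∈ scal ρ) :
    ∃ c : k, ρ z = c • (1 : Module.End k W) := by
  obtain ⟨c, hc⟩ := hz
  exact ⟨c, LinearMap.ext fun v => hc v⟩

theorem symp_scal_comm {ρ : Representation k X W} {z : X} (hz : z ∈ scal ρ)
    (f : Module.End k W) : ρ z * f = f * ρ z := by
  obtain ⟨c, hc⟩ := symp_scal hz
  rw [hc, smul_mul_assoc, mul_smul_comm, one_mul, mul_one]

theorem symp_conj_scal {ρ : Representation k X W} {z : X} (hz : z ∈ scal ρ) :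
    conjEnd ρ z = 1 := by
  refine LinearMap.ext fun f => ?_
  rw [symp_conj_apply, ← mul_assoc, symp_scal_comm hz, mul_assoc, ← map_mul, mul_inv_cancel,
    map_one, mul_one, Module.End.one_apply]

theorem symp_uniq [Nontrivial W] (ρ : Representation k X W) (a : X) {c d : k}
    (h : c • ρ a = d • ρ a) : c = d := by
  have h1 : c • (1 : Module.End k W) = d • 1 := by
    have := congrArg (· * ρ a⁻¹) h
    simp only [smul_mul_assoc, ← map_mul, mul_inv_cancel, map_one] at this
    exact this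
  exact smul_left_injective k one_ne_zero h1

theorem symp_exists_c {ρ : Representation k X W} {F : Subgroup X} (hF : SymF ρ F) :
    ∃ c : X → X → k, ∀ a ∈ F, ∀ b ∈ F, ρ (a * b) = c a b • ρ (b * a) := by
  have : ∀ a b : X, ∃ c : k, a ∈ F → b ∈ F → ρ (a * b) = c • ρ (b * a) := by
    intro a b
    by_cases h : a ∈ F ∧ b ∈ F
    · obtain ⟨c, hc⟩ := symp_scal (hF.comm (Subgroup.commutator_mem_commutator h.1 h.2))
      refine ⟨c, fun _ _ => ?_⟩
      have e : a * b = ⁅a, b⁆ * (b * a) := by rw [commutatorElement_def]; group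
      rw [e, map_mul, hc, smul_mul_assoc, one_mul]
    · exact ⟨0, fun ha hb => absurd ⟨ha, hb⟩ h⟩
  choose c hc using this
  exact ⟨c, fun a ha b hb => hc a b ha hb⟩

theorem symp_diff {A B : Subgroup X} {M : Type} [AddCommGroup M] {σ : Representation ℤ X M}
    {π : X → M} (h : SecRep A B σ π) {a b : X} (ha : a ∈ A) (hb : b ∈ A) (e : π a = π b) :
    ∃ z ∈ B, a = b * z := by
  refine ⟨b⁻¹ * a, ?_, by group⟩
  have h1 : b⁻¹ * a ∈ A := A.mul_mem (A.inv_mem hb) ha
  have h2 := h.mul b hb _ h1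
  rw [mul_inv_cancel_left, e] at h2
  exact (h.zero _ h1).1 (left_eq_add.1 h2)

theorem SymF.exists_proj [Finite X] [FiniteDimensional k W] [Nontrivial W]
    {ρ : Representation k X W} {F : Subgroup X} (hF : SymF ρ F) {E : Type} [AddCommGroup E]
    [Fintype E] {σ : Representation ℤ X E} {π : X → E} (hE : SecRep F (scal ρ) σ π) :
    ∃ (q : E → Module.End k (Module.End k W)) (e : ℕ), CompleteOrthogonalIdempotents q ∧
      (∀ x, finrank k (LinearMap.range (q x)) = e) ∧
      Fintype.card E * e = finrank k W ^ 2 ∧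
      ∀ (g : X) (x : E), conjEnd ρ g * q x = q (σ g x) * conjEnd ρ g := by
  obtain ⟨c, hc⟩ := symp_exists_c hF
  choose τ hτF hτ using hE.surj
  have cl : ∀ a ∈ F, ∀ a' ∈ F, ∀ b ∈ F, c (a * a') b = c a b * c a' b := by
    intro a ha a' ha' b hb
    apply symp_uniq ρ (b * (a * a'))
    rw [← hc _ (F.mul_mem ha ha') b hb, mul_assoc, map_mul, hc a' ha' b hb, mul_smul_comm,
      ← map_mul, ← mul_assoc, map_mul, hc a ha b hb, smul_mul_assoc, ← map_mul, smul_smul,
      mul_comm (c a' b), mul_assoc]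
  have cr : ∀ a ∈ F, ∀ b ∈ F, ∀ b' ∈ F, c a (b * b') = c a b * c a b' := by
    intro a ha b hb b' hb'
    apply symp_uniq ρ (b * b' * a)
    rw [← hc a ha _ (F.mul_mem hb hb'), ← mul_assoc, map_mul, hc a ha b hb, smul_mul_assoc,
      ← map_mul, mul_assoc, map_mul, hc a ha b' hb', mul_smul_comm, ← map_mul, smul_smul,
      mul_assoc]
  have czl : ∀ z ∈ scal ρ, ∀ b ∈ F, c z b = 1 := by
    intro z hz b hb
    apply symp_uniq ρ (b * z)
    rw [← hc z (hF.scal_le hz) b hb, one_smul, map_mul, map_mul, symp_scal_comm hz]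
  have czr : ∀ a ∈ F, ∀ z ∈ scal ρ, c a z = 1 := by
    intro a ha z hz
    apply symp_uniq ρ (z * a)
    rw [← hc a ha z (hF.scal_le hz), one_smul, map_mul, map_mul, symp_scal_comm hz]
  have cwd : ∀ a ∈ F, ∀ b ∈ F, c (τ (π a)) (τ (π b)) = c a b := by
    intro a ha b hb
    obtain ⟨z, hz, e⟩ := symp_diff hE (hτF (π a)) ha (hτ _)
    obtain ⟨z', hz', e'⟩ := symp_diff hE (hτF (π b)) hb (hτ _)
    rw [e, cl a ha z (hF.scal_le hz) _ (hτF _), czl z hz _ (hτF _), mul_one, e',
      cr a ha b hb z' (hF.scal_le hz'), czr a ha z' hz', mul_one]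
  have awd : ∀ a ∈ F, conjEnd ρ (τ (π a)) = conjEnd ρ a := by
    intro a ha
    obtain ⟨z, hz, e⟩ := symp_diff hE (hτF (π a)) ha (hτ _)
    rw [e, symp_conj_mul, symp_conj_scal hz, mul_one]
  have τ0 : τ 0 ∈ scal ρ := (hE.zero _ (hτF 0)).1 (hτ 0)
  have hadd : ∀ y y', π (τ y * τ y') = y + y' := fun y y' => by
    rw [hE.mul _ (hτF y) _ (hτF y'), hτ, hτ]
  have hcomm : ∀ a ∈ F, ∀ b ∈ F, c a b = 1 → ρ (a * b) = ρ (b * a) := fun a ha b hb h => by
    rw [hc a ha b hb, h, one_smul]
  have hker : ∀ a b : X, ρ (a * b) = ρ (b * a) → ⁅a, b⁆ ∈ ρ.ker := fun a b h => by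
    have e : ⁅a, b⁆ = a * b * (b * a)⁻¹ := by rw [commutatorElement_def]; group
    rw [MonoidHom.mem_ker, e, map_mul, h, ← map_mul, mul_inv_cancel, map_one]
  let Ad : E → Module.End k (Module.End k W) := fun y => conjEnd ρ (τ y)
  let χ : E → E → k := fun y x => c (τ y) (τ x)
  have hA0 : Ad 0 = 1 := symp_conj_scal τ0
  have hA : ∀ y y', Ad (y + y') = Ad y * Ad y' := fun y y' => by
    change conjEnd ρ (τ (y + y')) = _
    rw [← hadd, awd _ (F.mul_mem (hτF y) (hτF y')), symp_conj_mul]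
  have h0 : ∀ y, χ y 0 = 1 := fun y => czr _ (hτF y) _ τ0
  have h0' : ∀ x, χ 0 x = 1 := fun x => czl _ τ0 _ (hτF x)
  have hl : ∀ y y' x, χ (y + y') x = χ y x * χ y' x := fun y y' x => by
    have := cwd _ (F.mul_mem (hτF y) (hτF y')) _ (hτF x)
    rw [hadd, hτ, cl _ (hτF y) _ (hτF y') _ (hτF x)] at this
    exact this
  have hr : ∀ y x x', χ y (x + x') = χ y x * χ y x' := fun y x x' => by
    have := cwd _ (hτF y) _ (F.mul_mem (hτF x) (hτF x'))
    rw [hadd, hτ, cr _ (hτF y) _ (hτF x) _ (hτF x')] at this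
    exact this
  have nd : ∀ x, (∀ y, χ y x = 1) → x = 0 := fun x h => by
    rw [← hτ x]
    refine (hE.zero _ (hτF x)).2 (hF.nondeg _ (hτF x) fun b hb => hker _ _ ?_)
    refine (hcomm b hb _ (hτF x) ?_).symm
    rw [← cwd b hb _ (hτF x), hτ]
    exact h _
  have nd' : ∀ y, (∀ x, χ y x = 1) → y = 0 := fun y h => by
    rw [← hτ y]
    refine (hE.zero _ (hτF y)).2 (hF.nondeg _ (hτF y) fun b hb => hker _ _ ?_)
    refine hcomm _ (hτF y) b hb ?_
    rw [← cwd _ (hτF y) b hb, hτ]
    exact h _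
  have hq := symp_coi hA0 hA h0 h0' hl hr nd nd'
  have hrank : ∀ x, finrank k (LinearMap.range (symp_q Ad χ x)) =
      finrank k (LinearMap.range (symp_q Ad χ 0)) := fun x => by
    refine symp_rank_eq (T := LinearMap.mulRight k (ρ (τ x)))
      (T' := LinearMap.mulRight k (ρ (τ x)⁻¹)) ?_ ?_ (symp_q_mul h0 h0' hl fun y => ?_)
    · refine LinearMap.ext fun f => ?_
      change f * ρ (τ x)⁻¹ * ρ (τ x) = f
      rw [mul_assoc, ← map_mul, inv_mul_cancel, map_one, mul_one]
    · refine LinearMap.ext fun f => ?_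
      change f * ρ (τ x) * ρ (τ x)⁻¹ = f
      rw [mul_assoc, ← map_mul, mul_inv_cancel, map_one, mul_one]
    · refine LinearMap.ext fun f => ?_
      change ρ (τ y) * (f * ρ (τ x) * ρ (τ y)⁻¹) =
        c (τ y) (τ x) • (ρ (τ y) * (f * ρ (τ y)⁻¹) * ρ (τ x))
      have e : ρ (τ x) * ρ (τ y)⁻¹ = c (τ y) (τ x) • (ρ (τ y)⁻¹ * ρ (τ x)) := by
        have e1 : τ x * (τ y)⁻¹ = (τ y)⁻¹ * (τ y * τ x) * (τ y)⁻¹ := by group
        rw [← map_mul, e1, map_mul, map_mul, hc _ (hτF y) _ (hτF x), mul_smul_comm,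
          smul_mul_assoc, ← map_mul, ← map_mul, ← map_mul]
        congr 2
        group
      rw [mul_assoc f, e, mul_smul_comm, mul_smul_comm]
      simp only [mul_assoc]
  refine ⟨symp_q Ad χ, _, hq, hrank, ?_, fun g x => ?_⟩
  · have := symp_sum_rank hq
    simp only [hrank, Finset.sum_const, Finset.card_univ, smul_eq_mul] at this
    rw [this, Module.finrank_linearMap, sq]
  · have hn : ∀ y, g * τ y * g⁻¹ ∈ F := fun y => hF.normal.conj_mem _ (hτF y) g
    have hσ : ∀ y, π (g * τ y * g⁻¹) = σ g y := fun y => by rw [hE.conj g _ (hτF y), hτ]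
    have e1 : ∀ y, conjEnd ρ g * Ad y = Ad (σ g y) * conjEnd ρ g := fun y => by
      change _ = conjEnd ρ (τ (σ g y)) * _
      rw [← hσ, awd _ (hn y), ← symp_conj_mul, ← symp_conj_mul, inv_mul_cancel_right]
    have e2 : ∀ y x, χ (σ g y) (σ g x) = χ y x := fun y x => by
      change c (τ (σ g y)) (τ (σ g x)) = c (τ y) (τ x)
      rw [← hσ, ← hσ, cwd _ (hn y) _ (hn x)]
      apply symp_uniq ρ (g * τ x * g⁻¹ * (g * τ y * g⁻¹))
      rw [← hc _ (hn y) _ (hn x)]
      have a1 : g * τ y * g⁻¹ * (g * τ x * g⁻¹) = g * (τ y * τ x) * g⁻¹ := by group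
      have a2 : g * τ x * g⁻¹ * (g * τ y * g⁻¹) = g * (τ x * τ y) * g⁻¹ := by group
      rw [a1, a2, map_mul, map_mul, hc _ (hτF y) _ (hτF x), mul_smul_comm, smul_mul_assoc,
        ← map_mul, ← map_mul]
    let ε : E ≃ E :=
      { toFun := σ g
        invFun := σ g⁻¹
        left_inv := fun y => by
          rw [← Module.End.mul_apply, ← map_mul, inv_mul_cancel, map_one, Module.End.one_apply]
        right_inv := fun y => by
          rw [← Module.End.mul_apply, ← map_mul, mul_inv_cancel, map_one, Module.End.one_apply] }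
    unfold symp_q
    rw [mul_smul_comm, smul_mul_assoc, Finset.mul_sum, Finset.sum_mul,
      ← Equiv.sum_comp ε fun y => χ (-y) (σ g x) • Ad y * conjEnd ρ g]
    congr 1
    refine Finset.sum_congr rfl fun y _ => ?_
    change _ = χ (-σ g y) (σ g x) • Ad (σ g y) * conjEnd ρ g
    rw [mul_smul_comm, smul_mul_assoc, e1, ← map_neg, e2]

theorem SymF.relIndex_le [Finite X] [FiniteDimensional k W] [Nontrivial W]
    {ρ : Representation k X W} {F : Subgroup X} (hF : SymF ρ F) :
    (scal ρ).relIndex F ≤ finrank k W ^ 2 := by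
  have := hF.normal
  obtain ⟨M, _, _, σ, π, hE⟩ := exists_secRep F (scal ρ) hF.comm
  let := Fintype.ofFinite M
  obtain ⟨q, e, -, -, he, -⟩ := hF.exists_proj hE
  have hpos : 0 < finrank k W ^ 2 := pow_pos Module.finrank_pos 2
  rw [← hE.card_eq_relIndex, Nat.card_eq_fintype_card, ← he]
  refine Nat.le_mul_of_pos_right _ (Nat.pos_of_ne_zero fun h => ?_)
  rw [← he, h, mul_zero] at hpos
  exact lt_irrefl _ hpos

end Pool.Agent.P.MP_618680_al.FH
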