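import Pool.Agent.P.MP_618680_al.FH.Prim
import Pool.Agent.P.MP_618680_al.FH.Kal
import Pool.Agent.P.MP_618680_al.FH.Imp
import Pool.Agent.P.MP_618680_al.FH.Blk
import Pool.Agent.P.MP_618680_al.FH.SymP
import Pool.Agent.P.MP_618680_al.FH.BC

/-! Soluble linear groups; groups generated by elements of small rank. -/

set_option autoImplicit false

namespace Pool.Agent.P.MP_618680_al.FH

open scoped commutatorElement
open Module

variable {k : Type} [Field k] {X : Type} [Group X] {W : Type} [AddCommGroup W] [Module k W]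


theorem lin_log_le {e d : ℕ} (h : e ≤ d ^ 2) : Nat.log 2 e ≤ 2 * Nat.log 2 d + 1 := by
  rcases Nat.eq_zero_or_pos e with rfl | he
  · simp
  have h1 : d < 2 ^ (Nat.log 2 d + 1) := Nat.lt_pow_succ_log_self (by norm_num) d
  have h2 : e < 2 ^ (2 * Nat.log 2 d + 2) := by
    calc e ≤ d ^ 2 := h
      _ < (2 ^ (Nat.log 2 d + 1)) ^ 2 := Nat.pow_lt_pow_left h1 (by norm_num)
      _ = 2 ^ (2 * Nat.log 2 d + 2) := by rw [← pow_mul]; congr 1; ring
  have h3 := Nat.log_lt_of_lt_pow he.ne' h2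
  omega

theorem lin_num {a e d : ℕ} (ha : a ≤ d) (he : e ≤ d ^ 2) :
    1 + Nat.log 2 e * (Nat.log 2 e + 1) + 3 * Nat.log 2 a ^ 2 + 1 ≤ lam d := by
  have h1 := lin_log_le he
  have h2 : Nat.log 2 a ≤ Nat.log 2 d := Nat.log_mono_right ha
  unfold lam
  generalize Nat.log 2 e = x at *
  generalize Nat.log 2 a = y at *
  generalize Nat.log 2 d = L at *
  have h3 : x * (x + 1) ≤ (2 * L + 1) * (2 * L + 2) := Nat.mul_le_mul h1 (by omega)
  have h4 : y ^ 2 ≤ L ^ 2 := Nat.pow_le_pow_left h2 2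
  nlinarith

theorem lin_irr [IsAlgClosed k] [Finite X] [Group.IsSolvable X] [FiniteDimensional k W]
    (ρ : Representation k X W) (hρ : Irr ρ) {d t : ℕ} (hd : finrank k W ≤ d)
    (ht : t + 1 = lam d) : nresN t ⊤ ≤ ρ.ker := by
  obtain ⟨X0, U, hB, hdim, hq⟩ := exists_blocks ρ hρ
  have : Nontrivial (U ((1 : X) : X ⧸ X0)) := hq.1.1
  have hU : 0 < finrank k (U ((1 : X) : X ⧸ X0)) := finrank_pos
  have hi : 0 < X0.index := Nat.pos_of_ne_zero Subgroup.index_ne_zero_of_finite
  have hi' : X0.index ≤ d := le_trans (Nat.le_mul_of_pos_right _ hU) (hdim.le.trans hd)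
  have hU' : finrank k (U ((1 : X) : X ⧸ X0)) ≤ d :=
    le_trans (Nat.le_mul_of_pos_left _ hi) (hdim.le.trans hd)
  obtain ⟨F, hF⟩ := exists_symF hq
  have := hF.normal
  have he : (scal hB.base).relIndex F ≤ d ^ 2 :=
    hF.relIndex_le.trans (Nat.pow_le_pow_left hU' 2)
  have hnum := lin_num hi' he
  have h1 := perm_bound X X0
  have h2 := (nresN_le_secCent F (scal hB.base)).trans hF.cent
  have h3 := nresN_trans (b := 1) h2 ((nresN_one F).le.trans hF.nres_le_ker)
  refine hB.le_ker _ ((nresN_anti (by omega) ⊤).trans h1) ?_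
  have h4 := nresN_trans h1 (map_nresN_top (1 + Nat.log 2 ((scal hB.base).relIndex F) *
    (Nat.log 2 ((scal hB.base).relIndex F) + 1)) X0).ge
  intro x hx
  have h5 := h4 (nresN_anti (by omega) ⊤ (Subgroup.mem_subgroupOf.1 hx))
  obtain ⟨x', hx', e⟩ := h5
  have e' : x' = x := Subtype.ext e
  exact h3 (e' ▸ hx')

theorem lin_card_conj {M : Type} [AddCommGroup M] [Finite M] (σ : Representation ℤ X M)
    (g u : X) : Nat.card (LinearMap.range (σ (g * u * g⁻¹) - 1)) ≤
      Nat.card (LinearMap.range (σ u - 1)) := by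
  have key : ∀ v : M, (σ (g * u * g⁻¹) - 1) v = σ g ((σ u - 1) (σ g⁻¹ v)) := by
    intro v
    have h : σ g (σ g⁻¹ v) = v := by
      rw [← Module.End.mul_apply, ← map_mul, mul_inv_cancel, map_one, Module.End.one_apply]
    rw [LinearMap.sub_apply, LinearMap.sub_apply, map_sub, map_mul, map_mul,
      Module.End.mul_apply, Module.End.mul_apply, Module.End.one_apply, Module.End.one_apply, h]
  have hinv : ∀ v : M, σ g⁻¹ (σ g v) = v := fun v => by
    rw [← Module.End.mul_apply, ← map_mul, inv_mul_cancel, map_one, Module.End.one_apply]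
  refine Nat.card_le_card_of_surjective
    (fun w : LinearMap.range (σ u - 1) => (⟨σ g w, ?_⟩ : LinearMap.range (σ (g * u * g⁻¹) - 1))) ?_
  · obtain ⟨w, v, rfl⟩ := w
    exact ⟨σ g v, by rw [key, hinv]⟩
  · rintro ⟨w, v, rfl⟩
    exact ⟨⟨(σ u - 1) (σ g⁻¹ v), σ g⁻¹ v, rfl⟩, Subtype.ext (key v).symm⟩

theorem lin_card_range_mul {M : Type} [AddCommGroup M] (f : M →ₗ[ℤ] M) :
    Nat.card M = Nat.card (LinearMap.ker f) * Nat.card (LinearMap.range f) := by
  rw [Submodule.card_eq_card_quotient_mul_card (LinearMap.ker f),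
    Nat.card_congr f.quotKerEquivRange.toEquiv]

theorem lin [IsAlgClosed k] [Finite X] [Group.IsSolvable X] [FiniteDimensional k W]
    (ρ : Representation k X W) {d : ℕ} (hd : finrank k W ≤ d) : nresN (lam d) ⊤ ≤ ρ.ker := by
  obtain ⟨t, ht⟩ : ∃ t, t + 1 = lam d := ⟨lam d - 1, Nat.sub_add_cancel (lam_pos d)⟩
  rw [← ht, nresN_succ]
  exact kal_k ρ _ fun W' _ _ _ ρ' hρ' hdom => lin_irr ρ' hρ' (hdom.1.trans hd) ht

theorem finrank_le_of_gen [IsAlgClosed k] [Finite X] [Group.IsSolvable X] [FiniteDimensional k W]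
    {ρ : Representation k X W} (hρ : Irr ρ) (S : Set X) (hS : Subgroup.closure S = ⊤) {c : ℕ}
    (h : ∀ y ∈ S, movDim ρ y ≤ c) : finrank k W ≤ 6 * c + 1 := by
  obtain ⟨X0, U, hB, hdim, hq⟩ := exists_blocks ρ hρ
  by_cases h0 : X0 = ⊤
  · have hmem : ∀ x : X, x ∈ X0 := fun x => by rw [h0]; exact Subgroup.mem_top x
    have hi : X0.index = 1 := Subgroup.index_eq_one.2 h0
    rw [hi, one_mul] at hdim
    rw [← hdim]
    by_cases hsc : ∀ y ∈ S, (⟨y, hmem y⟩ : X0) ∈ scal hB.base
    · have htop : scal hB.base = ⊤ := by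
        rw [eq_top_iff]
        intro x _
        have h1 : Subgroup.closure S ≤ (scal hB.base).map X0.subtype :=
          (Subgroup.closure_le _).2 fun y hy => ⟨⟨y, hmem y⟩, hsc y hy, rfl⟩
        rw [hS] at h1
        obtain ⟨x', hx', e⟩ := h1 (Subgroup.mem_top (x : X))
        have e' : x' = x := Subtype.ext e
        exact e' ▸ hx'
      have := finrank_le_one_of_scal hq.1 htop
      omega
    · simp only [not_forall] at hsc
      obtain ⟨y, hy, hy'⟩ := hsc
      obtain ⟨F, hF⟩ := exists_symF hq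
      have h1 := hF.finrank_le hy'
      have h2 := hB.movDim_base_le ⟨y, hmem y⟩
      have h3 := h y hy
      change _ ≤ movDim ρ y at h2
      omega
  · obtain ⟨y, hy, h1⟩ := exists_moves_half S hS X0 h0
    have h2 := hB.ncard_moved_le y
    have h3 := h y hy
    have h4 := Nat.mul_le_mul_right (finrank k (U ((1 : X) : X ⧸ X0))) h1
    rw [hdim, mul_assoc] at h4
    omega

theorem sr_k [IsAlgClosed k] [Finite X] [Group.IsSolvable X] [FiniteDimensional k W]
    (ρ : Representation k X W) (S : Set X) (hS : Subgroup.closure S = ⊤) {c : ℕ}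
    (h : ∀ y ∈ S, movDim ρ y ≤ c) : nresN (lam (6 * c + 1) + 1) ⊤ ≤ ρ.ker := by
  rw [nresN_succ]
  exact kal_k ρ _ fun W' _ _ _ ρ' hρ' hdom => lin ρ'
    (finrank_le_of_gen hρ' S hS fun y hy => (hdom.2 y).2.trans (h y hy))

theorem sr_Z [Finite X] [Group.IsSolvable X] {M : Type} [AddCommGroup M] [Finite M]
    (σ : Representation ℤ X M) (S : Set X) (hS : Subgroup.closure S = ⊤) {c : ℕ}
    (h : ∀ y ∈ S, Nat.card (LinearMap.range (σ y - 1)) ≤ c) : nresN (srb c) ⊤ ≤ σ.ker := by
  have e : srb c = (lam (6 * c + 1) + 1) + 1 := rfl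
  rw [e, nresN_succ]
  refine kal_Z σ _ fun M' _ _ σ' r hr hrv hle => ?_
  obtain ⟨k, _, _, W, _, _, _, τ, hker, hτ⟩ := exists_baseChange σ' hr hrv
  rw [← hker]
  refine sr_k τ S hS fun y hy => ?_
  have h1 : movDim τ y < r ^ movDim τ y := Nat.lt_pow_self hr.one_lt
  rw [(hτ y).2] at h1
  exact h1.le.trans ((hle y).trans (h y hy))

/-- An element centralising a subgroup of index at most `c` of an abelian normal section has a
normal closure of bounded height on that section. -/
theorem sr_sec [Finite X] [Group.IsSolvable X] (A B : Subgroup X) [A.Normal] [B.Normal]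
    (hBA : B ≤ A) (hc : ⁅A, A⁆ ≤ B) (u : X) {c : ℕ}
    (h : Nat.card A ≤ c * (fixS A B u).ncard) :
    nresN (srb c) (Subgroup.normalClosure {u}) ≤ secCent A B := by
  obtain ⟨M, _, _, σ, π, hs⟩ := exists_secRep A B hc
  have hu : Nat.card (LinearMap.range (σ u - 1)) ≤ c := by
    rw [← hs.card hBA, ← hs.card_fix hBA u, ← mul_assoc] at h
    have h1 := Nat.le_of_mul_le_mul_right h (Nat.card_pos (α := B))
    rw [lin_card_range_mul (σ u - 1), mul_comm c] at h1
    exact Nat.le_of_mul_le_mul_left h1 Nat.card_pos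
  refine nresN_le_of_top ?_
  have h1 := sr_Z (X := Subgroup.normalClosure ({u} : Set X))
    (σ.comp (Subgroup.normalClosure ({u} : Set X)).subtype)
    (Subtype.val ⁻¹' Group.conjugatesOfSet ({u} : Set X))
    Subgroup.closure_closure_coe_preimage (c := c) (by
      rintro ⟨y, hy⟩ hy'
      obtain ⟨a, ha, hconj⟩ := Group.mem_conjugatesOfSet_iff.1 hy'
      rw [Set.mem_singleton_iff] at ha
      subst ha
      obtain ⟨g, hg⟩ := isConj_iff.1 hconj
      change g * a * g⁻¹ = y at hg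
      subst hg
      exact (lin_card_conj σ g a).trans hu)
  refine h1.trans fun x hx => ?_
  rw [Subgroup.mem_subgroupOf, ← hs.ker_eq]
  exact hx

end Pool.Agent.P.MP_618680_al.FH
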