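import Pool.Agent.P.MP_618680_al.FH.Res

/-! Abelian groups with the minimal condition. -/

set_option autoImplicit false
set_option linter.style.haveILetI false

namespace Pool.Agent.P.MP_618680_al.FH

open scoped commutatorElement
open Module

variable {G : Type} [Group G]

theorem loca_exp_finite {A : Type} [CommGroup A] (hw : WellFoundedLT (Subgroup A)) {q : ℕ}
    (hq : 0 < q) (h : ∀ x : A, x ^ q = 1) : Finite A := by
  haveI : NeZero q := ⟨hq.ne'⟩
  letI : Module (ZMod q) (Additive A) :=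
    AddCommGroup.zmodModule (n := q) (G := Additive A) fun x => h x.toMul
  haveI : IsArtinian (ZMod q) (Additive A) := by
    let f : Submodule (ZMod q) (Additive A) → Subgroup A :=
      fun S => AddSubgroup.toSubgroup' S.toAddSubgroup
    have hf : StrictMono f := fun S T hST =>
      (AddSubgroup.toSubgroup' (G := A)).strictMono (Submodule.toAddSubgroup_strictMono hST)
    exact hf.wellFoundedLT
  haveI : Module.Finite (ZMod q) (Additive A) :=
    ((IsArtinianRing.tfae (ZMod q) (Additive A)).out 0 2).2 this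
  exact Module.finite_of_finite (ZMod q) (M := Additive A)

theorem loca_wf_sub {A : Type} [Group A] (hw : WellFoundedLT (Subgroup A)) (T : Subgroup A) :
    WellFoundedLT (Subgroup T) :=
  (Monotone.strictMono_of_injective (fun _ _ h => Subgroup.map_mono h)
    (Subgroup.map_injective T.subtype_injective)).wellFoundedLT

theorem loca_tor_finite {A : Type} [CommGroup A] (hw : WellFoundedLT (Subgroup A)) {q : ℕ}
    (hq : 0 < q) : {x : A | x ^ q = 1}.Finite := by
  have h : Finite (powMonoidHom q : A →* A).ker :=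
    loca_exp_finite (loca_wf_sub hw _) hq fun x => Subtype.ext x.2
  exact Set.toFinite ((powMonoidHom q : A →* A).ker : Set A)

/-- Torsion of bounded exponent is finite. -/
theorem tor_finite (D : Subgroup G) (hD : ∀ x ∈ D, ∀ y ∈ D, x * y = y * x)
    (hw : WellFoundedLT (Subgroup D)) {q : ℕ} (hq : 0 < q) : (tor D q).Finite := by
  letI : CommGroup D :=
    { (inferInstance : Group D) with mul_comm := fun a b => Subtype.ext (hD a a.2 b b.2) }
  refine ((loca_tor_finite (A := D) hw hq).image Subtype.val).subset fun x hx => ?_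
  exact ⟨⟨x, hx.1⟩, Subtype.ext hx.2, rfl⟩

/-- Elements whose order has only large prime divisors. -/
def locaD (A : Type) [CommGroup A] (j : ℕ) : Subgroup A where
  carrier := {x | ∃ m : ℕ, x ^ m = 1 ∧ ∀ p : ℕ, p.Prime → p ∣ m → j < p}
  one_mem' := ⟨1, one_pow 1, fun p hp h => absurd (Nat.dvd_one.1 h) hp.ne_one⟩
  mul_mem' := by
    rintro a b ⟨m, h1, h2⟩ ⟨m', k1, k2⟩
    refine ⟨m * m', ?_, fun p hp h => ((Nat.Prime.dvd_mul hp).1 h).elim (h2 p hp) (k2 p hp)⟩
    rw [mul_pow, pow_mul, h1, one_pow, mul_comm m, pow_mul, k1, one_pow, one_mul]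
  inv_mem' := by
    rintro a ⟨m, h1, h2⟩
    exact ⟨m, by rw [inv_pow, h1, inv_one], h2⟩

theorem loca_primes {A : Type} [CommGroup A] (hw : WellFoundedLT (Subgroup A)) :
    ∃ j : ℕ, ∀ p : ℕ, p.Prime → j < p → ∀ x : A, x ^ p = 1 → x = 1 := by
  obtain ⟨_, ⟨j, rfl⟩, hj⟩ := hw.wf.has_min (Set.range (locaD A)) ⟨_, 0, rfl⟩
  refine ⟨j, fun p hp hjp x hx => ?_⟩
  have h1 : locaD A p ≤ locaD A j := by
    rintro y ⟨m, k1, k2⟩
    exact ⟨m, k1, fun r hr h => hjp.trans (k2 r hr h)⟩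
  have h2 : locaD A p = locaD A j := eq_of_le_of_not_lt h1 (hj _ ⟨p, rfl⟩)
  have h3 : x ∈ locaD A j :=
    ⟨p, hx, fun r hr h => by rwa [(Nat.prime_dvd_prime_iff_eq hr hp).1 h]⟩
  rw [← h2] at h3
  obtain ⟨m, k1, k2⟩ := h3
  have h4 : Nat.Coprime p m := (Nat.Prime.coprime_iff_not_dvd hp).2 fun h => lt_irrefl _ (k2 p hp h)
  exact (pow_eq_one_iff_of_coprime h4).1 ⟨hx, k1⟩

/-- Only finitely many primes occur. -/
theorem primes_finite (D : Subgroup G) (hD : ∀ x ∈ D, ∀ y ∈ D, x * y = y * x)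
    (hw : WellFoundedLT (Subgroup D)) :
    {p : ℕ | p.Prime ∧ ∃ x ∈ D, x ≠ 1 ∧ x ^ p = 1}.Finite := by
  letI : CommGroup D :=
    { (inferInstance : Group D) with mul_comm := fun a b => Subtype.ext (hD a a.2 b b.2) }
  obtain ⟨j, hj⟩ := loca_primes (A := D) hw
  refine (Set.finite_le_nat j).subset ?_
  rintro p ⟨hp, x, hx, h1, h2⟩
  by_contra hc
  exact h1 (congrArg Subtype.val (hj p hp (not_le.1 hc) ⟨x, hx⟩ (Subtype.ext h2)))

/-- The `p`-component. -/
def locaQ (D : Subgroup G) (hD : ∀ x ∈ D, ∀ y ∈ D, x * y = y * x) (p : ℕ) : Subgroup G where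
  carrier := {x | x ∈ D ∧ ∃ e : ℕ, x ^ p ^ e = 1}
  one_mem' := ⟨D.one_mem, 0, one_pow _⟩
  mul_mem' := by
    rintro a b ⟨ha, e, h1⟩ ⟨hb, e', k1⟩
    refine ⟨D.mul_mem ha hb, e + e', ?_⟩
    rw [Commute.mul_pow (hD a ha b hb), pow_add, pow_mul, h1, one_pow, mul_comm (p ^ e), pow_mul, k1,
      one_pow, one_mul]
  inv_mem' := by
    rintro a ⟨ha, e, h1⟩
    exact ⟨D.inv_mem ha, e, by rw [inv_pow, h1, inv_one]⟩

theorem loca_triv {D : Subgroup G} {p : ℕ} (h : ∀ x ∈ D, x ^ p = 1 → x = 1) (e : ℕ) :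
    (tor D (p ^ e)).ncard ≤ 1 := by
  have h1 : ∀ x ∈ D, x ^ p ^ e = 1 → x = 1 := by
    induction e with
    | zero => intro x _ hx; simpa using hx
    | succ e ih =>
      intro x hx hx'
      rw [pow_succ, pow_mul] at hx'
      exact ih x hx (h _ (D.pow_mem hx _) hx')
  rw [← Set.ncard_singleton (1 : G)]
  exact Set.ncard_le_ncard (fun x hx => h1 x hx.1 hx.2) (Set.finite_singleton _)

/-- A uniform bound for all torsion sets that are used. -/
theorem exists_tor_bound (D : Subgroup G) (hD : ∀ x ∈ D, ∀ y ∈ D, x * y = y * x)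
    (hw : WellFoundedLT (Subgroup D)) {n : ℕ} (hn : 0 < n) : ∃ c : ℕ, (tor D n).ncard ≤ c ∧
      (∀ r : ℕ, r.Prime → (tor D r).ncard ≤ c) ∧
      ∀ p : ℕ, p.Prime → (∀ Q : Subgroup G, Q ≤ D → IsPGroup p Q → Finite Q) →
        ∀ e : ℕ, (tor D (p ^ e)).ncard ≤ c := by
  obtain ⟨b, hb⟩ := ((primes_finite D hD hw).image fun p =>
    (tor D p).ncard + (locaQ D hD p : Set G).ncard).bddAbove
  have hno : ∀ p : ℕ, p.Prime → p ∉ {p : ℕ | p.Prime ∧ ∃ x ∈ D, x ≠ 1 ∧ x ^ p = 1} →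
      ∀ x ∈ D, x ^ p = 1 → x = 1 := fun p hp h x hx hx' => by
    by_contra hc
    exact h ⟨hp, x, hx, hc, hx'⟩
  refine ⟨(tor D n).ncard + b + 1, by omega, fun r hr => ?_, fun p hp hQ e => ?_⟩
  · by_cases h : r ∈ {p : ℕ | p.Prime ∧ ∃ x ∈ D, x ≠ 1 ∧ x ^ p = 1}
    · have h1 : (tor D r).ncard + (locaQ D hD r : Set G).ncard ≤ b := hb ⟨r, h, rfl⟩
      omega
    · have h1 := loca_triv (hno r hr h) 1
      rw [pow_one] at h1
      omega
  · by_cases h : p ∈ {p : ℕ | p.Prime ∧ ∃ x ∈ D, x ≠ 1 ∧ x ^ p = 1}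
    · have h1 : (tor D p).ncard + (locaQ D hD p : Set G).ncard ≤ b := hb ⟨p, h, rfl⟩
      haveI : Finite (locaQ D hD p) := hQ _ (fun x hx => hx.1) fun x =>
        x.2.2.imp fun e he => Subtype.ext he
      have h2 : (tor D (p ^ e)).ncard ≤ (locaQ D hD p : Set G).ncard :=
        Set.ncard_le_ncard (fun x hx => ⟨hx.1, e, hx.2⟩) (Set.toFinite _)
      omega
    · have h1 := loca_triv (hno p hp h) e
      omega

end Pool.Agent.P.MP_618680_al.FH
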