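import Pool.Agent.P.MP_618680_al.FH.Res

/-! Unions of Sylow subgroups; local character of the derived length. -/

set_option autoImplicit false

namespace Pool.Agent.P.MP_618680_al.FH

open scoped commutatorElement
open Module

variable {G : Type} [Group G]

theorem locb_of_map {Y : Type} [Group Y] (f : G →* Y) (hf : Function.Injective f)
    {K : Subgroup G} {L : Subgroup Y} (h : K.map f ≤ L) {j : ℕ} (hL : der L j = ⊥) :
    der K j = ⊥ := by
  have h1 := der_mono h j
  rw [hL, ← map_der, le_bot_iff] at h1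
  exact (Subgroup.map_eq_bot_iff_of_injective _ hf).1 h1

theorem locb_join (hG : ∀ s : Finset G, Finite (Subgroup.closure (s : Set G))) {p : ℕ}
    (hp : p.Prime) {Q R : Subgroup G} (hQ : Finite Q) (hQp : IsPGroup p Q) (hR : Finite R)
    (hRp : IsPGroup p R) : ∃ S : Subgroup G, (Finite S ∧ IsPGroup p S) ∧ Q ≤ S ∧
      ∀ j, der S j = ⊥ → der R j = ⊥ := by
  have : Fact p.Prime := ⟨hp⟩
  have hf : ((Q : Set G) ∪ R).Finite := (Set.toFinite (Q : Set G)).union (Set.toFinite _)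
  have hΓ := hG hf.toFinset
  rw [hf.coe_toFinset] at hΓ
  set Γ := Subgroup.closure ((Q : Set G) ∪ R)
  have hQΓ : Q ≤ Γ := fun x hx => Subgroup.subset_closure (Or.inl hx)
  have hRΓ : R ≤ Γ := fun x hx => Subgroup.subset_closure (Or.inr hx)
  obtain ⟨P, hP⟩ := (hQp.comap_subtype (K := Γ)).exists_le_sylow
  obtain ⟨P', hP'⟩ := (hRp.comap_subtype (K := Γ)).exists_le_sylow
  obtain ⟨g, hg⟩ := MulAction.exists_smul_eq Γ P' P
  refine ⟨(P : Subgroup Γ).map Γ.subtype, ⟨?_, P.isPGroup'.map _⟩,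
    fun x hx => ⟨⟨x, hQΓ hx⟩, hP hx, rfl⟩, fun j hj => ?_⟩
  · exact Finite.of_equiv _ ((P : Subgroup Γ).equivMapOfInjective _ Γ.subtype_injective).toEquiv
  · refine locb_of_map (MulAut.conj (g : G)).toMonoidHom (MulAut.conj (g : G)).injective ?_ hj
    rintro _ ⟨x, hx, rfl⟩
    refine ⟨MulAut.conj g • (⟨x, hRΓ hx⟩ : Γ), ?_, rfl⟩
    rw [← hg, Sylow.coe_subgroup_smul]
    exact Subgroup.smul_mem_pointwise_smul _ _ _ (hP' hx)

theorem locb_mem (H : Subgroup G) (i : ℕ) : ∀ x ∈ der H i,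
    ∃ s : Finset G, (s : Set G) ⊆ H ∧ x ∈ der (Subgroup.closure (s : Set G)) i := by
  classical
  have hu : ∀ (s t : Finset G) (j : ℕ), der (Subgroup.closure (s : Set G)) j ≤
      der (Subgroup.closure ((s ∪ t : Finset G) : Set G)) j ∧
      der (Subgroup.closure (t : Set G)) j ≤
      der (Subgroup.closure ((s ∪ t : Finset G) : Set G)) j := fun s t j =>
    ⟨der_mono (Subgroup.closure_mono (by simp)) j, der_mono (Subgroup.closure_mono (by simp)) j⟩
  induction i with
  | zero => exact fun x hx => ⟨{x}, by simpa using hx, Subgroup.subset_closure (by simp)⟩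
  | succ i ih =>
    intro x hx
    rw [der_succ, Subgroup.commutator_def] at hx
    induction hx using Subgroup.closure_induction with
    | mem y hy =>
      obtain ⟨a, ha, b, hb, rfl⟩ := hy
      obtain ⟨s, hs, h1⟩ := ih a ha
      obtain ⟨t, ht, h2⟩ := ih b hb
      exact ⟨s ∪ t, by simp [hs, ht],
        Subgroup.commutator_mem_commutator ((hu s t i).1 h1) ((hu s t i).2 h2)⟩
    | one => exact ⟨∅, by simp, one_mem _⟩
    | mul a b _ _ ha hb =>
      obtain ⟨s, hs, h1⟩ := ha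
      obtain ⟨t, ht, h2⟩ := hb
      exact ⟨s ∪ t, by simp [hs, ht], mul_mem ((hu s t _).1 h1) ((hu s t _).2 h2)⟩
    | inv a _ ha =>
      obtain ⟨s, hs, h1⟩ := ha
      exact ⟨s, hs, inv_mem h1⟩

/-- If all `p`-subgroups of a locally finite group are almost soluble, the finite ones have
bounded derived length. -/
theorem exists_pdl (hG : ∀ s : Finset G, Finite (Subgroup.closure (s : Set G))) {p : ℕ}
    (hp : p.Prime) (h : ∀ Q : Subgroup G, IsPGroup p Q →
      ∃ S : Subgroup Q, S.FiniteIndex ∧ Group.IsSolvable S) :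
    ∃ d : ℕ, ∀ Q : Subgroup G, Finite Q → IsPGroup p Q → der Q d = ⊥ := by
  have : Fact p.Prime := ⟨hp⟩
  by_contra hn
  push Not at hn
  choose R h1 h2 h3 using hn
  have hj := fun (Q : {Q : Subgroup G // Finite Q ∧ IsPGroup p Q}) (j : ℕ) =>
    locb_join hG hp Q.2.1 Q.2.2 (h1 j) (h2 j)
  choose S h4 h5 h6 using hj
  let Q : ℕ → {Q : Subgroup G // Finite Q ∧ IsPGroup p Q} := fun n =>
    Nat.rec ⟨⊥, inferInstance, IsPGroup.of_bot⟩ (fun j Q => ⟨S Q j, h4 Q j⟩) n
  have hm : Monotone fun n => (Q n).1 := monotone_nat_of_le_succ fun n => h5 (Q n) n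
  have hU : IsPGroup p (⨆ n, (Q n).1 : Subgroup G) := by
    rintro ⟨x, hx⟩
    obtain ⟨n, hn⟩ := (Subgroup.mem_iSup_of_directed hm.directed_le).1 hx
    obtain ⟨k, hk⟩ := (Q n).2.2 ⟨x, hn⟩
    have hk' : x ^ p ^ k = 1 := congrArg Subtype.val hk
    exact ⟨k, Subtype.ext hk'⟩
  obtain ⟨T, hT, hs⟩ := h _ hU
  have h7 : Group.IsSolvable T.normalCore :=
    Group.isSolvable_of_isSolvable_injective (Subgroup.inclusion_injective T.normalCore_le)
  have h8 := (hU.to_quotient T.normalCore).isNilpotent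
  have h9 : Group.IsSolvable (⨆ n, (Q n).1 : Subgroup G) :=
    (Group.isSolvable_iff_subgroup_quotient T.normalCore).2 ⟨h7, inferInstance⟩
  obtain ⟨i, hi⟩ := exists_der_eq_bot (⨆ n, (Q n).1 : Subgroup G)
  refine h3 i (h6 (Q i) i i (le_bot_iff.1 ?_))
  rw [← hi]
  exact der_mono (le_iSup (fun n => (Q n).1) (i + 1)) i

/-- The derived length is a local property. -/
theorem der_eq_bot_of_local (H : Subgroup G) {δ : ℕ}
    (h : ∀ s : Finset G, (s : Set G) ⊆ H → der (Subgroup.closure (s : Set G)) δ = ⊥) :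
    der H δ = ⊥ := by
  refine le_bot_iff.1 fun x hx => ?_
  obtain ⟨s, hs, h1⟩ := locb_mem H δ x hx
  rwa [h s hs] at h1

end Pool.Agent.P.MP_618680_al.FH
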