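import Pool.Agent.P.MP_618680_al.FH.Bound
import Pool.Agent.P.MP_618680_al.FH.LocA
import Pool.Agent.P.MP_618680_al.FH.LocB
import Pool.Agent.P.MP_618680_al.Main

/-! Locally finite groups with a locally soluble subgroup of finite index. -/

set_option autoImplicit false

namespace Pool.Agent.P.MP_618680_al.FH

open scoped commutatorElement
open Module

theorem loc_elt {G : Type} [Group G] {D : Subgroup G} {p : ℕ} (k : ℕ) : ∀ x ∈ D, x ≠ 1 →
    x ^ p ^ k = 1 → ∃ y ∈ D, y ≠ 1 ∧ y ^ p = 1 := by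
  induction k with
  | zero => exact fun x _ h1 h2 => absurd (by simpa using h2) h1
  | succ k ih =>
    intro x hx h1 h2
    by_cases h : x ^ p = 1
    · exact ⟨x, hx, h1, h⟩
    · exact ih _ (D.pow_mem hx p) h (by rw [← pow_mul, ← pow_succ', h2])

theorem loc_meet {G : Type} [Group G] {D Q : Subgroup G} {p : ℕ} (h : D.relIndex Q ≠ 0)
    (hQ : IsPGroup p Q) [Infinite Q] : ∃ y ∈ D, y ≠ 1 ∧ y ^ p = 1 := by
  have h1 : D.subgroupOf Q ≠ ⊥ := fun e => h (by
    rw [Subgroup.relIndex, e, Subgroup.index_bot, Nat.card_eq_zero_of_infinite])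
  obtain ⟨⟨x, hx⟩, h2⟩ := Subgroup.ne_bot_iff_exists_ne_one.1 h1
  obtain ⟨k, hk⟩ := hQ x
  exact loc_elt k x hx (fun e => h2 (Subtype.ext (Subtype.ext e))) (congrArg Subtype.val hk)

theorem loc_solv {G : Type} [Group G] {N : Subgroup G}
    (hN : ∀ s : Finset G, (s : Set G) ⊆ N → Group.IsSolvable (Subgroup.closure (s : Set G)))
    (g : G) {s : Set G} (hs : s ⊆ N.normalCore) [Finite (Subgroup.closure (insert g s))] :
    Group.IsSolvable (Subgroup.closure (insert g s)) := by
  have h1 : der (Subgroup.closure (insert g s)) 1 ≤ N.normalCore := by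
    refine der_le_of_map (le_bot_iff.1 ((der_mono
      (L := Subgroup.zpowers (QuotientGroup.mk' N.normalCore g)) ?_ 1).trans ?_))
    · rw [Subgroup.map_le_iff_le_comap, Subgroup.closure_le]
      rintro x (rfl | hx)
      · exact Subgroup.mem_zpowers _
      · have h2 : QuotientGroup.mk' N.normalCore x = 1 := (QuotientGroup.eq_one_iff x).2 (hs hx)
        exact Subgroup.mem_comap.2 (h2 ▸ one_mem _)
    · refine Subgroup.commutator_le.2 ?_
      rintro _ ⟨i, rfl⟩ _ ⟨j, rfl⟩
      exact commutatorElement_eq_one_iff_commute.2 ((Commute.refl _).zpow_zpow i j)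
  have h2 : ((der (Subgroup.closure (insert g s)) 1 : Subgroup G) : Set G).Finite :=
    (Set.toFinite (Subgroup.closure (insert g s) : Set G)).subset (der_le _ 1)
  have h3 := hN h2.toFinset (by
    rw [h2.coe_toFinset]
    exact h1.trans N.normalCore_le)
  rw [h2.coe_toFinset, Subgroup.closure_eq] at h3
  obtain ⟨i, hi⟩ := exists_der_eq_bot (der (Subgroup.closure (insert g s)) 1)
  exact isSolvable_of_der ((der_add _ 1 i).trans hi)

theorem loc_tor {G : Type} [Group G] {D : Subgroup G} (Γ : Subgroup G) {q c : ℕ}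
    (h : (tor D q).Finite) (hc : (tor D q).ncard ≤ c) : (tor (D.subgroupOf Γ) q).ncard ≤ c :=
  (Set.ncard_le_ncard_of_injOn (t := tor D q) Subtype.val
    (fun _ hx => And.intro hx.1 (congrArg Subtype.val hx.2)) Subtype.val_injective.injOn h).trans hc

theorem hartley_locSol {n : ℕ} (hn : 0 < n) : ∃ P : ℕ, ∀ (G : Type) [Group G],
    (∀ s : Finset G, Finite (Subgroup.closure (s : Set G))) → ∀ g : G, g ^ n = 1 →
    (WellFoundedLT (Subgroup (Subgroup.centralizer ({g} : Set G))) ∧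
      ∃ A : Subgroup (Subgroup.centralizer ({g} : Set G)),
        A.FiniteIndex ∧ ∀ x ∈ A, ∀ y ∈ A, x * y = y * x) →
    (∃ N : Subgroup G, N.FiniteIndex ∧ ∀ s : Finset G, (s : Set G) ⊆ N →
      Group.IsSolvable (Subgroup.closure (s : Set G))) →
    (∀ p : ℕ, p.Prime → (p ≤ P ∨ ∃ Q : Subgroup G, Q ≤ Subgroup.centralizer ({g} : Set G) ∧
        IsPGroup p Q ∧ Infinite Q) →
      ∀ Q : Subgroup G, IsPGroup p Q → ∃ S : Subgroup Q, S.FiniteIndex ∧ Group.IsSolvable S) →
    ∃ H : Subgroup G, H.FiniteIndex ∧ Group.IsSolvable H := by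
  classical
  obtain ⟨P, hK⟩ := kreknin_group hn
  refine ⟨max P n, fun G _ hG g hg ⟨hw, A, hA, hAc⟩ ⟨N, _, hN⟩ hp => ?_⟩
  obtain ⟨D, hD⟩ : ∃ D, D = A.map (Subgroup.centralizer ({g} : Set G)).subtype := ⟨_, rfl⟩
  have hDC : D ≤ Subgroup.centralizer ({g} : Set G) := hD ▸ Subgroup.map_subtype_le A
  have hDc : ∀ x ∈ D, ∀ y ∈ D, x * y = y * x := by
    rw [hD]
    rintro _ ⟨x, hx, rfl⟩ _ ⟨y, hy, rfl⟩
    exact congrArg Subtype.val (hAc x hx y hy)
  have hDw : WellFoundedLT (Subgroup D) :=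
    StrictMono.wellFoundedLT (f := Subgroup.map (Subgroup.inclusion hDC))
      (Monotone.strictMono_of_injective (fun _ _ => Subgroup.map_mono)
        (Subgroup.map_injective (Subgroup.inclusion_injective hDC)))
  have hI : D.relIndex (Subgroup.centralizer ({g} : Set G)) ≠ 0 := by
    rw [hD, Subgroup.relIndex, Subgroup.subgroupOf,
      Subgroup.comap_map_eq_self_of_injective (Subgroup.subtype_injective _)]
    exact hA.index_ne_zero
  obtain ⟨c, hc1, hc2, hc3⟩ := exists_tor_bound D hDc hDw hn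
  have hS : {p : ℕ | p.Prime ∧ (p ≤ max P n ∨ ∃ Q : Subgroup G,
      Q ≤ Subgroup.centralizer ({g} : Set G) ∧ IsPGroup p Q ∧ Infinite Q)}.Finite := by
    refine ((Set.finite_le_nat (max P n)).union (primes_finite D hDc hDw)).subset ?_
    rintro p ⟨h1, h2 | ⟨Q, h2, h3, h4⟩⟩
    · exact .inl h2
    · exact .inr ⟨h1, loc_meet (fun e => hI (Subgroup.relIndex_eq_zero_of_le_right h2 e)) h3⟩
  have key : ∀ p : ℕ, ∃ d : ℕ, p ∈ hS.toFinset →
      ∀ Q : Subgroup G, Finite Q → IsPGroup p Q → der Q d = ⊥ := fun p => by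
    by_cases h : p ∈ hS.toFinset
    · obtain ⟨h1, h2⟩ := hS.mem_toFinset.1 h
      exact (exists_pdl hG h1 (hp p h1 h2)).imp fun _ h3 _ => h3
    · exact ⟨0, fun h1 => absurd h1 h⟩
  choose d hd using key
  obtain ⟨δ, hδ⟩ := fin_bound (P := P) hn hK (D.relIndex (Subgroup.centralizer ({g} : Set G))) c
    (hS.toFinset.sup d)
  refine ⟨N.normalCore, inferInstance, isSolvable_of_der (i := δ)
    (der_eq_bot_of_local _ fun s hs => ?_)⟩
  have hf : Finite (Subgroup.closure (insert g (s : Set G))) := by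
    rw [← Finset.coe_insert]
    exact hG _
  have hsol := loc_solv hN g hs
  refine le_bot_iff.1 ((der_mono (Subgroup.closure_mono (Set.subset_insert g _)) δ).trans ?_)
  have hgΓ : g ∈ Subgroup.closure (insert g (s : Set G)) :=
    Subgroup.subset_closure (Set.mem_insert _ _)
  generalize Subgroup.closure (insert g (s : Set G)) = Γ at hf hsol hgΓ
  rw [le_bot_iff, der_eq_bot_iff, ← der_top]
  refine hδ Γ ⟨g, hgΓ⟩ (D.subgroupOf Γ) (Subtype.ext hg) (fun x hx => ?_)
    (fun x hx y hy => Subtype.ext (hDc x hx y hy)) ?_ (loc_tor Γ (tor_finite D hDc hDw hn) hc1)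
    (fun r hr => loc_tor Γ (tor_finite D hDc hDw hr.pos) (hc2 r hr)) fun p h1 => ?_
  · exact Subgroup.mem_centralizer_singleton_iff.2
      (Subtype.ext (Subgroup.mem_centralizer_singleton_iff.1 (hDC hx)))
  · rw [Subgroup.subgroupOf, Subgroup.relIndex_comap]
    refine Subgroup.relIndex_le_of_le_right ?_ hI
    rintro _ ⟨x, hx, rfl⟩
    exact Subgroup.mem_centralizer_singleton_iff.2
      (congrArg Subtype.val (Subgroup.mem_centralizer_singleton_iff.1 hx))
  · by_cases h : p ∈ hS.toFinset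
    · refine .inl fun Q hQ => le_bot_iff.1 ((der_anti Q (Finset.le_sup h)).trans ?_)
      have h2 := hd p h (Q.map Γ.subtype)
        (Finite.of_surjective _ (Γ.subtype.subgroupMap_surjective Q)) (hQ.map _)
      rw [← map_der, Subgroup.map_eq_bot_iff_of_injective _ Γ.subtype_injective] at h2
      exact h2.le
    · have h2 := mt (fun h3 => hS.mem_toFinset.2 ⟨h1, h3⟩) h
      rw [not_or, not_le, max_lt_iff] at h2
      refine .inr ⟨h2.1.1, Nat.not_dvd_of_pos_of_lt hn h2.1.2, fun e =>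
        loc_tor Γ (tor_finite D hDc hDw (pow_pos h1.pos e)) (hc3 p h1 (fun Q h3 h4 => ?_) e)⟩
      exact not_infinite_iff_finite.1 fun h5 => h2.2 ⟨Q, h3.trans hDC, h4, h5⟩

end Pool.Agent.P.MP_618680_al.FH
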