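import Pool.Agent.P.MP_618680_al.FH.PL

/-! The main theorem. -/

set_option autoImplicit false

namespace Pool.Agent.P.MP_618680_al.FH

open scoped commutatorElement
open Module

/-- The case of a normal subgroup `L`. -/
theorem ml_normal {N α c : ℕ} (hP : PStat N α c) {X : Type} [Group X] [Finite X]
    [Group.IsSolvable X] (g : X) {μ h0 : ℕ} (hS : Star g μ) (K L : Subgroup X) [K.Normal]
    [L.Normal] (hg : g ^ N ∈ L) (hI : IH K g N h0) : nresN (bnd α c h0 μ + 1) K ≤ L := by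
  rw [nresN_succ]
  refine (nres_le_of_layers (L ⊓ K) K _ inf_le_right (nresN_le _ K) ?_).trans inf_le_left
  rintro A B hA hB h1 h2 h3 h4 ⟨r, hr, h5⟩
  obtain ⟨M, _, _, σ, π, hσ⟩ := exists_secRep A B h4
  obtain ⟨k, _, _, W, _, _, _, τ, h6, h7⟩ := exists_baseChange σ hr (hσ.nsmul_eq_zero h5)
  rw [hσ.ker_eq] at h6
  rw [← le_secCent_iff, ← h6]
  refine hP k X W τ K g h0 μ hI ?_ ?_
  · rw [← MonoidHom.mem_ker, h6, mem_secCent]
    intro a ha
    refine h1 ⟨?_, ?_⟩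
    · rw [commutatorElement_def]
      exact L.mul_mem (Subgroup.Normal.conj_mem ‹_› _ hg a) (L.inv_mem hg)
    · rw [commutatorElement_def, mul_assoc, mul_assoc, ← mul_assoc (g ^ N)]
      exact K.mul_mem (h3 ha) (Subgroup.Normal.conj_mem ‹_› _ (K.inv_mem (h3 ha)) _)
  · have h8 := hS A B h2 (by rw [Subgroup.normalizer_eq_top]; trivial)
      (by rw [Subgroup.normalizer_eq_top]; trivial) h4 ⟨r, hr, h5⟩
    rw [← hσ.card_fix h2, ← (h7 g).1] at h8
    have h9 := Nat.le_of_mul_le_mul_right h8 Nat.card_pos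
    exact (Nat.pow_le_pow_iff_right one_lt_two).1 ((Nat.pow_le_pow_left hr.two_le _).trans h9)

/-- The statement of the main theorem with given constants. -/
def MStat (N α c : ℕ) : Prop := ∀ (X : Type) [Group X] [Finite X]
    [Group.IsSolvable X] (g : X) (μ : ℕ), Star g μ → ∀ (K : Subgroup X) [K.Normal]
    (L : Subgroup X), g ^ N ∈ L → K ≤ Subgroup.normalizer (L : Set X) →
    nresN (bnd α c 0 μ) K ≤ L

theorem MStat.mono {N α c α' c' : ℕ} (h : MStat N α c) (h1 : α ≤ α') (h2 : c ≤ c') :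
    MStat N α' c' := fun X _ _ _ g μ hS K _ L hg hK =>
  (nresN_anti (bnd_mono h1 h2 le_rfl) K).trans (h X g μ hS K L hg hK)

theorem mstat_step {N α c αp cp : ℕ} (hN : 0 < N) (hP : PStat N αp cp)
    (ih : ∀ N', 0 < N' → N' < N → MStat N' α c) : MStat N (αp * (α + 1) + 1) (c + cp) := by
  intro X _ _ _ g μ hS K _ L hg hK
  set Y := K ⊔ Subgroup.zpowers g with hY
  have hgY : g ∈ Y := Subgroup.mem_sup_right (Subgroup.mem_zpowers g)
  have hKY : K ≤ Y := le_sup_left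
  have hS' := hS.subgroup Y hgY
  have hI : IH (K.subgroupOf Y) (⟨g, hgY⟩ : Y) N (bnd α c 0 μ) := by
    intro i p hp hpN L' h1 h2
    rw [nresN_add]
    exact ih (N / p) (Nat.div_pos (Nat.le_of_dvd hN hpN) hp.pos) (Nat.div_lt_self hN hp.one_lt)
      Y _ μ hS' _ L' h1 h2
  have h1 := ml_normal hP _ hS' (K.subgroupOf Y)
    (Subgroup.normalClosure {(⟨g, hgY⟩ : Y) ^ N}) (Subgroup.subset_normalClosure rfl) hI
  have h2 : Subgroup.normalClosure {(⟨g, hgY⟩ : Y) ^ N} ≤ L.subgroupOf Y := by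
    refine (Subgroup.closure_le _).2 fun z hz => ?_
    obtain ⟨a, ha, hz⟩ := Group.mem_conjugatesOfSet_iff.1 hz
    obtain ⟨⟨y, hy⟩, rfl⟩ := isConj_iff.1 hz
    rw [Set.mem_singleton_iff.1 ha]
    have hy' : y ∈ ((K ⊔ Subgroup.zpowers g : Subgroup X) : Set X) := hy
    rw [Subgroup.normal_mul] at hy'
    obtain ⟨a, ha, _, ⟨i, rfl⟩, rfl⟩ := hy'
    have h3 := (Subgroup.mem_normalizer_iff.1 (hK ha) _).1 hg
    change a * g ^ i * g ^ N * (a * g ^ i)⁻¹ ∈ L
    have e : a * g ^ i * g ^ N * (a * g ^ i)⁻¹ = a * g ^ N * a⁻¹ := by group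
    rwa [e]
  refine (nresN_anti ?_ K).trans (nresN_le_of_subgroupOf hKY (h1.trans h2))
  have h3 : lam (c * (μ + 1)) ≤ lam ((c + cp) * (μ + 1)) :=
    lam_mono (Nat.mul_le_mul_right _ (by omega))
  have h4 : lam (cp * (μ + 1)) ≤ lam ((c + cp) * (μ + 1)) :=
    lam_mono (Nat.mul_le_mul_right _ (by omega))
  have h5 := lam_pos ((c + cp) * (μ + 1))
  simp only [bnd, zero_add]
  have h6 := Nat.mul_le_mul_left αp (Nat.add_le_add (Nat.mul_le_mul_left α h3) h4)
  nlinarith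

theorem thmM (N : ℕ) (hN : 0 < N) : ∃ α c : ℕ, ∀ (X : Type) [Group X] [Finite X]
    [Group.IsSolvable X] (g : X) (μ : ℕ), Star g μ → ∀ (K : Subgroup X) [K.Normal]
    (L : Subgroup X), g ^ N ∈ L → K ≤ Subgroup.normalizer (L : Set X) →
    nresN (bnd α c 0 μ) K ≤ L := by
  have key : ∀ M, ∃ α c, ∀ m, 0 < m → m < M → MStat m α c := by
    intro M
    induction M with
    | zero => exact ⟨0, 0, fun m h1 h2 => by omega⟩
    | succ M ih =>
      obtain ⟨α, c, ih⟩ := ih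
      rcases Nat.eq_zero_or_pos M with rfl | hM
      · exact ⟨0, 0, fun m h1 h2 => by omega⟩
      obtain ⟨αp, cp, hP⟩ := lemP M hM
      refine ⟨αp * (α + 1) + 1 + α, c + cp, fun m h1 h2 => ?_⟩
      rcases Nat.lt_succ_iff_lt_or_eq.1 h2 with h | rfl
      · exact (ih m h1 h).mono (by omega) (by omega)
      · exact (mstat_step h1 hP ih).mono (by omega) le_rfl
  obtain ⟨α, c, h⟩ := key (N + 1)
  exact ⟨α, c, h N hN (Nat.lt_succ_self N)⟩

end Pool.Agent.P.MP_618680_al.FH
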