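import Pool.Agent.P.MP_618680_al.FH.Res

/-! Height bounds from order bounds. -/

set_option autoImplicit false

namespace Pool.Agent.P.MP_618680_al.FH

open scoped commutatorElement
open Module

variable {X : Type} [Group X]

theorem ord_two_mul_card_le [Finite X] {H K : Subgroup X} (h : H < K) :
    2 * Nat.card H ≤ Nat.card K := by
  obtain ⟨c, hc⟩ := Subgroup.card_dvd_of_le h.le
  have hK : 0 < Nat.card K := Nat.card_pos
  have h1 : c ≠ 1 := fun e => h.ne (Subgroup.eq_of_le_of_card_ge h.le (by rw [hc, e, mul_one]))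
  have h0 : c ≠ 0 := fun e => by rw [hc, e, mul_zero] at hK; exact lt_irrefl _ hK
  rw [hc, mul_comm]
  exact Nat.mul_le_mul_left _ (by omega)

theorem ord_nresN_eq_bot [Finite X] [Group.IsSolvable X] (j : ℕ) :
    ∀ K : Subgroup X, Nat.card K ≤ 2 ^ j → nresN j K = ⊥ := by
  induction j with
  | zero => exact fun K h => Subgroup.eq_bot_of_card_le K (by simpa using h)
  | succ j ih =>
    intro K h
    by_cases hK : K = ⊥
    · exact le_bot_iff.1 (hK ▸ nresN_le _ K)
    · rw [nresN_succ']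
      have h1 : nres K < K :=
        (nres_le_commutator K).trans_lt (Group.IsSolvable.commutator_lt_of_ne_bot hK)
      have h2 := ord_two_mul_card_le h1
      rw [pow_succ] at h
      exact ih _ (by omega)

theorem ord_index_centralizer_elt [Finite X] (A : Subgroup X) [hA : A.Normal] {x : X}
    (hx : x ∈ A) : (Subgroup.centralizer ({x} : Set X)).index ≤ Nat.card A := by
  let f : X ⧸ Subgroup.centralizer ({x} : Set X) → A :=
    Quotient.lift (fun g => ⟨g * x * g⁻¹, hA.conj_mem x hx g⟩) fun a b hab => by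
      have h1 := Subgroup.mem_centralizer_singleton_iff.1 (QuotientGroup.leftRel_apply.1 hab)
      apply Subtype.ext
      change a * x * a⁻¹ = b * x * b⁻¹
      calc a * x * a⁻¹ = a * (x * (a⁻¹ * b)) * b⁻¹ := by group
        _ = a * (a⁻¹ * b * x) * b⁻¹ := by rw [h1]
        _ = _ := by group
  refine Nat.card_le_card_of_injective f ?_
  intro a b
  induction a using QuotientGroup.induction_on with
  | H a =>
  induction b using QuotientGroup.induction_on with
  | H b =>
  intro hab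
  have h1 : a * x * a⁻¹ = b * x * b⁻¹ := congrArg Subtype.val hab
  rw [QuotientGroup.eq, Subgroup.mem_centralizer_singleton_iff]
  calc a⁻¹ * b * x = a⁻¹ * (b * x * b⁻¹) * b := by group
    _ = a⁻¹ * (a * x * a⁻¹) * b := by rw [h1]
    _ = _ := by group

theorem ord_index_centralizer [Finite X] (A : Subgroup X) [A.Normal] (H : Subgroup X) :
    H ≤ A → (Subgroup.centralizer (H : Set X)).index ≤ Nat.card A ^ Nat.log 2 (Nat.card H) := by
  induction H using (wellFounded_lt (α := Subgroup X)).induction with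
  | _ H ih =>
  intro hH
  have hA : 0 < Nat.card A := Nat.card_pos
  rcases eq_or_ne H ⊥ with rfl | h0
  · have : Subgroup.centralizer ((⊥ : Subgroup X) : Set X) = ⊤ := by
      rw [eq_top_iff]
      intro y _
      rw [Subgroup.mem_centralizer_iff]
      intro z hz
      rw [Subgroup.mem_bot.1 hz, one_mul, mul_one]
    rw [this, Subgroup.index_top]
    exact Nat.one_le_pow _ _ hA
  obtain ⟨M, -, hM⟩ := exists_le_covBy_of_lt (bot_lt_iff_ne_bot.2 h0)
  obtain ⟨x, hxH, hxM⟩ := SetLike.exists_of_lt hM.lt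
  have h1 : M ⊔ Subgroup.zpowers x = H := by
    refine (hM.eq_or_eq le_sup_left (sup_le hM.le (Subgroup.zpowers_le.2 hxH))).resolve_left ?_
    intro e
    exact hxM (e ▸ Subgroup.mem_sup_right (Subgroup.mem_zpowers x))
  have h2 : Subgroup.centralizer (M : Set X) ⊓ Subgroup.centralizer ({x} : Set X) ≤
      Subgroup.centralizer (H : Set X) := by
    rintro y ⟨hy1, hy2⟩
    have h3 : H ≤ Subgroup.centralizer ({y} : Set X) := by
      rw [← h1]
      refine sup_le (fun z hz => ?_) (Subgroup.zpowers_le.2 ?_)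
      · rw [Subgroup.mem_centralizer_singleton_iff]
        exact Subgroup.mem_centralizer_iff.1 hy1 z hz
      · rw [Subgroup.mem_centralizer_singleton_iff]
        exact (Subgroup.mem_centralizer_singleton_iff.1 hy2).symm
    rw [Subgroup.mem_centralizer_iff]
    exact fun z hz => Subgroup.mem_centralizer_singleton_iff.1 (h3 hz)
  have h4 : Nat.log 2 (Nat.card M) + 1 ≤ Nat.log 2 (Nat.card H) := by
    rw [← Nat.log_mul_base one_lt_two (Nat.card_pos (α := M)).ne', mul_comm]
    exact Nat.log_mono_right (ord_two_mul_card_le hM.lt)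
  calc (Subgroup.centralizer (H : Set X)).index
      ≤ (Subgroup.centralizer (M : Set X) ⊓ Subgroup.centralizer ({x} : Set X)).index :=
        Nat.le_of_dvd (Nat.pos_of_ne_zero Subgroup.index_ne_zero_of_finite)
          (Subgroup.index_dvd_of_le h2)
    _ ≤ _ := Subgroup.index_inf_le
    _ ≤ Nat.card A ^ Nat.log 2 (Nat.card M) * Nat.card A :=
        Nat.mul_le_mul (ih M hM.lt (hM.le.trans hH)) (ord_index_centralizer_elt A (hH hxH))
    _ = Nat.card A ^ (Nat.log 2 (Nat.card M) + 1) := (pow_succ _ _).symm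
    _ ≤ _ := Nat.pow_le_pow_right hA h4

/-- A normal subgroup of index at most `2 ^ j` contains the `j`-th residual. -/
theorem nresN_le_of_index [Finite X] [Group.IsSolvable X] (N : Subgroup X) [N.Normal] (j : ℕ)
    (h : N.index ≤ 2 ^ j) : nresN j ⊤ ≤ N := by
  have h1 : nresN j ((⊤ : Subgroup X).map (QuotientGroup.mk' N)) ≤ ⊥ := by
    refine (ord_nresN_eq_bot j _ ?_).le
    rw [Subgroup.map_top_of_surjective _ (QuotientGroup.mk'_surjective N), Subgroup.card_top]
    exact h
  have h2 := nresN_le_comap _ h1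
  rwa [MonoidHom.comap_bot, QuotientGroup.ker_mk'] at h2

/-- The centraliser of a normal section of order `e` has index at most `e ^ log₂ e`. -/
theorem index_secCent_le [Finite X] (A B : Subgroup X) [A.Normal] [B.Normal] :
    (secCent A B).index ≤ B.relIndex A ^ Nat.log 2 (B.relIndex A) := by
  have : (A.map (QuotientGroup.mk' B)).Normal :=
    Subgroup.Normal.map ‹_› _ (QuotientGroup.mk'_surjective B)
  have e : B.relIndex A = Nat.card (A.map (QuotientGroup.mk' B)) := by
    rw [← Subgroup.relIndex_ker, QuotientGroup.ker_mk']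
  rw [secCent, Subgroup.index_comap_of_surjective _ (QuotientGroup.mk'_surjective B), e]
  exact ord_index_centralizer _ _ le_rfl

theorem nresN_le_secCent [Finite X] [Group.IsSolvable X] (A B : Subgroup X) [A.Normal] [B.Normal] :
    nresN (Nat.log 2 (B.relIndex A) * (Nat.log 2 (B.relIndex A) + 1)) ⊤ ≤ secCent A B := by
  refine nresN_le_of_index _ _ ((index_secCent_le A B).trans ?_)
  rw [mul_comm, pow_mul]
  exact Nat.pow_le_pow_left (Nat.lt_pow_succ_log_self one_lt_two _).le _

/-- A chief factor just below `A` and above `N0`. -/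
theorem exists_layer [Finite X] [Group.IsSolvable X] (N0 A : Subgroup X) [N0.Normal] [A.Normal]
    (h : N0 < A) : ∃ B : Subgroup X, B.Normal ∧ N0 ≤ B ∧ B < A ∧ ⁅A, A⁆ ≤ B ∧
      ∃ r : ℕ, r.Prime ∧ ∀ a ∈ A, a ^ r ∈ B := by
  obtain ⟨B, ⟨hB, hB0, hBA⟩, hmax⟩ := (wellFounded_gt (α := Subgroup X)).has_min
    {B : Subgroup X | B.Normal ∧ N0 ≤ B ∧ B < A} ⟨N0, inferInstance, le_rfl, h⟩
  have key : ∀ C : Subgroup X, C.Normal → B < C → C ≤ A → C = A := fun C hC h1 h2 => by
    by_contra e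
    exact hmax C ⟨hC, hB0.trans h1.le, lt_of_le_of_ne h2 e⟩ h1
  have hab : ⁅A, A⁆ ≤ B := by
    obtain ⟨A1, h1, h2, h3, h4⟩ := exists_abelian_above B A hBA
    rwa [key A1 h1 h2 h3] at h4
  refine ⟨B, hB, hB0, hBA, hab, ?_⟩
  have hm : ∀ x : X, x ∈ B ↔ QuotientGroup.mk' B x = 1 := fun x => by
    rw [← MonoidHom.mem_ker, QuotientGroup.ker_mk']
  have hc : ∀ a ∈ A, ∀ b ∈ A, Commute (QuotientGroup.mk' B a) (QuotientGroup.mk' B b) :=
    fun a ha b hb => by
      rw [← commutatorElement_eq_one_iff_commute, ← map_commutatorElement, ← hm]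
      exact hab (Subgroup.commutator_mem_commutator ha hb)
  obtain ⟨a, haA, haB⟩ := SetLike.exists_of_lt hBA
  have hn1 : orderOf (QuotientGroup.mk' B a) ≠ 1 := fun e => haB ((hm a).2 (orderOf_eq_one_iff.1 e))
  have hn0 : 0 < orderOf (QuotientGroup.mk' B a) := orderOf_pos _
  obtain ⟨r, hr, c, hc'⟩ := Nat.exists_prime_and_dvd hn1
  let C : Subgroup X :=
    { carrier := {x | x ∈ A ∧ x ^ r ∈ B}
      one_mem' := ⟨A.one_mem, by simp⟩
      mul_mem' := by
        rintro x y ⟨hx, hx'⟩ ⟨hy, hy'⟩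
        refine ⟨A.mul_mem hx hy, ?_⟩
        rw [hm, map_pow] at hx' hy' ⊢
        rw [map_mul, (hc x hx y hy).mul_pow, hx', hy', mul_one]
      inv_mem' := by
        rintro x ⟨hx, hx'⟩
        exact ⟨A.inv_mem hx, by rw [inv_pow]; exact B.inv_mem hx'⟩ }
  have hC : C.Normal := ⟨fun x hx g => ⟨Subgroup.Normal.conj_mem ‹_› x hx.1 g, by
    rw [conj_pow]; exact hB.conj_mem _ hx.2 g⟩⟩
  have hBC : B < C := by
    refine lt_of_le_of_ne (fun x hx => ⟨hBA.le hx, B.pow_mem hx r⟩) fun e => ?_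
    have h1 : a ^ c ∈ C := ⟨A.pow_mem haA c, by
      rw [hm, ← pow_mul, map_pow, mul_comm, ← hc', pow_orderOf_eq_one]⟩
    rw [← e, hm, map_pow, ← orderOf_dvd_iff_pow_eq_one, hc'] at h1
    have hc0 : 0 < c := Nat.pos_of_ne_zero fun e0 => by rw [hc', e0, mul_zero] at hn0; omega
    have h2 := Nat.le_of_dvd hc0 h1
    have h3 := hr.two_le
    nlinarith
  have h5 := key C hC hBC fun x hx => hx.1
  exact ⟨r, hr, fun x hx => (h5 ▸ hx : x ∈ C).2⟩

/-- If `L ≤ K` centralises every elementary abelian normal section between `N0` and `K`, then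
`nres L ≤ N0`. -/
theorem nres_le_of_layers [Finite X] [Group.IsSolvable X] (N0 K L : Subgroup X) [N0.Normal]
    [K.Normal] (hN : N0 ≤ K) (hL : L ≤ K)
    (h : ∀ A B : Subgroup X, A.Normal → B.Normal → N0 ≤ B → B ≤ A → A ≤ K → ⁅A, A⁆ ≤ B →
      (∃ r : ℕ, r.Prime ∧ ∀ a ∈ A, a ^ r ∈ B) → ⁅A, L⁆ ≤ B) : nres L ≤ N0 := by
  obtain ⟨A, ⟨hA, hA0, hAK, i, hi⟩, hmin⟩ := (wellFounded_lt (α := Subgroup X)).has_min
    {A : Subgroup X | A.Normal ∧ N0 ≤ A ∧ A ≤ K ∧ ∃ i, L.lowerCentralSeries i ≤ A}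
    ⟨K, inferInstance, hN, le_rfl, 0, hL⟩
  rcases hA0.eq_or_lt with e | hlt
  · exact (nres_le_lcs L i).trans (hi.trans e.ge)
  · obtain ⟨B, hB, hB0, hBA, hab, hr⟩ := exists_layer N0 A hlt
    refine absurd hBA (hmin B ⟨hB, hB0, hBA.le.trans hAK, i + 1, ?_⟩)
    rw [Subgroup.lowerCentralSeries_succ]
    exact (Subgroup.commutator_mono hi le_rfl).trans (h A B hA hB hB0 hBA.le hAK hab hr)

end Pool.Agent.P.MP_618680_al.FH
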