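import Pool.Agent.P.MP_618680_al.FH.Defs

/-! Comparison of weight multiplicities on a permuted module. -/

set_option autoImplicit false

namespace Pool.Agent.P.MP_618680_al.FH

open scoped commutatorElement
open Module

variable {k : Type} [Field k]

/-- A twisted invariant function that does not vanish at the regular points. -/
theorem symb_coef {E : Type} (σ : E → E) {n : ℕ} (hn : 0 < n) (hσ : σ^[n] = id) (ζ : k)
    (hζ : ζ ^ n = 1) : ∃ c : E → k, (∀ x, c x = ζ * c (σ x)) ∧
      ∀ x, (¬ ∃ i, 0 < i ∧ i < n ∧ σ^[i] x = x) → c x ≠ 0 := by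
  classical
  have hper : ∀ x, Function.IsPeriodicPt σ n x := fun x => congrFun hσ x
  have hinj : Function.Injective σ := by
    obtain ⟨m, rfl⟩ := Nat.exists_eq_succ_of_ne_zero hn.ne'
    intro a b h
    have h1 : σ^[m] (σ a) = a := hper a
    have h2 : σ^[m] (σ b) = b := hper b
    rw [← h1, ← h2, h]
  let r : E → E := fun x => @Classical.epsilon E ⟨x⟩ fun y => ∃ i, σ^[i] x = y
  have hr : ∀ x, r (σ x) = r x := by
    intro x
    have e : (fun y => ∃ i, σ^[i] (σ x) = y) = fun y => ∃ i, σ^[i] x = y := by
      funext y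
      refine propext ⟨fun ⟨i, hi⟩ => ⟨i + 1, hi⟩, fun ⟨i, hi⟩ => ⟨i + (n - 1), ?_⟩⟩
      rw [← Function.iterate_succ_apply, show (i + (n - 1)).succ = i + n by omega,
        Function.iterate_add_apply, hσ]
      exact hi
    simp only [r, e]
  have hr2 : ∀ x, ∃ i < n, σ^[i] x = r x := by
    intro x
    obtain ⟨i, hi⟩ : ∃ i, σ^[i] x = r x :=
      Classical.epsilon_spec (p := fun y => ∃ i, σ^[i] x = y) ⟨x, 0, rfl⟩
    exact ⟨i % n, Nat.mod_lt _ hn, by rw [(hper x).iterate_mod_apply, hi]⟩
  refine ⟨fun x => ∑ i ∈ Finset.range n, if σ^[i] x = r x then ζ ^ i else 0, fun x => ?_,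
    fun x hx => ?_⟩
  · have h1 := Finset.sum_range_succ (fun i => if σ^[i] x = r x then ζ ^ i else 0) n
    rw [Finset.sum_range_succ', hσ, hζ, pow_zero, Function.iterate_zero, add_left_inj] at h1
    simp only [hr]
    rw [← h1, Finset.mul_sum]
    refine Finset.sum_congr rfl fun i _ => ?_
    rw [Function.iterate_succ_apply, mul_ite, mul_zero, pow_succ']
  · obtain ⟨i, hi, h1⟩ := hr2 x
    have key : ∀ a b, a < b → b < n → σ^[a] x ≠ σ^[b] x := by
      intro a b hab hb h
      refine hx ⟨b - a, by omega, by omega, (hinj.iterate a) ?_⟩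
      rw [← Function.iterate_add_apply, show a + (b - a) = b by omega, h]
    simp only
    rw [Finset.sum_eq_single i, if_pos h1]
    · refine pow_ne_zero _ fun h => ?_
      rw [h, zero_pow hn.ne'] at hζ
      exact zero_ne_one hζ
    · intro j hj hji
      refine if_neg fun h => ?_
      rcases hji.lt_or_gt with h2 | h2
      · exact key j i h2 hi (h.trans h1.symm)
      · exact key i j h2 (Finset.mem_range.1 hj) (h1.trans h.symm)
    · exact fun h => absurd (Finset.mem_range.2 hi) h

/-- On the part permuted regularly all eigenvalues have the same multiplicity. -/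
theorem weight_compare {V : Type} [AddCommGroup V] [Module k V] [FiniteDimensional k V]
    {E : Type} [Fintype E] (q : E → Module.End k V) (hq : CompleteOrthogonalIdempotents q) (e : ℕ)
    (he : ∀ x, finrank k (LinearMap.range (q x)) ≤ e) (T : Module.End k V) (σ : E → E) {n : ℕ}
    (hn : 0 < n) (hσ : σ^[n] = id) (hT : ∀ x, T * q x = q (σ x) * T) (ζ : k) (hζ : ζ ^ n = 1) :
    finrank k (LinearMap.ker (T - 1)) ≤ finrank k (Module.End.eigenspace T ζ) +
      e * {x : E | ∃ i, 0 < i ∧ i < n ∧ σ^[i] x = x}.ncard := by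
  classical
  obtain ⟨c, hc, hc0⟩ := symb_coef σ hn hσ ζ hζ
  have hbij : Function.Bijective σ := by
    refine Finite.surjective_iff_bijective.1 fun y => ⟨σ^[n - 1] y, ?_⟩
    rw [← Function.iterate_succ_apply' σ, show (n - 1).succ = n by omega, hσ]
    rfl
  have hθ : T * ∑ x, c x • q x = ζ • ((∑ x, c x • q x) * T) := by
    rw [← hbij.sum_comp fun x => c x • q x, Finset.sum_mul, Finset.smul_sum,
      hbij.sum_comp fun x => c x • q x, Finset.mul_sum]
    refine Finset.sum_congr rfl fun x _ => ?_
    rw [mul_smul_comm, hT, smul_mul_assoc, smul_smul, ← hc]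
  have hqθ : ∀ y, q y * ∑ x, c x • q x = c y • q y := by
    intro y
    rw [Finset.mul_sum, Finset.sum_eq_single y, mul_smul_comm, (hq.idem y).eq]
    · intro x _ hx
      rw [mul_smul_comm, hq.ortho hx.symm, smul_zero]
    · exact fun h => absurd (Finset.mem_univ y) h
  set N : Set E := {x : E | ∃ i, 0 < i ∧ i < n ∧ σ^[i] x = x} with hN
  have hmem : ∀ v : LinearMap.ker (T - 1),
      ((∑ x, c x • q x) ∘ₗ (LinearMap.ker (T - 1)).subtype) v ∈ Module.End.eigenspace T ζ := by
    intro v
    have h1 : T v = v := by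
      have h2 := LinearMap.mem_ker.1 v.2
      rwa [LinearMap.sub_apply, Module.End.one_apply, sub_eq_zero] at h2
    rw [Module.End.mem_eigenspace_iff]
    have h3 := LinearMap.congr_fun hθ v
    rw [Module.End.mul_apply, LinearMap.smul_apply, Module.End.mul_apply, h1] at h3
    exact h3
  let f : LinearMap.ker (T - 1) →ₗ[k]
      Module.End.eigenspace T ζ × ((x : N) → LinearMap.range (q x)) :=
    (LinearMap.codRestrict _ _ hmem).prod
      (LinearMap.pi fun x : N => (q x).rangeRestrict ∘ₗ (LinearMap.ker (T - 1)).subtype)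
  have hf : Function.Injective f := by
    refine (injective_iff_map_eq_zero f).2 fun v hv => ?_
    have h1 : (∑ x, c x • q x) (v : V) = 0 := congrArg (fun p => (p.1 : V)) hv
    have h2 : ∀ x, q x (v : V) = 0 := by
      intro x
      by_cases hx : x ∈ N
      · exact congrArg (fun p => (p.2 ⟨x, hx⟩ : V)) hv
      · have h3 := LinearMap.congr_fun (hqθ x) v
        rw [Module.End.mul_apply, h1, map_zero, LinearMap.smul_apply] at h3
        exact (smul_eq_zero.1 h3.symm).resolve_left (hc0 x hx)
    have h4 := LinearMap.congr_fun hq.complete v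
    rw [LinearMap.sum_apply, Module.End.one_apply] at h4
    exact Subtype.ext (h4.symm.trans (Finset.sum_eq_zero fun x _ => h2 x))
  refine (LinearMap.finrank_le_finrank_of_injective hf).trans ?_
  rw [Module.finrank_prod, Module.finrank_pi_fintype]
  refine Nat.add_le_add_left
    ((Finset.sum_le_card_nsmul _ _ e fun (x : N) _ => he x).trans (le_of_eq ?_)) _
  rw [Finset.card_univ, smul_eq_mul, mul_comm, ← Nat.card_coe_set_eq, Nat.card_eq_fintype_card]

end Pool.Agent.P.MP_618680_al.FH
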