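import Pool.Agent.P.MP_618680_al.FH.Defs

/-! Weight multiplicities of an element and of its conjugation action. -/

set_option autoImplicit false

namespace Pool.Agent.P.MP_618680_al.FH

open scoped commutatorElement
open Module

variable {k : Type} [Field k] {W : Type} [AddCommGroup W] [Module k W]

/-- The eigenspaces of a diagonal operator. -/
theorem syms_finrank_eigenspace {V : Type} [AddCommGroup V] [Module k V] {ι : Type} [Fintype ι]
    [DecidableEq k] (b : Basis ι k V) (T : Module.End k V) (μ : ι → k)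
    (hT : ∀ i, T (b i) = μ i • b i) (ζ : k) :
    finrank k (Module.End.eigenspace T ζ) = (Finset.univ.filter fun i => μ i = ζ).card := by
  classical
  have hrepr : ∀ (v : V) (i : ι), b.repr (T v) i = μ i * b.repr v i := by
    intro v i
    have h : (b.coord i).comp T = μ i • b.coord i := by
      refine b.ext fun j => ?_
      simp only [LinearMap.comp_apply, hT, map_smul, LinearMap.smul_apply, Basis.coord_apply,
        Basis.repr_self, smul_eq_mul, Finsupp.single_apply]
      split_ifs with hji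
      · rw [hji]
      · simp
    have h2 := LinearMap.congr_fun h v
    simpa using h2
  have hE : Module.End.eigenspace T ζ =
      Submodule.span k (Set.range fun i : {i // μ i = ζ} => b i) := by
    have hr : (Set.range fun i : {i // μ i = ζ} => b i) = b '' {i | μ i = ζ} := by
      ext v
      simp
    rw [hr]
    apply le_antisymm
    · intro v hv
      rw [Basis.mem_span_image]
      intro i hi
      have hv' := Module.End.mem_eigenspace_iff.mp hv
      have h1 := hrepr v i
      rw [hv', map_smul, Finsupp.smul_apply, smul_eq_mul] at h1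
      have hi' : b.repr v i ≠ 0 := by simpa using hi
      exact (mul_right_cancel₀ hi' h1).symm
    · rw [Submodule.span_le]
      rintro _ ⟨i, hi, rfl⟩
      have hi' : μ i = ζ := hi
      exact Module.End.mem_eigenspace_iff.mpr (by rw [hT, hi'])
  have hli : LinearIndependent k fun i : {i // μ i = ζ} => b i :=
    b.linearIndependent.comp _ Subtype.val_injective
  rw [hE, finrank_span_eq_card hli, Fintype.card_subtype]

/-- Counting pairs of weights with a given quotient. -/
theorem syms_count {ι : Type} [Fintype ι] [DecidableEq k] (μ : ι → k) (S : Finset k)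
    (hS : ∀ i, μ i ∈ S) (h0 : ∀ i, μ i ≠ 0) (ζ : k) :
    (Finset.univ.filter fun p : ι × ι => μ p.1 * (μ p.2)⁻¹ = ζ).card =
      ∑ η ∈ S, (Finset.univ.filter fun i => μ i = η).card *
        (Finset.univ.filter fun i => μ i = ζ * η).card := by
  classical
  have h1 : (Finset.univ.filter fun p : ι × ι => μ p.1 * (μ p.2)⁻¹ = ζ).card =
      ∑ j : ι, (Finset.univ.filter fun i => μ i = ζ * μ j).card := by
    simp only [Finset.card_filter]
    rw [Fintype.sum_prod_type_right]
    refine Finset.sum_congr rfl fun j _ => Finset.sum_congr rfl fun i _ => ?_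
    have h : μ i * (μ j)⁻¹ = ζ ↔ μ i = ζ * μ j := by
      rw [mul_inv_eq_iff_eq_mul₀ (h0 j)]
    simp only [h]
  rw [h1, ← Finset.sum_fiberwise_of_maps_to (s := Finset.univ) (t := S) (g := μ)
    (fun i _ => hS i)]
  refine Finset.sum_congr rfl fun η _ => ?_
  rw [Finset.sum_congr rfl (g := fun _ => (Finset.univ.filter fun i => μ i = ζ * η).card)
    (fun j hj => by rw [(Finset.mem_filter.mp hj).2]), Finset.sum_const, smul_eq_mul]

/-- The arithmetic step for one root of unity. -/
theorem syms_arith (S : Finset k) (d : k → ℕ) (ζ : k) (hζ : ζ ≠ 0) (h1 : (1 : k) ∈ S)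
    (hS : ∀ η, η ∈ S ↔ ζ * η ∈ S) (m δ D : ℕ) (hδ : 8 * m ^ 2 * δ ≤ D ^ 2)
    (h : ∑ η ∈ S, d η * d η ≤ ∑ η ∈ S, d η * d (ζ * η) + δ) :
    2 * m * d ζ ≤ 2 * m * d 1 + D := by
  have hperm : ∑ η ∈ S, (d (ζ * η) : ℤ) ^ 2 = ∑ η ∈ S, (d η : ℤ) ^ 2 :=
    Finset.sum_equiv (Equiv.mulLeft₀ ζ hζ) (fun η => hS η) (fun η _ => rfl)
  have hz : ∑ η ∈ S, (d η : ℤ) * d η ≤ ∑ η ∈ S, (d η : ℤ) * d (ζ * η) + δ := by
    exact_mod_cast h
  have hsq : ∑ η ∈ S, ((d (ζ * η) : ℤ) - d η) ^ 2 ≤ 2 * δ := by
    have e1 : ∑ η ∈ S, ((d (ζ * η) : ℤ) - d η) ^ 2 =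
        ∑ η ∈ S, (d (ζ * η) : ℤ) ^ 2 + ∑ η ∈ S, (d η : ℤ) ^ 2 -
          2 * ∑ η ∈ S, (d η : ℤ) * d (ζ * η) := by
      rw [Finset.mul_sum, ← Finset.sum_add_distrib, ← Finset.sum_sub_distrib]
      exact Finset.sum_congr rfl fun η _ => by ring
    have e2 : ∑ η ∈ S, (d η : ℤ) * d η = ∑ η ∈ S, (d η : ℤ) ^ 2 :=
      Finset.sum_congr rfl fun η _ => by ring
    rw [e1, hperm]
    rw [e2] at hz
    linarith
  have hone : ((d (ζ * 1) : ℤ) - d 1) ^ 2 ≤ ∑ η ∈ S, ((d (ζ * η) : ℤ) - d η) ^ 2 :=
    Finset.single_le_sum (f := fun η => ((d (ζ * η) : ℤ) - d η) ^ 2)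
      (fun η _ => sq_nonneg _) h1
  rw [mul_one] at hone
  have hδz : 8 * (m : ℤ) ^ 2 * δ ≤ (D : ℤ) ^ 2 := by exact_mod_cast hδ
  have hle : (2 * (m : ℤ) * ((d ζ : ℤ) - d 1)) ^ 2 ≤ (D : ℤ) ^ 2 := by
    have hm : (0 : ℤ) ≤ 4 * (m : ℤ) ^ 2 := by positivity
    have := mul_le_mul_of_nonneg_left (hone.trans hsq) hm
    nlinarith
  have hfin := (abs_le_of_sq_le_sq' hle (Int.natCast_nonneg D)).2
  have : 2 * (m : ℤ) * d ζ ≤ 2 * (m : ℤ) * d 1 + D := by linarith
  exact_mod_cast this

/-- If all eigenvalues of conjugation by `t` have nearly the multiplicity of the eigenvalue `1`,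
then `t` has a large fixed space. -/
theorem finrank_le_of_weights [IsAlgClosed k] [FiniteDimensional k W] (t t' : Module.End k W)
    (htt : t * t' = 1) {n m : ℕ} (hn : (n : k) ≠ 0) (hnm : n ≤ m) (ht : t ^ n = 1) (δ : ℕ)
    (hδ : 8 * m ^ 2 * δ ≤ finrank k W ^ 2)
    (h : ∀ ζ : k, ζ ^ n = 1 →
      finrank k (LinearMap.ker ((LinearMap.mulLeft k t).comp (LinearMap.mulRight k t') - 1)) ≤
        finrank k (Module.End.eigenspace
          ((LinearMap.mulLeft k t).comp (LinearMap.mulRight k t')) ζ) + δ) :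
    finrank k W ≤ 2 * m * finrank k (LinearMap.ker (t - 1)) := by
  classical
  have hn0 : 0 < n := Nat.pos_of_ne_zero (by rintro rfl; exact hn Nat.cast_zero)
  have hss : t.IsSemisimple := by
    refine Module.End.isSemisimple_of_squarefree_aeval_eq_zero
      (p := Polynomial.X ^ n - 1)
      (Polynomial.X_pow_sub_one_separable_iff.mpr hn).squarefree ?_
    simp [ht]
  let dec := DirectSum.isInternal_submodule_of_iSupIndep_of_iSup_eq_top
    t.eigenspaces_iSupIndep hss.iSup_eigenspace_eq_top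
  let I := (ν : k) × Fin (finrank k (t.eigenspace ν))
  let b : Basis I k W := dec.collectedBasis fun ν => finBasis k (t.eigenspace ν)
  let _ : Fintype I := FiniteDimensional.fintypeBasisIndex b
  let μ : I → k := Sigma.fst
  have hb : ∀ i, t (b i) = μ i • b i := fun i =>
    Module.End.mem_eigenspace_iff.mp (dec.collectedBasis_mem _ i)
  have hpow : ∀ i (j : ℕ), (t ^ j) (b i) = μ i ^ j • b i := by
    intro i j
    induction j with
    | zero => simp
    | succ j ih => rw [pow_succ', Module.End.mul_apply, ih, map_smul, hb, smul_smul, pow_succ]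
  have hμ : ∀ i, μ i ^ n = 1 := by
    intro i
    have h1 := hpow i n
    rw [ht, Module.End.one_apply] at h1
    have h2 : (μ i ^ n - 1) • b i = 0 := by rw [sub_smul, ← h1, one_smul, sub_self]
    exact sub_eq_zero.mp ((smul_eq_zero.mp h2).resolve_right (b.ne_zero i))
  have hne : ∀ ζ : k, ζ ^ n = 1 → ζ ≠ 0 := by
    rintro ζ hζ rfl
    rw [zero_pow hn0.ne'] at hζ
    exact zero_ne_one hζ
  have h0 : ∀ i, μ i ≠ 0 := fun i => hne _ (hμ i)
  have htt' : t' * t = 1 := mul_eq_one_comm.mp htt
  have hb' : ∀ i, t' (b i) = (μ i)⁻¹ • b i := by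
    intro i
    have h1 : t' (t (b i)) = b i := by rw [← Module.End.mul_apply, htt', Module.End.one_apply]
    rw [hb, map_smul] at h1
    rw [eq_inv_smul_iff₀ (h0 i), h1]
  set T : Module.End k (Module.End k W) :=
    (LinearMap.mulLeft k t).comp (LinearMap.mulRight k t') with hTdef
  have hT : ∀ p : I × I, T (b.end p) = (μ p.1 * (μ p.2)⁻¹) • b.end p := by
    intro p
    refine b.ext fun j => ?_
    simp only [hTdef, LinearMap.comp_apply, LinearMap.mulLeft_apply, LinearMap.mulRight_apply,
      Module.End.mul_apply, hb', map_smul, LinearMap.smul_apply, Basis.end_apply_apply]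
    split_ifs with hj
    · rw [hb, smul_smul, hj, mul_comm]
    · simp
  let S : Finset k := Polynomial.nthRootsFinset n (1 : k)
  have hmem : ∀ η, η ∈ S ↔ η ^ n = 1 := fun η => Polynomial.mem_nthRootsFinset hn0 1
  have hcard : S.card ≤ m :=
    ((Multiset.toFinset_card_le _).trans (Polynomial.card_nthRoots n (1 : k))).trans hnm
  let d : k → ℕ := fun η => (Finset.univ.filter fun i => μ i = η).card
  have hker : ∀ {V : Type} [AddCommGroup V] [Module k V] (f : Module.End k V),
      LinearMap.ker (f - 1) = Module.End.eigenspace f 1 := by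
    intro V _ _ f
    ext v
    rw [Module.End.mem_eigenspace_iff, LinearMap.mem_ker, LinearMap.sub_apply,
      Module.End.one_apply, one_smul, sub_eq_zero]
  have hcount : ∀ ζ : k, finrank k (Module.End.eigenspace T ζ) =
      ∑ η ∈ S, d η * d (ζ * η) := by
    intro ζ
    rw [syms_finrank_eigenspace b.end T _ hT ζ,
      syms_count μ S (fun i => (hmem _).mpr (hμ i)) h0 ζ]
  have hstep : ∀ ζ ∈ S, 2 * m * d ζ ≤ 2 * m * d 1 + finrank k W := by
    intro ζ hζ
    have hζ' := (hmem ζ).mp hζ
    refine syms_arith S d ζ (hne ζ hζ') ((hmem 1).mpr (one_pow n)) (fun η => ?_) m δ _ hδ ?_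
    · rw [hmem, hmem, mul_pow, hζ', one_mul]
    · have h1 := h ζ hζ'
      rw [hker, hcount, hcount] at h1
      simpa only [one_mul] using h1
  have hD : finrank k W = ∑ η ∈ S, d η := by
    rw [finrank_eq_card_basis b, ← Finset.card_univ]
    exact Finset.card_eq_sum_card_fiberwise (fun i _ => (hmem _).mpr (hμ i))
  have hd1 : finrank k (LinearMap.ker (t - 1)) = d 1 := by
    rw [hker, syms_finrank_eigenspace b t μ hb 1]
  have hsum : 2 * m * finrank k W ≤ m * (2 * m * d 1 + finrank k W) := by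
    calc 2 * m * finrank k W = ∑ η ∈ S, 2 * m * d η := by rw [← Finset.mul_sum, ← hD]
      _ ≤ ∑ _η ∈ S, (2 * m * d 1 + finrank k W) := Finset.sum_le_sum hstep
      _ = S.card * (2 * m * d 1 + finrank k W) := by rw [Finset.sum_const, smul_eq_mul]
      _ ≤ m * (2 * m * d 1 + finrank k W) := Nat.mul_le_mul_right _ hcard
  rw [hd1]
  have hm0 : 0 < m := hn0.trans_le hnm
  have h3 : m * finrank k W ≤ m * (2 * m * d 1) := by nlinarith
  exact Nat.le_of_mul_le_mul_left h3 hm0

end Pool.Agent.P.MP_618680_al.FH
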