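import Pool.Agent.P.MP_618680_al.FH.SymP
import Pool.Agent.P.MP_618680_al.FH.SymB
import Pool.Agent.P.MP_618680_al.FH.SymS

/-! The weight lemma. -/

set_option autoImplicit false

namespace Pool.Agent.P.MP_618680_al.FH

open scoped commutatorElement
open Module

variable {k : Type} [Field k] {X : Type} [Group X] {W : Type} [AddCommGroup W] [Module k W]


theorem wt_ker_pow [FiniteDimensional k W] (f : Module.End k W) (j : ℕ) :
    finrank k (LinearMap.ker (f ^ j)) ≤ j * finrank k (LinearMap.ker f) := by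
  induction j with
  | zero =>
    rw [pow_zero, Module.End.one_eq_id, LinearMap.ker_id, finrank_bot]
    exact Nat.zero_le _
  | succ j ih =>
    have h1 := (f.domRestrict (LinearMap.ker (f ^ (j + 1)))).finrank_range_add_finrank_ker
    have h2 : finrank k (LinearMap.range (f.domRestrict (LinearMap.ker (f ^ (j + 1))))) ≤
        finrank k (LinearMap.ker (f ^ j)) := by
      refine Submodule.finrank_mono ?_
      rintro _ ⟨⟨v, hv⟩, rfl⟩
      rw [LinearMap.mem_ker, pow_succ, Module.End.mul_apply] at hv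
      exact hv
    have h3 : finrank k (LinearMap.ker (f.domRestrict (LinearMap.ker (f ^ (j + 1))))) ≤
        finrank k (LinearMap.ker f) := by
      rw [← Submodule.finrank_map_subtype_eq]
      refine Submodule.finrank_mono ?_
      rintro _ ⟨v, hv, rfl⟩
      exact hv
    rw [add_mul, one_mul]
    omega

theorem wt_split (q : ℕ) [ExpChar k q] {m : ℕ} (hm : 0 < m) :
    ∃ a n : ℕ, (n : k) ≠ 0 ∧ m = q ^ a * n := by
  rcases ‹ExpChar k q› with _ | hq
  · exact ⟨0, m, Nat.cast_ne_zero.2 hm.ne', by simp⟩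
  · obtain ⟨a, n, h1, h2⟩ := Nat.exists_eq_pow_mul_and_not_dvd hm.ne' q hq.ne_one
    exact ⟨a, n, fun h => h1 ((CharP.cast_eq_zero_iff k q n).1 h), h2⟩

theorem wt_nonreg {E : Type} (f : E → E) {n i : ℕ} (hn : f^[n] = id) (h0 : 0 < i) (hi : i < n)
    {x : E} (hx : f^[i] x = x) : ∃ p : ℕ, p.Prime ∧ p ∣ n ∧ f^[n / p] x = x := by
  have h1 : Function.IsPeriodicPt f (Nat.gcd i n) x :=
    Function.IsPeriodicPt.gcd hx (congrFun hn x)
  obtain ⟨c, hc⟩ := Nat.gcd_dvd_right i n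
  have h2 : c ≠ 1 := by
    rintro rfl
    have := Nat.gcd_le_left n h0
    omega
  obtain ⟨p, hp, d, rfl⟩ := Nat.exists_prime_and_dvd h2
  have h3 : n = p * (Nat.gcd i n * d) := hc.trans (by ring)
  refine ⟨p, hp, ⟨_, h3⟩, h1.trans_dvd ⟨d, ?_⟩⟩
  exact Nat.div_eq_of_eq_mul_right hp.pos h3

theorem SymF.wt [IsAlgClosed k] [Finite X] [FiniteDimensional k W] [Nontrivial W]
    {ρ : Representation k X W} {F : Subgroup X} (hF : SymF ρ F) (s : X) {m : ℕ} (hm : 0 < m)
    (hs : ρ (s ^ m) = 1)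
    (h : ∀ p : ℕ, p.Prime → p ∣ m →
      8 * m ^ 3 * (fixS F (scal ρ) (s ^ (m / p))).ncard ≤ Nat.card F) :
    finrank k W ≤ 2 * m ^ 2 * fixDim ρ s := by
  classical
  have := hF.normal
  obtain ⟨q, hq⟩ := ExpChar.exists k
  obtain ⟨a, n, hn, hmn⟩ := wt_split (k := k) q hm
  have hn0 : 0 < n := Nat.pos_of_ne_zero fun e => hn (by rw [e, Nat.cast_zero])
  have hqa : 0 < q ^ a := Nat.pos_of_ne_zero fun e => by
    rw [e, zero_mul] at hmn
    omega
  obtain ⟨E, _, _, σ, π, hE⟩ := exists_secRep F (scal ρ) hF.comm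
  let _ := Fintype.ofFinite E
  obtain ⟨Q, e, h1, h2, h3, h4⟩ := hF.exists_proj hE
  have hit : ∀ (j : ℕ) (x : E), (σ (s ^ q ^ a))^[j] x = σ (s ^ (q ^ a * j)) x := fun j x => by
    rw [pow_mul, map_pow σ (s ^ q ^ a) j, Module.End.pow_apply]
  have hσ : σ (s ^ m) = 1 := by
    rw [← MonoidHom.mem_ker, hE.ker_eq, secCent, Subgroup.mem_comap, QuotientGroup.mk'_apply,
      (QuotientGroup.eq_one_iff _).2 (ker_le_scal ρ hs)]
    exact one_mem _
  have hid : (σ (s ^ q ^ a))^[n] = id := funext fun x => by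
    rw [hit, ← hmn, hσ]
    rfl
  obtain ⟨N, hN⟩ : ∃ N, N = {x : E | ∃ i, 0 < i ∧ i < n ∧ (σ (s ^ q ^ a))^[i] x = x}.ncard :=
    ⟨_, rfl⟩
  have c1 : N ≤ ∑ p ∈ m.primeFactors, Nat.card (LinearMap.ker (σ (s ^ (m / p)) - 1)) := by
    rw [hN]
    refine le_trans (Set.ncard_le_ncard ?_) (m.primeFactors.set_ncard_biUnion_le
      fun p => (LinearMap.ker (σ (s ^ (m / p)) - 1) : Set E))
    rintro x ⟨i, i0, i1, hx⟩
    obtain ⟨p, hp, hd, hx'⟩ := wt_nonreg _ hid i0 i1 hx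
    refine Set.mem_biUnion (x := p) (Nat.mem_primeFactors.2
      ⟨hp, hmn ▸ hd.mul_left _, hm.ne'⟩) ?_
    rw [hit, ← Nat.mul_div_assoc _ hd, ← hmn] at hx'
    simpa [sub_eq_zero] using hx'
  have c2 : ∀ p ∈ m.primeFactors,
      8 * m ^ 3 * Nat.card (LinearMap.ker (σ (s ^ (m / p)) - 1)) ≤ Nat.card E := fun p hp => by
    have := h p (Nat.prime_of_mem_primeFactors hp) (Nat.dvd_of_mem_primeFactors hp)
    rw [← hE.card_fix hF.scal_le, ← hE.card hF.scal_le, ← mul_assoc] at this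
    exact Nat.le_of_mul_le_mul_right this Nat.card_pos
  have c3 : m.primeFactors.card ≤ m := by
    refine (Finset.card_le_card (t := Finset.Icc 1 m) fun p hp => Finset.mem_Icc.2
      ⟨(Nat.prime_of_mem_primeFactors hp).pos, Nat.le_of_mem_primeFactors hp⟩).trans ?_
    simp
  have c4 : 8 * m ^ 2 * N ≤ Fintype.card E := by
    refine Nat.le_of_mul_le_mul_left ?_ hm
    calc m * (8 * m ^ 2 * N) = 8 * m ^ 3 * N := by ring
      _ ≤ ∑ p ∈ m.primeFactors, 8 * m ^ 3 * Nat.card (LinearMap.ker (σ (s ^ (m / p)) - 1)) := by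
        rw [← Finset.mul_sum]
        exact Nat.mul_le_mul_left _ c1
      _ ≤ m.primeFactors.card * Nat.card E := Finset.sum_le_card_nsmul _ _ _ c2
      _ ≤ m * Fintype.card E := by
        rw [Nat.card_eq_fintype_card]
        exact Nat.mul_le_mul_right _ c3
  have c5 := finrank_le_of_weights (ρ (s ^ q ^ a)) (ρ (s ^ q ^ a)⁻¹)
    (by rw [← map_mul, mul_inv_cancel, map_one]) hn (m := m)
    (hmn ▸ Nat.le_mul_of_pos_left n hqa) (by rw [← map_pow, ← pow_mul, ← hmn, hs]) (e * N)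
    (by
      rw [← h3]
      calc 8 * m ^ 2 * (e * N) = 8 * m ^ 2 * N * e := by ring
        _ ≤ _ := Nat.mul_le_mul_right _ c4)
    fun ζ hζ => hN ▸ weight_compare Q h1 e (fun x => (h2 x).le) (conjEnd ρ (s ^ q ^ a))
      (σ (s ^ q ^ a)) hn0 hid (h4 _) ζ hζ
  have : ExpChar (Module.End k W) q :=
    expChar_of_injective_algebraMap (FaithfulSMul.algebraMap_injective k _) q
  have c6 : ρ (s ^ q ^ a) - 1 = (ρ s - 1) ^ q ^ a := by
    rw [sub_pow_expChar_pow_of_commute _ _ (Commute.one_right _), one_pow, map_pow]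
  rw [c6] at c5
  calc finrank k W ≤ _ := c5
    _ ≤ 2 * m * (m * fixDim ρ s) := Nat.mul_le_mul_left _ ((wt_ker_pow _ _).trans
      (Nat.mul_le_mul_right _ (hmn ▸ Nat.le_mul_of_pos_right _ hn0)))
    _ = _ := by ring

end Pool.Agent.P.MP_618680_al.FH
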