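import Pool.Agent.P.MP_618680_al.FH.Q
import Pool.Agent.P.MP_618680_al.FH.Wt

/-! Modules with a small fixed space. -/

set_option autoImplicit false

namespace Pool.Agent.P.MP_618680_al.FH

open scoped commutatorElement
open Module

section

variable {k : Type} [Field k] {X : Type} [Group X] {W : Type} [AddCommGroup W] [Module k W]

theorem movDim_eq_zero_iff [FiniteDimensional k W] (ρ : Representation k X W) (x : X) :
    movDim ρ x = 0 ↔ ρ x = 1 := by
  rw [movDim, Submodule.finrank_eq_zero, LinearMap.range_eq_bot, sub_eq_zero]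

/-- The quasi-primitive case. -/
theorem qprim_step [IsAlgClosed k] [Finite X] [Group.IsSolvable X] [FiniteDimensional k W]
    {ρ : Representation k X W} (hq : QPrim ρ) (K : Subgroup X) (s : X) {m h0 μ : ℕ} (hm : 0 < m)
    (hI : IH K s m h0) (hs : ρ (s ^ m) = 1) (hμ : fixDim ρ s ≤ μ) :
    nresN (lam (2 * m ^ 2 * μ) + srb (8 * m ^ 3) + 1 + h0) K ≤ ρ.ker := by
  obtain ⟨F, hF⟩ := exists_symF hq
  have := hq.1.1
  have := hF.normal
  by_cases h : ∀ p : ℕ, p.Prime → p ∣ m →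
      8 * m ^ 3 * (fixS F (scal ρ) (s ^ (m / p))).ncard ≤ Nat.card F
  · have h1 := (hF.wt s hm hs h).trans (Nat.mul_le_mul_left _ hμ)
    refine (nresN_anti ?_ K).trans ((nresN_mono _ le_top).trans (lin ρ h1))
    omega
  · push Not at h
    obtain ⟨p, hp, hpm, h1⟩ := h
    have h2 := sr_sec F (scal ρ) hF.scal_le hF.comm _ h1.le
    have h3 := hI.le_normal 0 hp hpm (Subgroup.normalClosure {s ^ (m / p)})
      (Subgroup.subset_normalClosure rfl)
    have h4 : nresN 1 F ≤ ρ.ker := hF.nres_le_ker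
    refine (nresN_anti ?_ K).trans (nresN_trans (nresN_trans h3 (h2.trans hF.cent)) h4)
    omega

end

/-- The statement of the module lemma with given constants. -/
def PStat (m α c : ℕ) : Prop := ∀ (k : Type) [Field k] [IsAlgClosed k]
    (X : Type) [Group X] [Finite X] [Group.IsSolvable X] (W : Type) [AddCommGroup W] [Module k W]
    [FiniteDimensional k W] (ρ : Representation k X W) (K : Subgroup X) [K.Normal] (s : X)
    (h0 μ : ℕ), IH K s m h0 → ρ (s ^ m) = 1 → fixDim ρ s ≤ μ →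
    nresN (bnd α c h0 μ) K ≤ ρ.ker

theorem PStat.mono {m α c α' c' : ℕ} (h : PStat m α c) (h1 : α ≤ α') (h2 : c ≤ c') :
    PStat m α' c' := fun k _ _ X _ _ _ W _ _ _ ρ K _ s h0 μ hI hs hμ =>
  (nresN_anti (bnd_mono h1 h2 le_rfl) K).trans (h k X W ρ K s h0 μ hI hs hμ)

theorem pstat_step {m α c αq cq : ℕ} (hm : 0 < m) (hQ : QStat m αq cq)
    (ih : ∀ m', 0 < m' → m' < m → PStat m' α c) :
    PStat m (α + αq + srb (8 * m ^ 3) + 3) (c + cq * m + 2 * m ^ 2) := by
  intro k _ _ X _ _ _ W _ _ _ ρ K _ s h0 μ hI hs hμ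
  set Λ := lam ((c + cq * m + 2 * m ^ 2) * (μ + 1)) with hΛ
  have hΛ0 : 0 < Λ := lam_pos _
  have hΛ1 : lam (2 * m ^ 2 * μ) ≤ Λ := lam_mono (Nat.mul_le_mul (by omega) (by omega))
  have hb : bnd (α + αq + srb (8 * m ^ 3) + 3) (c + cq * m + 2 * m ^ 2) h0 μ =
      α * (h0 + Λ) + αq * (h0 + Λ) + srb (8 * m ^ 3) * (h0 + Λ) + 3 * (h0 + Λ) := by
    unfold bnd; ring
  have h7 : bnd α c h0 μ ≤ α * (h0 + Λ) :=
    bnd_mono (c' := c + cq * m + 2 * m ^ 2) le_rfl (by omega) le_rfl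
  have h8 : srb (8 * m ^ 3) ≤ srb (8 * m ^ 3) * (h0 + Λ) := Nat.le_mul_of_pos_right _ (by omega)
  have h9 : bnd αq cq h0 (m * μ) ≤ αq * (h0 + Λ) :=
    Nat.mul_le_mul_left _ (Nat.add_le_add_left (lam_mono (by
      have : cq * (m * μ + 1) ≤ cq * (m * (μ + 1)) := Nat.mul_le_mul_left _ (by nlinarith)
      nlinarith)) _)
  set t := α * (h0 + Λ) + srb (8 * m ^ 3) * (h0 + Λ) + (h0 + Λ) + 1 with ht
  have key := kal_k ρ (nresN (t + bnd αq cq h0 (m * μ)) K) fun W' _ _ _ ρ' hρ' hD => by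
    have hs' : ρ' (s ^ m) = 1 := (movDim_eq_zero_iff ρ' _).1 (Nat.le_zero.1
      ((hD.2 _).2.trans_eq ((movDim_eq_zero_iff ρ _).2 hs)))
    have hμ' : fixDim ρ' s ≤ μ := (hD.2 s).1.trans hμ
    obtain ⟨X0, U, hB, -, hq⟩ := exists_blocks ρ' hρ'
    have h1 := hQ X K s h0 (m * μ) X0 hI (hB.smul_eq_of_mem_ker hs')
      ((hB.ncard_reg_le s hm hs').trans (Nat.mul_le_mul_left _ hμ'))
    have h2 : s ^ m ∈ X0 := by
      simpa using (q_smul_eq_iff X0 _ 1).1 (hB.smul_eq_of_mem_ker hs' _)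
    obtain ⟨j, hj0, hjm, hj⟩ := exists_period s X0 hm h2
    have h3 := (hj j).2 dvd_rfl
    have h4 := (hI.nresN _).sub X0 h1 hjm h3
    have h5 : hB.base ((⟨s ^ j, h3⟩ : X0) ^ (m / j)) = 1 := by
      ext v
      change ρ' ((s ^ j) ^ (m / j)) v = v
      rw [← pow_mul, Nat.mul_div_cancel' hjm, hs']
      rfl
    have h6 := (hB.fixDim_base_le s hj0 h3 fun i hi0 hij hi =>
      (Nat.le_of_dvd hi0 ((hj i).1 hi)).not_gt hij).trans hμ'
    have h10 : nresN t ((nresN (bnd αq cq h0 (m * μ)) K).subgroupOf X0) ≤ hB.base.ker := by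
      by_cases hj1 : j = 1
      · subst hj1
        have h11 := qprim_step hq _ _ (by rwa [Nat.div_one]) h4 h5 h6
        rw [Nat.div_one] at h11
        refine (nresN_anti ?_ _).trans h11
        omega
      · refine (nresN_anti ?_ _).trans (ih (m / j) (Nat.div_pos (Nat.le_of_dvd hm hjm) hj0)
          (Nat.div_lt_self hm (by omega)) k X0 _ hB.base _ _ h0 μ h4 h5 h6)
        omega
    rw [nresN_subgroupOf _ h1, ← nresN_add] at h10
    exact hB.le_ker _ ((nresN_anti (Nat.le_add_left _ _) K).trans h1) h10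
  rw [← nresN_succ] at key
  refine (nresN_anti ?_ K).trans key
  omega

theorem lemP (m : ℕ) (hm : 0 < m) : ∃ α c : ℕ, ∀ (k : Type) [Field k] [IsAlgClosed k]
    (X : Type) [Group X] [Finite X] [Group.IsSolvable X] (W : Type) [AddCommGroup W] [Module k W]
    [FiniteDimensional k W] (ρ : Representation k X W) (K : Subgroup X) [K.Normal] (s : X)
    (h0 μ : ℕ), IH K s m h0 → ρ (s ^ m) = 1 → fixDim ρ s ≤ μ →
    nresN (bnd α c h0 μ) K ≤ ρ.ker := by
  have key : ∀ M, ∃ α c, ∀ m, 0 < m → m < M → PStat m α c := by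
    intro M
    induction M with
    | zero => exact ⟨0, 0, fun m h1 h2 => by omega⟩
    | succ M ih =>
      obtain ⟨α, c, ih⟩ := ih
      rcases Nat.eq_zero_or_pos M with rfl | hM
      · exact ⟨0, 0, fun m h1 h2 => by omega⟩
      obtain ⟨αq, cq, hQ⟩ := lemQ M hM
      refine ⟨α + αq + srb (8 * M ^ 3) + 3, c + cq * M + 2 * M ^ 2, fun m h1 h2 => ?_⟩
      rcases Nat.lt_succ_iff_lt_or_eq.1 h2 with h | rfl
      · exact (ih m h1 h).mono (by omega) (by omega)
      · exact pstat_step h1 hQ ih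
  obtain ⟨α, c, h⟩ := key (m + 1)
  exact ⟨α, c, h m hm (Nat.lt_succ_self m)⟩

end Pool.Agent.P.MP_618680_al.FH
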