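import Pool.Agent.P.MP_618680_al.FH.Ord

/-! Primitive and transitive soluble permutation groups. -/

set_option autoImplicit false

namespace Pool.Agent.P.MP_618680_al.FH

open scoped commutatorElement
open Module

variable {X : Type} [Group X]


theorem prim_count {Ω : Type} [MulAction X Ω] {A N : Subgroup X} (hNA : N ≤ A) (ω0 : Ω)
    (hst : ∀ a ∈ A, a • ω0 = ω0 ↔ a ∈ N) (T : Set Ω) (htr : ∀ ω, ∃ a ∈ A, a • ω0 = ω) :
    {a | a ∈ A ∧ a • ω0 ∈ T}.ncard = T.ncard * Nat.card N := by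
  choose s hs hs' using htr
  have h1 : ∀ (ω : Ω) (n : N), (s ω * n) • ω0 = ω := fun ω n => by
    rw [mul_smul, (hst n (hNA n.2)).2 n.2, hs']
  rw [← Nat.card_coe_set_eq, ← Nat.card_coe_set_eq, ← Nat.card_prod]
  refine (Nat.card_eq_of_bijective (fun p : T × N => (⟨s p.1 * p.2,
    A.mul_mem (hs _) (hNA p.2.2), by rw [h1]; exact p.1.2⟩ : {a | a ∈ A ∧ a • ω0 ∈ T}))
    ⟨fun p q h => ?_, fun a => ?_⟩).symm
  · have h2 : s p.1 * p.2 = s q.1 * q.2 := congrArg Subtype.val h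
    have h3 : (p.1 : Ω) = q.1 := by rw [← h1 p.1 p.2, h2, h1]
    rw [h3, mul_right_inj] at h2
    exact Prod.ext (Subtype.ext h3) (Subtype.ext h2)
  · refine ⟨(⟨a.1 • ω0, a.2.2⟩, ⟨(s (a.1 • ω0))⁻¹ * a.1,
      (hst _ (A.mul_mem (A.inv_mem (hs _)) a.2.1)).1 ?_⟩), Subtype.ext ?_⟩
    · rw [mul_smul, inv_smul_eq_iff, hs']
    · exact mul_inv_cancel_left _ _

theorem prim_card {H A : Subgroup X} (h : H ≤ A) : H.relIndex A * Nat.card H = Nat.card A := by
  rw [← Nat.card_congr (Subgroup.subgroupOfEquivOfLe h).toEquiv, Subgroup.relIndex,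
    Subgroup.index_mul_card]

theorem prim_smul {Y : Subgroup X} (a g : X) :
    a • (g : X ⧸ Y) = g ↔ g⁻¹ * a * g ∈ Y := by
  rw [MulAction.Quotient.smul_coe, eq_comm, QuotientGroup.eq, smul_eq_mul, mul_assoc]

theorem prim_stab {A Y : Subgroup X} [hA : A.Normal] (h : A ⊓ Y ≤ Y.normalCore) (ω : X ⧸ Y)
    (a : X) (ha : a ∈ A) : a • ω = ω ↔ a ∈ Y.normalCore := by
  obtain ⟨g, rfl⟩ := QuotientGroup.mk_surjective ω
  rw [prim_smul]
  constructor
  · intro h1
    have h2 := Y.normalCore_normal.conj_mem _ (h ⟨hA.conj_mem' a ha g, h1⟩) g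
    rwa [show g * (g⁻¹ * a * g) * g⁻¹ = a by group] at h2
  · exact fun h1 => Y.normalCore_le (Y.normalCore_normal.conj_mem' a h1 g)

theorem prim_pre (Y : Subgroup X) (T : Set (X ⧸ Y)) :
    {g : X | (g : X ⧸ Y) ∈ T}.ncard = T.ncard * Nat.card Y := by
  rw [← prim_count (A := ⊤) le_top ((1 : X) : X ⧸ Y) (fun a _ => by rw [prim_smul]; simp) T
    fun ω => by
      obtain ⟨g, rfl⟩ := QuotientGroup.mk_surjective ω
      exact ⟨g, trivial, by simp⟩]
  simp

/-- Structure of a primitive soluble permutation group. -/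
theorem prim_exists [Finite X] [Group.IsSolvable X] (Y : Subgroup X) (hY : IsCoatom Y) :
    ∃ A : Subgroup X, A.Normal ∧ Y.normalCore ≤ A ∧ ⁅A, A⁆ ≤ Y.normalCore ∧
      secCent A Y.normalCore ≤ A ∧ Y.normalCore.relIndex A = Y.index ∧ A ⊓ Y ≤ Y.normalCore ∧
      ∀ x : X, (∃ ω : X ⧸ Y, x • ω = ω) →
        {ω : X ⧸ Y | x • ω = ω}.ncard * Nat.card Y.normalCore =
          (fixS A Y.normalCore x).ncard := by
  obtain ⟨A, hA, hNA, -, hAA⟩ :=
    exists_abelian_above Y.normalCore ⊤ (Y.normalCore_le.trans_lt hY.1.lt_top)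
  have hsup : A ⊔ Y = ⊤ := hY.2 _ (right_lt_sup.2 fun h =>
    hNA.not_ge (Subgroup.normal_le_normalCore.2 h))
  have hdec : ∀ x : X, ∃ a ∈ A, ∃ y ∈ Y, a * y = x := fun x =>
    Subgroup.mem_sup_of_normal_left.1 (hsup ▸ Subgroup.mem_top x)
  have key : ∀ C : Subgroup X, C.Normal → ⁅A, C⁆ ≤ Y.normalCore → C ⊓ Y ≤ Y.normalCore := by
    intro C hC h c hc b
    obtain ⟨a, ha, y, hy, rfl⟩ := hdec b
    have h1 : y * c * y⁻¹ ∈ Y := Y.mul_mem (Y.mul_mem hy hc.2) (Y.inv_mem hy)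
    have h2 := Y.normalCore_le (h (Subgroup.commutator_mem_commutator ha (hC.conj_mem c hc.1 y)))
    have h3 := Y.mul_mem h2 h1
    rwa [show ⁅a, y * c * y⁻¹⁆ * (y * c * y⁻¹) = a * y * c * (a * y)⁻¹ by
      rw [commutatorElement_def]; group] at h3
  have hAY := key A hA hAA
  have htr : ∀ ω0 ω : X ⧸ Y, ∃ a ∈ A, a • ω0 = ω := by
    have h1 : ∀ ω : X ⧸ Y, ∃ a ∈ A, (a : X ⧸ Y) = ω := fun ω => by
      obtain ⟨g, rfl⟩ := QuotientGroup.mk_surjective ω
      obtain ⟨a, ha, y, hy, rfl⟩ := hdec g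
      exact ⟨a, ha, (QuotientGroup.mk_mul_of_mem a hy).symm⟩
    intro ω0 ω
    obtain ⟨a0, h0, rfl⟩ := h1 ω0
    obtain ⟨a, ha, rfl⟩ := h1 ω
    exact ⟨a * a0⁻¹, A.mul_mem ha (A.inv_mem h0), by simp⟩
  refine ⟨A, hA, hNA.le, hAA, fun c hc => ?_, ?_, hAY, ?_⟩
  · obtain ⟨a, ha, y, hy, rfl⟩ := hdec c
    have h1 : y ∈ secCent A Y.normalCore :=
      (Subgroup.mul_mem_cancel_left _ (le_secCent_iff.2 hAA ha)).1 hc
    exact A.mul_mem ha (hNA.le (key _ inferInstance (le_secCent_iff.1 le_rfl) ⟨h1, hy⟩))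
  · have h1 := prim_count hNA.le ((1 : X) : X ⧸ Y) (prim_stab hAY _) Set.univ (htr _)
    have h2 : {a | a ∈ A ∧ a • ((1 : X) : X ⧸ Y) ∈ Set.univ} = (A : Set X) := by
      ext a
      simp
    rw [h2, Set.ncard_univ, ← Nat.card_coe_set_eq] at h1
    exact Nat.eq_of_mul_eq_mul_right Nat.card_pos ((prim_card hNA.le).trans h1)
  · rintro x ⟨ω0, h0⟩
    rw [← prim_count hNA.le ω0 (prim_stab hAY _) _ (htr _)]
    congr 1
    ext a
    refine and_congr_right fun ha => ?_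
    have h1 : a⁻¹ * (x * a * x⁻¹) ∈ A := A.mul_mem (A.inv_mem ha) (hA.conj_mem a ha x)
    have h2 : x • a • ω0 = a • ω0 ↔ (a⁻¹ * (x * a * x⁻¹)) • ω0 = ω0 := by
      rw [mul_smul, mul_smul, mul_smul, inv_smul_eq_iff.2 h0.symm, inv_smul_eq_iff]
    rw [Set.mem_ofPred_eq, h2, prim_stab hAY ω0 _ h1, ← Subgroup.inv_mem_iff,
      show (a⁻¹ * (x * a * x⁻¹))⁻¹ = a⁻¹ * ⁅a, x⁆ * a by rw [commutatorElement_def]; group]
    refine ⟨fun h => ?_, fun h => Y.normalCore_normal.conj_mem' _ h a⟩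
    have h3 := Y.normalCore_normal.conj_mem _ h a
    rwa [show a * (a⁻¹ * ⁅a, x⁆ * a) * a⁻¹ = ⁅a, x⁆ by group] at h3

/-- A subgroup of index `d` contains the residual of order `3 (log₂ d)²`. -/
theorem perm_bound (X : Type) [Group X] [Finite X] [Group.IsSolvable X] (X0 : Subgroup X) :
    nresN (3 * Nat.log 2 X0.index ^ 2) ⊤ ≤ X0 := by
  induction hn : X0.index using Nat.strong_induction_on generalizing X with
  | _ n ih =>
  rcases eq_top_or_exists_le_coatom X0 with rfl | ⟨Y, hY, hXY⟩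
  · exact le_top
  obtain ⟨A, hA, -, hAA, hC, hi, -⟩ := prim_exists Y hY
  have ha : 2 ≤ Y.index := by
    have h1 : Y.index ≠ 0 := Subgroup.index_ne_zero_of_finite
    have h2 : Y.index ≠ 1 := fun h => hY.1 (Subgroup.index_eq_one.1 h)
    omega
  have hb : (X0.subgroupOf Y).index ≠ 0 := Subgroup.index_ne_zero_of_finite
  have hab : (X0.subgroupOf Y).index * Y.index = n := hn ▸ Subgroup.relIndex_mul_index hXY
  have h1 := nresN_le_of_top (ih _ (by nlinarith [Nat.pos_of_ne_zero hb]) Y (X0.subgroupOf Y) rfl)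
  have h2 := (nresN_le_secCent A Y.normalCore).trans hC
  rw [hi] at h2
  have h3 : nresN 1 A ≤ Y := (nres_le_commutator A).trans (hAA.trans Y.normalCore_le)
  refine (nresN_anti ?_ ⊤).trans (nresN_trans (nresN_trans h2 h3) h1)
  have h4 : 0 < Nat.log 2 Y.index := Nat.log_pos one_lt_two ha
  have h5 : Nat.log 2 (X0.subgroupOf Y).index + Nat.log 2 Y.index ≤ Nat.log 2 n := by
    refine Nat.le_log_of_pow_le one_lt_two ?_
    rw [pow_add, ← hab]
    exact Nat.mul_le_mul (Nat.pow_log_le_self 2 hb) (Nat.pow_log_le_self 2 (by omega))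
  have h6 := Nat.pow_le_pow_left h5 2
  nlinarith

/-- Some generator moves at least half of the points. -/
theorem exists_moves_half [Finite X] [Group.IsSolvable X] (S : Set X)
    (hS : Subgroup.closure S = ⊤) (X0 : Subgroup X) (h : X0 ≠ ⊤) :
    ∃ y ∈ S, X0.index ≤ 2 * {ω : X ⧸ X0 | y • ω ≠ ω}.ncard := by
  obtain ⟨Y, hY, hXY⟩ := (eq_top_or_exists_le_coatom X0).resolve_left h
  obtain ⟨A, hA, hNA, -, hC, hi, hAY, hfix⟩ := prim_exists Y hY
  obtain ⟨y, hyS, hy⟩ : ∃ y ∈ S, y ∉ Y.normalCore := by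
    by_contra h1
    push Not at h1
    exact hY.1 (top_le_iff.1 (hS ▸ ((Subgroup.closure_le _).2 h1).trans Y.normalCore_le))
  refine ⟨y, hyS, ?_⟩
  have h1 : 2 * {ω : X ⧸ Y | y • ω = ω}.ncard ≤ Y.index := by
    rcases Set.eq_empty_or_nonempty {ω : X ⧸ Y | y • ω = ω} with h1 | ⟨ω, hω⟩
    · simp [h1]
    let H : Subgroup X := A ⊓ (Subgroup.centralizer {QuotientGroup.mk' Y.normalCore y}).comap
      (QuotientGroup.mk' Y.normalCore)
    have hH : (H : Set X) = fixS A Y.normalCore y := by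
      ext a
      refine and_congr_right fun _ => ?_
      refine Subgroup.mem_centralizer_singleton_iff.trans ?_
      rw [← commutatorElement_eq_one_iff_mul_comm, ← map_commutatorElement, ← MonoidHom.mem_ker,
        QuotientGroup.ker_mk']
    have h2 : H.relIndex A ≠ 1 := fun h2 => by
      have h3 := Subgroup.relIndex_eq_one.1 h2
      have h4 : y ∈ A := hC (mem_secCent.2 fun a ha =>
        (show a ∈ fixS A Y.normalCore y from hH ▸ h3 ha).2)
      exact hy ((prim_stab hAY ω y h4).1 hω)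
    have h3 : H.relIndex A ≠ 0 := Subgroup.index_ne_zero_of_finite
    have h4 := prim_card (H := H) (A := A) inf_le_left
    have h5 := hfix y ⟨ω, hω⟩
    rw [← hH, ← Nat.card_coe_set_eq (H : Set X)] at h5
    refine Nat.le_of_mul_le_mul_right ?_ (Nat.card_pos (α := Y.normalCore))
    rw [mul_assoc, h5, ← hi, prim_card hNA, ← h4]
    exact Nat.mul_le_mul_right _ (by omega)
  have h2 : {ω : X ⧸ Y | y • ω = ω}.ncard + {ω : X ⧸ Y | y • ω ≠ ω}.ncard = Y.index :=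
    Set.ncard_add_ncard_compl _
  have h3 : {ω : X ⧸ Y | y • ω ≠ ω}.ncard * Nat.card Y ≤
      {ω : X ⧸ X0 | y • ω ≠ ω}.ncard * Nat.card X0 := by
    rw [← prim_pre, ← prim_pre]
    exact Set.ncard_le_ncard fun g hg h4 => hg ((prim_smul y g).2 (hXY ((prim_smul y g).1 h4)))
  refine Nat.le_of_mul_le_mul_right ?_ (Nat.card_pos (α := X0))
  rw [Subgroup.index_mul_card, ← Subgroup.index_mul_card Y, mul_assoc]
  refine le_trans ?_ (Nat.mul_le_mul_left 2 h3)
  rw [← mul_assoc]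
  exact Nat.mul_le_mul_right _ (by omega)

end Pool.Agent.P.MP_618680_al.FH
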