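import Pool.Agent.P.MP_618680_al.FH.Lin

/-! Permutation actions with few regular points. -/

set_option autoImplicit false

namespace Pool.Agent.P.MP_618680_al.FH

open scoped commutatorElement
open Module

variable {X : Type} [Group X]

/-- The cosets of `X0` inside `Y`, as cosets in `X`. -/
def qEmb (X0 Y : Subgroup X) : Y ⧸ X0.subgroupOf Y → X ⧸ X0 :=
  Quotient.map' Subtype.val fun a b h => by
    rw [QuotientGroup.leftRel_apply] at h ⊢
    exact h

theorem qEmb_mk (X0 Y : Subgroup X) (y : Y) :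
    qEmb X0 Y (y : Y ⧸ X0.subgroupOf Y) = ((y : X) : X ⧸ X0) := rfl

theorem qEmb_injective (X0 Y : Subgroup X) : Function.Injective (qEmb X0 Y) := by
  intro a b h
  induction a using QuotientGroup.induction_on
  induction b using QuotientGroup.induction_on
  rw [qEmb_mk, qEmb_mk, QuotientGroup.eq] at h
  exact QuotientGroup.eq.2 h

theorem qEmb_smul (X0 Y : Subgroup X) (z : Y) (ω : Y ⧸ X0.subgroupOf Y) :
    qEmb X0 Y (z • ω) = (z : X) • qEmb X0 Y ω := by
  induction ω using QuotientGroup.induction_on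
  rfl

theorem q_smul_eq_iff (X0 : Subgroup X) (x y : X) :
    x • (y : X ⧸ X0) = y ↔ y⁻¹ * x * y ∈ X0 := by
  rw [MulAction.Quotient.smul_coe, eq_comm, QuotientGroup.eq, smul_eq_mul, mul_assoc]

theorem exists_period (s : X) (Y : Subgroup X) {m : ℕ} (hm : 0 < m) (hs : s ^ m ∈ Y) :
    ∃ j, 0 < j ∧ j ∣ m ∧ ∀ i, s ^ i ∈ Y ↔ j ∣ i := by
  classical
  have h : ∃ j, 0 < j ∧ s ^ j ∈ Y := ⟨m, hm, hs⟩
  obtain ⟨h1, h2⟩ := Nat.find_spec h
  have key : ∀ i, s ^ i ∈ Y ↔ Nat.find h ∣ i := fun i => by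
    constructor
    · intro hi
      by_contra hne
      have h3 : 0 < i % Nat.find h := Nat.pos_of_ne_zero fun h0 => hne (Nat.dvd_of_mod_eq_zero h0)
      refine Nat.find_min h (Nat.mod_lt i h1) ⟨h3, ?_⟩
      rw [← Nat.div_add_mod i (Nat.find h), pow_add, pow_mul] at hi
      exact (Y.mul_mem_cancel_left (Y.pow_mem h2 _)).1 hi
    · rintro ⟨e, rfl⟩
      rw [pow_mul]
      exact Y.pow_mem h2 _
  exact ⟨_, h1, (key m).1 hs, key⟩

theorem ncard_reg_sub [Finite X] {X0 Y : Subgroup X} (h : X0 ≤ Y) (s : X) {m j : ℕ} (hj0 : 0 < j)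
    (_hjm : j ∣ m) (hj : ∀ i, s ^ i ∈ Y ↔ j ∣ i) (hs : s ^ j ∈ Y) :
    (Reg (⟨s ^ j, hs⟩ : Y) (m / j) (Y ⧸ X0.subgroupOf Y)).ncard ≤ (Reg s m (X ⧸ X0)).ncard := by
  refine Set.ncard_le_ncard_of_injOn (qEmb X0 Y) (fun ω hω p hp hpm hfix => ?_)
    (qEmb_injective X0 Y).injOn (Set.toFinite _)
  induction ω using QuotientGroup.induction_on with
  | H y =>
    have h1 : s ^ (m / p) ∈ Y := by
      have h2 := h ((q_smul_eq_iff X0 _ _).1 hfix)
      rwa [Y.mul_mem_cancel_right y.2, Y.mul_mem_cancel_left (Y.inv_mem y.2)] at h2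
    obtain ⟨e, he⟩ := (hj _).1 h1
    have hm : m = j * (p * e) := by
      rw [← Nat.mul_div_cancel' hpm, he]; ring
    have h3 : m / j = p * e := by rw [hm, Nat.mul_div_cancel_left _ hj0]
    refine hω p hp (h3 ▸ dvd_mul_right _ _) (qEmb_injective X0 Y ?_)
    rw [qEmb_smul, h3, Nat.mul_div_cancel_left _ hp.pos]
    rw [he, pow_mul] at hfix
    exact hfix

theorem ncard_reg_proj [Finite X] {X0 Y : Subgroup X} (h : X0 ≤ Y) (s : X) (m : ℕ) :
    (Reg s m (X ⧸ Y)).ncard ≤ (Reg s m (X ⧸ X0)).ncard := by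
  refine le_trans (Set.ncard_le_ncard ?_ (Set.toFinite _))
    (Set.ncard_image_le (f := Subgroup.quotientMapOfLE h) (Set.toFinite _))
  intro ω hω
  induction ω using QuotientGroup.induction_on with
  | H y =>
    exact ⟨(y : X ⧸ X0), fun p hp hpm hfix => hω p hp hpm
      ((q_smul_eq_iff Y _ _).2 (h ((q_smul_eq_iff X0 _ _).1 hfix))), rfl⟩

theorem relIndex_mul_card' {N A : Subgroup X} (h : N ≤ A) :
    N.relIndex A * Nat.card N = Nat.card A := by
  rw [← Nat.card_congr (Subgroup.subgroupOfEquivOfLe h).toEquiv, mul_comm]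
  exact Subgroup.card_mul_index _

theorem card_primeFactors_le (m : ℕ) : m.primeFactors.card ≤ m := by
  have : m.primeFactors ⊆ Finset.Ioc 0 m := fun p hp =>
    Finset.mem_Ioc.2 ⟨(Nat.prime_of_mem_primeFactors hp).pos, Nat.le_of_mem_primeFactors hp⟩
  simpa using Finset.card_le_card this

/-- Either few points, or an element of prime order with many fixed points. -/
theorem exists_many_fixed {Ω : Type} [Finite Ω] [MulAction X Ω] (s : X) {m ν : ℕ} (hm : 0 < m)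
    (hν : (Reg s m Ω).ncard ≤ ν) (h : ¬ Nat.card Ω ≤ 2 * ν) :
    ∃ p, p.Prime ∧ p ∣ m ∧ Nat.card Ω ≤ 2 * m * {ω : Ω | s ^ (m / p) • ω = ω}.ncard := by
  by_contra hc
  push Not at hc
  have h1 : (Set.univ : Set Ω) ⊆ Reg s m Ω ∪
      ⋃ p ∈ m.primeFactors, {ω : Ω | s ^ (m / p) • ω = ω} := fun ω _ => by
    by_cases hω : ω ∈ Reg s m Ω
    · exact Or.inl hω
    · simp only [Reg, Set.mem_ofPred_eq] at hω
      push Not at hω
      obtain ⟨p, hp, hpm, h2⟩ := hω
      exact Or.inr (Set.mem_biUnion (Nat.mem_primeFactors.2 ⟨hp, hpm, hm.ne'⟩) h2)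
  have h2 := (Set.ncard_le_ncard h1 (Set.toFinite _)).trans (Set.ncard_union_le _ _)
  rw [Set.ncard_univ] at h2
  have h3 := Finset.set_ncard_biUnion_le m.primeFactors fun p => {ω : Ω | s ^ (m / p) • ω = ω}
  have h4 : 2 * m * ∑ p ∈ m.primeFactors, {ω : Ω | s ^ (m / p) • ω = ω}.ncard ≤
      m * Nat.card Ω := by
    rw [Finset.mul_sum]
    refine (Finset.sum_le_card_nsmul _ _ (Nat.card Ω) fun p hp => ?_).trans ?_
    · exact (hc p (Nat.prime_of_mem_primeFactors hp) (Nat.dvd_of_mem_primeFactors hp)).le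
    · rw [smul_eq_mul]
      exact Nat.mul_le_mul_right _ (card_primeFactors_le m)
  rw [mul_comm 2 m, mul_assoc] at h4
  have h5 := Nat.le_of_mul_le_mul_left h4 hm
  omega

/-- The primitive case. -/
theorem prim_step [Finite X] [Group.IsSolvable X] (Y : Subgroup X) (hY : IsCoatom Y)
    (K : Subgroup X) (s : X) {m h0 ν : ℕ} (hm : 0 < m) (hI : IH K s m h0)
    (hν : (Reg s m (X ⧸ Y)).ncard ≤ ν) : nresN (lam (2 * ν) + srb (2 * m) + 1 + h0) K ≤ Y := by
  by_cases h : Nat.card (X ⧸ Y) ≤ 2 * ν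
  · refine (nresN_anti ?_ K).trans ((nresN_mono _ le_top).trans (perm_bound X Y))
    have := three_log_sq_le_lam (a := Y.index) h
    omega
  obtain ⟨p, hp, hpm, h1⟩ := exists_many_fixed s hm hν h
  obtain ⟨A, hA, h2, h3, h4, h5, -, h6⟩ := prim_exists Y hY
  have h7 : ∃ ω : X ⧸ Y, s ^ (m / p) • ω = ω := by
    by_contra hne
    have : {ω : X ⧸ Y | s ^ (m / p) • ω = ω} = ∅ := Set.eq_empty_of_forall_notMem
      fun ω hω => hne ⟨ω, hω⟩
    rw [this, Set.ncard_empty] at h1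
    omega
  have h8 := sr_sec A Y.normalCore h2 h3 (s ^ (m / p)) (c := 2 * m) (by
    rw [← h6 _ h7, ← relIndex_mul_card' h2, h5, ← mul_assoc]
    exact Nat.mul_le_mul_right _ h1)
  have h9 := hI.le_normal 0 hp hpm (Subgroup.normalClosure {s ^ (m / p)})
    (Subgroup.subset_normalClosure rfl)
  have h10 : nresN 1 A ≤ Y := (nres_le_commutator A).trans (h3.trans Y.normalCore_le)
  refine (nresN_anti ?_ K).trans (nresN_trans (nresN_trans h9 (h8.trans h4)) h10)
  omega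

theorem isCoatom_subgroupOf {Y Y' : Subgroup X} (h : Y ⋖ Y') : IsCoatom (Y.subgroupOf Y') := by
  refine ⟨fun e => h.lt.not_ge (Subgroup.subgroupOf_eq_top.1 e), fun Z hZ => ?_⟩
  have h1 : Y < Z.map Y'.subtype := by
    have := (Subgroup.map_lt_map_iff_of_injective Y'.subtype_injective).2 hZ
    rwa [Subgroup.subgroupOf_map_subtype, inf_eq_left.2 h.le] at this
  have h2 := (h.eq_or_eq h1.le (Subgroup.map_subtype_le Z)).resolve_left h1.ne'
  apply Subgroup.map_injective Y'.subtype_injective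
  rw [h2, ← MonoidHom.range_eq_map, Subgroup.subtype_range]

/-- A block system on which `s` is not trivial but a residual of `K` is. -/
theorem exists_block [Finite X] [Group.IsSolvable X] (K : Subgroup X) [K.Normal] (s : X)
    {m h0 ν : ℕ} (hm : 1 < m) (hI : IH K s m h0) (X0 : Subgroup X) (hs : s ∉ X0.normalCore)
    (hν : (Reg s m (X ⧸ X0)).ncard ≤ ν) : ∃ Y : Subgroup X, X0 ≤ Y ∧ s ∉ Y.normalCore ∧
      nresN (lam (2 * ν) + srb (2 * m) + 1 + h0 + h0) K ≤ Y := by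
  obtain ⟨Y, ⟨hY1, hY2⟩, hY3⟩ := (wellFounded_gt (α := Subgroup X)).has_min
    {Y : Subgroup X | X0 ≤ Y ∧ s ∉ Y.normalCore} ⟨X0, le_rfl, hs⟩
  have hne : Y < ⊤ := lt_top_iff_ne_top.2 fun e => hY2 (by
    rw [e]; exact fun b => Subgroup.mem_top _)
  have := IsStronglyAtomic.of_wellFounded_lt (wellFounded_lt (α := Subgroup X))
  obtain ⟨Y', hY', -⟩ := hne.exists_covby_le
  have h1 : s ∈ Y'.normalCore := by
    by_contra h
    exact hY3 Y' ⟨hY1.trans hY'.le, h⟩ hY'.lt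
  obtain ⟨p, hp, hpm⟩ := Nat.exists_prime_and_dvd hm.ne'
  have h2 : nresN h0 K ≤ Y' :=
    (hI.le_normal 0 hp hpm Y'.normalCore (Subgroup.pow_mem _ h1 _)).trans Y'.normalCore_le
  have h3 : s ^ 1 ∈ Y' := Y'.pow_mem (Y'.normalCore_le h1) _
  have h4 := prim_step (Y.subgroupOf Y') (isCoatom_subgroupOf hY') _ _
    (by rw [Nat.div_one]; omega) ((hI.nresN h0).sub Y' h2 (one_dvd m) h3)
    ((ncard_reg_sub hY'.le s one_pos (one_dvd m) (fun i => ⟨fun _ => one_dvd i,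
      fun _ => Y'.pow_mem (Y'.normalCore_le h1) _⟩) h3).trans ((ncard_reg_proj hY1 s m).trans hν))
  rw [Nat.div_one] at h4
  refine ⟨Y, hY1, hY2, ?_⟩
  rw [nresN_add _ h0]
  exact nresN_le_of_subgroupOf h2 h4

/-- The statement of the permutation lemma with given constants. -/
def QStat (m α c : ℕ) : Prop := ∀ (X : Type) [Group X] [Finite X]
    [Group.IsSolvable X] (K : Subgroup X) [K.Normal] (s : X) (h0 ν : ℕ) (X0 : Subgroup X),
    IH K s m h0 → (∀ ω : X ⧸ X0, s ^ m • ω = ω) → (Reg s m (X ⧸ X0)).ncard ≤ ν →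
    nresN (bnd α c h0 ν) K ≤ X0

theorem QStat.mono {m α c α' c' : ℕ} (h : QStat m α c) (h1 : α ≤ α') (h2 : c ≤ c') :
    QStat m α' c' := fun X _ _ _ K _ s h0 ν X0 hI hs hν =>
  (nresN_anti (bnd_mono h1 h2 le_rfl) K).trans (h X K s h0 ν X0 hI hs hν)

theorem qstat_step {M α c : ℕ} (ih : ∀ m, 0 < m → m ≤ M → QStat m α c) :
    QStat (M + 1) (α + srb (2 * (M + 1)) + 4) (c + 2) := by
  intro X _ _ _ K _ s h0 ν X0 hI hs hν
  set Λ := lam ((c + 2) * (ν + 1)) with hΛ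
  have hΛ0 : 0 < Λ := lam_pos _
  have hΛ1 : lam (2 * ν) ≤ Λ := lam_mono (by nlinarith)
  have hb : bnd (α + srb (2 * (M + 1)) + 4) (c + 2) h0 ν =
      α * (h0 + Λ) + srb (2 * (M + 1)) * (h0 + Λ) + 4 * (h0 + Λ) := by
    unfold bnd; ring
  rcases Nat.eq_zero_or_pos M with rfl | hM
  · have h1 : Reg s (0 + 1) (X ⧸ X0) = Set.univ := Set.eq_univ_of_forall fun ω p hp hpm =>
      absurd (Nat.dvd_one.1 hpm) hp.one_lt.ne'
    rw [h1, Set.ncard_univ] at hν
    refine (nresN_anti ?_ K).trans ((nresN_mono _ le_top).trans (perm_bound X X0))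
    have := three_log_sq_le_lam (a := X0.index) (d := 2 * ν) (le_trans hν (by omega))
    omega
  by_cases h1 : s ∈ X0.normalCore
  · obtain ⟨p, hp, hpm⟩ := Nat.exists_prime_and_dvd (n := M + 1) (by omega)
    refine (nresN_anti ?_ K).trans
      ((hI.le_normal 0 hp hpm X0.normalCore (Subgroup.pow_mem _ h1 _)).trans X0.normalCore_le)
    omega
  obtain ⟨Y, hY1, hY2, hY3⟩ := exists_block K s (by omega) hI X0 h1 hν
  obtain ⟨x, hx⟩ : ∃ x : X, x⁻¹ * s * x ∉ Y := by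
    by_contra hc
    push Not at hc
    exact hY2 fun b => by simpa using hc b⁻¹
  have e : (x⁻¹ * s * x) ^ (M + 1) = x⁻¹ * s ^ (M + 1) * x := by
    simpa using conj_pow (a := x⁻¹) (b := s) (i := M + 1)
  have h2 : ∀ ω : X ⧸ X0, (x⁻¹ * s * x) ^ (M + 1) • ω = ω := fun ω => by
    rw [e, mul_smul, mul_smul, hs, inv_smul_smul]
  have h3 : (x⁻¹ * s * x) ^ (M + 1) ∈ Y :=
    hY1 (by simpa using (q_smul_eq_iff X0 _ 1).1 (h2 _))
  obtain ⟨j, hj0, hjm, hj⟩ := exists_period _ Y (Nat.succ_pos M) h3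
  have hj1 : j ≠ 1 := by
    rintro rfl
    exact hx (by simpa using (hj 1).2 dvd_rfl)
  have h4 := (hj j).2 dvd_rfl
  have h5 := ih ((M + 1) / j) (Nat.div_pos (Nat.le_of_dvd (Nat.succ_pos M) hjm) hj0)
    (Nat.lt_succ_iff.1 (Nat.div_lt_self (Nat.succ_pos M) (by omega))) Y _ _ h0 ν
    (X0.subgroupOf Y) (((hI.conj x).nresN _).sub Y hY3 hjm h4)
    (fun ω => qEmb_injective X0 Y (by
      rw [qEmb_smul, Subgroup.coe_pow, ← pow_mul, Nat.mul_div_cancel' hjm]
      exact h2 _))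
    ((ncard_reg_sub hY1 _ hj0 hjm hj h4).trans ((ncard_reg_conj s x _ _).trans_le hν))
  have h6 := nresN_le_of_subgroupOf hY3 h5
  rw [← nresN_add] at h6
  refine (nresN_anti ?_ K).trans h6
  have h7 : bnd α c h0 ν ≤ α * (h0 + Λ) := bnd_mono (c' := c + 2) le_rfl (by omega) le_rfl
  have h8 : srb (2 * (M + 1)) ≤ srb (2 * (M + 1)) * (h0 + Λ) :=
    Nat.le_mul_of_pos_right _ (by omega)
  omega

theorem lemQ (m : ℕ) (hm : 0 < m) : ∃ α c : ℕ, ∀ (X : Type) [Group X] [Finite X]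
    [Group.IsSolvable X] (K : Subgroup X) [K.Normal] (s : X) (h0 ν : ℕ) (X0 : Subgroup X),
    IH K s m h0 → (∀ ω : X ⧸ X0, s ^ m • ω = ω) → (Reg s m (X ⧸ X0)).ncard ≤ ν →
    nresN (bnd α c h0 ν) K ≤ X0 := by
  have key : ∀ M, ∃ α c, ∀ m, 0 < m → m ≤ M → QStat m α c := by
    intro M
    induction M with
    | zero => exact ⟨0, 0, fun m h1 h2 => by omega⟩
    | succ M ih =>
      obtain ⟨α, c, ih⟩ := ih
      refine ⟨α + srb (2 * (M + 1)) + 4, c + 2, fun m h1 h2 => ?_⟩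
      rcases Nat.lt_succ_iff_lt_or_eq.1 (Nat.lt_succ_of_le h2) with h | rfl
      · exact (ih m h1 (by omega)).mono (by omega) (by omega)
      · exact qstat_step ih
  obtain ⟨α, c, h⟩ := key m
  exact ⟨α, c, h m hm le_rfl⟩

end Pool.Agent.P.MP_618680_al.FH
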