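import Pool.Agent.P.MP_618680_al.FH.Defs

/-! Calculus of nilpotent residuals and derived series; transport of the induction hypothesis. -/

set_option autoImplicit false

namespace Pool.Agent.P.MP_618680_al.FH

open scoped commutatorElement
open Module

variable {X : Type} [Group X] {Y : Type} [Group Y]

theorem nres_le_lcs (K : Subgroup X) (i : ℕ) : nres K ≤ K.lowerCentralSeries i := iInf_le _ i

theorem nres_le (K : Subgroup X) : nres K ≤ K := nres_le_lcs K 0

theorem nres_le_commutator (K : Subgroup X) : nres K ≤ ⁅K, K⁆ := nres_le_lcs K 1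

theorem nres_le_commutator₂ (K : Subgroup X) : nres K ≤ ⁅⁅K, K⁆, K⁆ := nres_le_lcs K 2

theorem nres_mono {K L : Subgroup X} (h : K ≤ L) : nres K ≤ nres L :=
  iInf_mono fun i => Subgroup.lowerCentralSeries_mono i h

@[simp] theorem nresN_zero (K : Subgroup X) : nresN 0 K = K := rfl

theorem nresN_succ (h : ℕ) (K : Subgroup X) : nresN (h + 1) K = nres (nresN h K) :=
  Function.iterate_succ_apply' _ _ _

theorem nresN_succ' (h : ℕ) (K : Subgroup X) : nresN (h + 1) K = nresN h (nres K) := rfl

theorem nresN_one (K : Subgroup X) : nresN 1 K = nres K := rfl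

theorem nresN_add (a b : ℕ) (K : Subgroup X) : nresN (a + b) K = nresN a (nresN b K) :=
  Function.iterate_add_apply _ _ _ _

theorem nresN_le (h : ℕ) (K : Subgroup X) : nresN h K ≤ K := by
  induction h with
  | zero => exact le_rfl
  | succ h ih => rw [nresN_succ]; exact (nres_le _).trans ih

theorem nresN_mono (h : ℕ) {K L : Subgroup X} (hKL : K ≤ L) : nresN h K ≤ nresN h L := by
  induction h with
  | zero => exact hKL
  | succ h ih => rw [nresN_succ, nresN_succ]; exact nres_mono ih

theorem nresN_anti {a b : ℕ} (h : a ≤ b) (K : Subgroup X) : nresN b K ≤ nresN a K := by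
  obtain ⟨c, rfl⟩ := Nat.exists_eq_add_of_le' h
  rw [nresN_add]
  exact nresN_le _ _

theorem nresN_trans {a b : ℕ} {K L N : Subgroup X} (h1 : nresN a K ≤ L) (h2 : nresN b L ≤ N) :
    nresN (b + a) K ≤ N := by
  rw [nresN_add]
  exact (nresN_mono b h1).trans h2

theorem exists_lcs_eq_nres [Finite X] (K : Subgroup X) :
    ∃ i, K.lowerCentralSeries i = nres K := by
  obtain ⟨_, ⟨i, rfl⟩, hi⟩ := (wellFounded_lt (α := Subgroup X)).has_min
    (Set.range K.lowerCentralSeries) ⟨_, 0, rfl⟩
  refine ⟨i, le_antisymm (le_iInf fun j => ?_) (nres_le_lcs K i)⟩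
  rcases le_total j i with h | h
  · exact K.lowerCentralSeries_antitone h
  · exact (eq_of_le_of_not_lt (K.lowerCentralSeries_antitone h) (hi _ ⟨j, rfl⟩)).ge

theorem map_nres_le (f : X →* Y) (K : Subgroup X) : (nres K).map f ≤ nres (K.map f) :=
  le_iInf fun i => by
    rw [← Subgroup.map_lowerCentralSeries]
    exact Subgroup.map_mono (nres_le_lcs K i)

theorem map_nres [Finite X] (f : X →* Y) (K : Subgroup X) : (nres K).map f = nres (K.map f) := by
  refine le_antisymm (map_nres_le f K) ?_
  obtain ⟨i, hi⟩ := exists_lcs_eq_nres K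
  rw [← hi, Subgroup.map_lowerCentralSeries]
  exact nres_le_lcs _ i

theorem map_nresN [Finite X] (f : X →* Y) (h : ℕ) (K : Subgroup X) :
    (nresN h K).map f = nresN h (K.map f) := by
  induction h with
  | zero => rfl
  | succ h ih => rw [nresN_succ, nresN_succ, map_nres, ih]

instance lcs_normal (K : Subgroup X) [K.Normal] (i : ℕ) : (K.lowerCentralSeries i).Normal := by
  induction i with
  | zero => assumption
  | succ i ih => rw [Subgroup.lowerCentralSeries_succ]; infer_instance

instance nres_normal (K : Subgroup X) [K.Normal] : (nres K).Normal :=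
  Subgroup.normal_iInf_normal fun i => lcs_normal K i

instance nresN_normal (h : ℕ) (K : Subgroup X) [K.Normal] : (nresN h K).Normal := by
  induction h with
  | zero => assumption
  | succ h ih => rw [nresN_succ]; infer_instance

theorem map_nresN_top [Finite X] (h : ℕ) (Z : Subgroup X) :
    (nresN h (⊤ : Subgroup Z)).map Z.subtype = nresN h Z := by
  rw [map_nresN, ← MonoidHom.range_eq_map, Subgroup.subtype_range]

theorem map_nresN_subgroupOf [Finite X] (h : ℕ) {K Z : Subgroup X} (hK : K ≤ Z) :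
    (nresN h (K.subgroupOf Z)).map Z.subtype = nresN h K := by
  rw [map_nresN, Subgroup.subgroupOf_map_subtype, inf_eq_left.2 hK]

theorem nresN_subgroupOf [Finite X] (h : ℕ) {K Z : Subgroup X} (hK : K ≤ Z) :
    nresN h (K.subgroupOf Z) = (nresN h K).subgroupOf Z := by
  apply Subgroup.map_injective Z.subtype_injective
  rw [map_nresN_subgroupOf h hK, Subgroup.subgroupOf_map_subtype,
    inf_eq_left.2 ((nresN_le h K).trans hK)]

theorem nresN_le_of_subgroupOf [Finite X] {h : ℕ} {K Z N : Subgroup X} (hK : K ≤ Z)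
    (h1 : nresN h (K.subgroupOf Z) ≤ N.subgroupOf Z) : nresN h K ≤ N := by
  rw [← map_nresN_subgroupOf h hK]
  exact Subgroup.map_le_iff_le_comap.2 h1

theorem nresN_le_of_top [Finite X] {h : ℕ} {Z N : Subgroup X}
    (h1 : nresN h (⊤ : Subgroup Z) ≤ N.subgroupOf Z) : nresN h Z ≤ N := by
  rw [← map_nresN_top]
  exact Subgroup.map_le_iff_le_comap.2 h1

theorem nresN_le_comap [Finite X] (f : X →* Y) {h : ℕ} {K : Subgroup X} {N : Subgroup Y}
    (h1 : nresN h (K.map f) ≤ N) : nresN h K ≤ N.comap f := by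
  rw [← Subgroup.map_le_iff_le_comap, map_nresN]
  exact h1

/-! ### Derived series -/

@[simp] theorem der_zero (K : Subgroup X) : der K 0 = K := rfl

theorem der_succ (K : Subgroup X) (i : ℕ) : der K (i + 1) = ⁅der K i, der K i⁆ := rfl

theorem der_add (K : Subgroup X) (a b : ℕ) : der K (a + b) = der (der K a) b := by
  induction b with
  | zero => rfl
  | succ b ih => rw [← add_assoc, der_succ, der_succ, ih]

theorem der_mono {K L : Subgroup X} (h : K ≤ L) (i : ℕ) : der K i ≤ der L i := by
  induction i with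
  | zero => exact h
  | succ i ih => exact Subgroup.commutator_mono ih ih

theorem commutator_self_le (K : Subgroup X) : ⁅K, K⁆ ≤ K := K.lowerCentralSeries_le_self 1

theorem der_le (K : Subgroup X) (i : ℕ) : der K i ≤ K := by
  induction i with
  | zero => exact le_rfl
  | succ i ih => exact (commutator_self_le _).trans ih

theorem der_anti (K : Subgroup X) {a b : ℕ} (h : a ≤ b) : der K b ≤ der K a := by
  obtain ⟨c, rfl⟩ := Nat.exists_eq_add_of_le h
  rw [der_add]
  exact der_le _ _

theorem der_trans {a b : ℕ} {K L N : Subgroup X} (h1 : der K a ≤ L) (h2 : der L b ≤ N) :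
    der K (a + b) ≤ N := by
  rw [der_add]
  exact (der_mono h1 b).trans h2

theorem map_der (f : X →* Y) (K : Subgroup X) (i : ℕ) : (der K i).map f = der (K.map f) i := by
  induction i with
  | zero => rfl
  | succ i ih => rw [der_succ, der_succ, Subgroup.map_commutator, ih]

theorem der_top (i : ℕ) : der (⊤ : Subgroup X) i = derivedSeries X i := by
  induction i with
  | zero => rfl
  | succ i ih => rw [der_succ, derivedSeries_succ, ih]

theorem der_eq_map (K : Subgroup X) (i : ℕ) : der K i = (derivedSeries K i).map K.subtype := by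
  rw [← der_top, map_der, ← MonoidHom.range_eq_map, Subgroup.subtype_range]

theorem der_eq_bot_iff (K : Subgroup X) (i : ℕ) : der K i = ⊥ ↔ derivedSeries K i = ⊥ := by
  rw [der_eq_map, Subgroup.map_eq_bot_iff_of_injective _ K.subtype_injective]

instance der_normal (K : Subgroup X) [K.Normal] (i : ℕ) : (der K i).Normal := by
  induction i with
  | zero => assumption
  | succ i ih => rw [der_succ]; infer_instance

theorem exists_der_eq_bot (K : Subgroup X) [Group.IsSolvable K] : ∃ i, der K i = ⊥ := by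
  obtain ⟨i, hi⟩ := Group.IsSolvable.solvable (G := K)
  exact ⟨i, (der_eq_bot_iff K i).2 hi⟩

theorem isSolvable_of_der {K : Subgroup X} {i : ℕ} (h : der K i = ⊥) : Group.IsSolvable K :=
  ⟨i, (der_eq_bot_iff K i).1 h⟩

theorem der_le_of_map {N : Subgroup X} [N.Normal] {K : Subgroup X} {i : ℕ}
    (h : der (K.map (QuotientGroup.mk' N)) i = ⊥) : der K i ≤ N := by
  rw [← map_der, Subgroup.map_eq_bot_iff, QuotientGroup.ker_mk'] at h
  exact h

theorem nresN_le_der (K : Subgroup X) (i : ℕ) : nresN i K ≤ der K i := by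
  induction i with
  | zero => exact le_rfl
  | succ i ih =>
    rw [nresN_succ, der_succ]
    exact (nres_le_commutator _).trans (Subgroup.commutator_mono ih ih)

theorem exists_nresN_eq_bot (K : Subgroup X) [Group.IsSolvable K] : ∃ i, nresN i K = ⊥ := by
  obtain ⟨i, hi⟩ := exists_der_eq_bot K
  exact ⟨i, le_bot_iff.1 (hi ▸ nresN_le_der K i)⟩

/-- A normal subgroup strictly above `N`, inside `K`, and abelian modulo `N`. -/
theorem exists_abelian_above [Group.IsSolvable X] (N K : Subgroup X) [N.Normal] [K.Normal]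
    (h : N < K) : ∃ A : Subgroup X, A.Normal ∧ N < A ∧ A ≤ K ∧ ⁅A, A⁆ ≤ N := by
  classical
  have h1 : ∃ i, der K i ≤ N := by
    obtain ⟨i, hi⟩ := exists_der_eq_bot K
    exact ⟨i, hi ▸ bot_le⟩
  have h2 : Nat.find h1 ≠ 0 := fun h0 => by
    have := Nat.find_spec h1
    rw [h0] at this
    exact h.not_ge this
  obtain ⟨j, hj⟩ := Nat.exists_eq_succ_of_ne_zero h2
  have h3 : der K (j + 1) ≤ N := by
    have := Nat.find_spec h1
    rwa [hj] at this
  have h4 : ¬ der K j ≤ N := Nat.find_min h1 (by omega)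
  refine ⟨der K j ⊔ N, inferInstance, lt_of_le_of_ne le_sup_right fun e => h4 (e ▸ le_sup_left),
    sup_le (der_le K j) h.le, ?_⟩
  rw [← QuotientGroup.ker_mk' N, ← Subgroup.map_eq_bot_iff, QuotientGroup.ker_mk',
    Subgroup.map_commutator, Subgroup.map_sup,
    (Subgroup.map_eq_bot_iff (f := QuotientGroup.mk' N) N).2 (QuotientGroup.ker_mk' N).ge,
    sup_bot_eq, ← Subgroup.map_commutator, Subgroup.map_eq_bot_iff, QuotientGroup.ker_mk']
  exact h3

/-! ### Numerical bounds -/

theorem lam_mono {a b : ℕ} (h : a ≤ b) : lam a ≤ lam b :=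
  Nat.mul_le_mul_left _ (Nat.pow_le_pow_left (Nat.succ_le_succ (Nat.log_mono_right h)) 2)

theorem lam_pos (d : ℕ) : 0 < lam d := by unfold lam; positivity

theorem three_log_sq_le_lam {a d : ℕ} (h : a ≤ d) : 3 * Nat.log 2 a ^ 2 ≤ lam d := by
  have h1 : Nat.log 2 a ≤ Nat.log 2 d + 1 := (Nat.log_mono_right h).trans (Nat.le_succ _)
  have h2 := Nat.pow_le_pow_left h1 2
  unfold lam
  omega

theorem bnd_mono {α α' c c' h0 μ μ' : ℕ} (h1 : α ≤ α') (h2 : c ≤ c') (h3 : μ ≤ μ') :
    bnd α c h0 μ ≤ bnd α' c' h0 μ' :=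
  Nat.mul_le_mul h1 (Nat.add_le_add_left (lam_mono (Nat.mul_le_mul h2 (Nat.succ_le_succ h3))) _)

/-! ### Centralisers of sections -/

theorem mem_secCent {A B : Subgroup X} [B.Normal] {x : X} :
    x ∈ secCent A B ↔ ∀ a ∈ A, ⁅a, x⁆ ∈ B := by
  have key : ∀ a : X, (QuotientGroup.mk' B a * QuotientGroup.mk' B x =
      QuotientGroup.mk' B x * QuotientGroup.mk' B a) ↔ ⁅a, x⁆ ∈ B := fun a => by
    rw [← commutatorElement_eq_one_iff_mul_comm, ← map_commutatorElement, ← MonoidHom.mem_ker,
      QuotientGroup.ker_mk']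
  rw [secCent, Subgroup.mem_comap, Subgroup.mem_centralizer_iff]
  constructor
  · exact fun h a ha => (key a).1 (h _ ⟨a, ha, rfl⟩)
  · rintro h _ ⟨a, ha, rfl⟩
    exact (key a).2 (h a ha)

theorem le_secCent_iff {A B L : Subgroup X} [B.Normal] : L ≤ secCent A B ↔ ⁅A, L⁆ ≤ B := by
  rw [Subgroup.commutator_le]
  exact ⟨fun h a ha x hx => mem_secCent.1 (h hx) a ha,
    fun h x hx => mem_secCent.2 fun a ha => h a ha x hx⟩

instance secCent_normal (A B : Subgroup X) [A.Normal] [B.Normal] : (secCent A B).Normal := by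
  have : (A.map (QuotientGroup.mk' B)).Normal :=
    Subgroup.Normal.map ‹_› _ (QuotientGroup.mk'_surjective B)
  unfold secCent
  infer_instance

theorem Chain.normal {n : ℕ} {L : Subgroup X} {b : ℕ} (h : Chain n L b) : L.Normal := by
  induction h with
  | bot => infer_instance
  | mono _ _ ih => exact ih
  | bad _ h _ _ _ => exact h
  | good _ h _ _ _ _ => exact h

/-! ### The induction hypothesis -/

theorem IH.le_normal {K : Subgroup X} {s : X} {m h0 : ℕ} (h : IH K s m h0) (i : ℕ) {p : ℕ}
    (hp : p.Prime) (hpm : p ∣ m) (L : Subgroup X) [L.Normal] (hs : s ^ (m / p) ∈ L) :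
    nresN (h0 + i) K ≤ L :=
  h i p hp hpm L hs (by rw [Subgroup.normalizer_eq_top]; exact le_top)

theorem IH.nresN {K : Subgroup X} {s : X} {m h0 : ℕ} (h : IH K s m h0) (q : ℕ) :
    IH (nresN q K) s m h0 := by
  intro i p hp hpm L hs hL
  rw [← nresN_add] at hL ⊢
  rw [add_assoc]
  exact h _ p hp hpm L hs hL

/-- Passing to a subgroup containing `K` and `s ^ j`. -/
theorem IH.sub [Finite X] {K : Subgroup X} {s : X} {m h0 : ℕ} (h : IH K s m h0) (Z : Subgroup X)
    (hK : K ≤ Z) {j : ℕ} (hj : j ∣ m) (hs : s ^ j ∈ Z) :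
    IH (K.subgroupOf Z) ⟨s ^ j, hs⟩ (m / j) h0 := by
  intro i p hp hpm L hsL hL
  obtain ⟨m', rfl⟩ := hj
  rcases Nat.eq_zero_or_pos j with rfl | hj0
  · have h1 := h i p hp (by simp) ⊥ (by simp) (by rw [Subgroup.normalizer_eq_top]; exact le_top)
    rw [nresN_subgroupOf _ hK, le_bot_iff.1 h1]
    simp
  rw [Nat.mul_div_cancel_left _ hj0] at hpm hsL
  obtain ⟨e, rfl⟩ := hpm
  rw [Nat.mul_div_cancel_left _ hp.pos] at hsL
  have h1 := h i p hp ⟨j * e, by ring⟩ (L.map Z.subtype)
    ⟨_, hsL, by
      rw [show j * (p * e) = p * (j * e) by ring, Nat.mul_div_cancel_left _ hp.pos, pow_mul]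
      rfl⟩
    (by
      rw [← map_nresN_subgroupOf i hK]
      exact (Subgroup.map_mono hL).trans (Subgroup.le_normalizer_map _))
  rw [← map_nresN_subgroupOf _ hK] at h1
  exact (Subgroup.map_le_map_iff_of_injective Z.subtype_injective).1 h1

/-- Conjugating `s`. -/
theorem IH.conj {K : Subgroup X} [K.Normal] {s : X} {m h0 : ℕ} (h : IH K s m h0) (x : X) :
    IH K (x⁻¹ * s * x) m h0 := by
  intro i p hp hpm L hs hL
  have h1 := h i p hp hpm (L.comap (MulAut.conj x⁻¹).toMonoidHom)
    (by
      have e : (x⁻¹ * s * x) ^ (m / p) = x⁻¹ * s ^ (m / p) * x := by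
        simpa using conj_pow (a := x⁻¹) (b := s) (i := m / p)
      rw [e] at hs
      simpa using hs)
    (fun y hy => by
      have h2 := hL (Subgroup.Normal.conj_mem (nresN_normal i K) y hy x⁻¹)
      rw [Subgroup.mem_normalizer_iff] at h2 ⊢
      intro z
      have h3 := h2 (x⁻¹ * z * x)
      simpa [mul_assoc] using h3)
  intro y hy
  have h2 := h1 (Subgroup.Normal.conj_mem (nresN_normal _ K) y hy x)
  simpa [mul_assoc] using h2

theorem ncard_reg_conj (s x : X) (m : ℕ) (Ω : Type) [MulAction X Ω] :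
    (Reg (x⁻¹ * s * x) m Ω).ncard = (Reg s m Ω).ncard := by
  have e : ∀ i : ℕ, (x⁻¹ * s * x) ^ i = x⁻¹ * s ^ i * x := fun i => by
    simpa using conj_pow (a := x⁻¹) (b := s) (i := i)
  have : Reg (x⁻¹ * s * x) m Ω = (fun ω => x • ω) ⁻¹' Reg s m Ω := by
    ext ω
    simp only [Reg, Set.mem_ofPred_eq, Set.mem_preimage, e, mul_smul, ne_eq, inv_smul_eq_iff]
  rw [this]
  exact Set.ncard_preimage_of_injective_subset_range (MulAction.injective x)
    (by rw [(MulAction.surjective x).range_eq]; exact Set.subset_univ _)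

end Pool.Agent.P.MP_618680_al.FH
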