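import Pool.Agent.P.MP_618680_al.FH.Res

/-! Quasi-primitive modules: the subgroup `F`. -/

set_option autoImplicit false

namespace Pool.Agent.P.MP_618680_al.FH

open scoped commutatorElement
open Module

variable {k : Type} [Field k] {X : Type} [Group X] {W : Type} [AddCommGroup W] [Module k W]


theorem ker_le_scal (ρ : Representation k X W) : ρ.ker ≤ scal ρ := fun x hx =>
  ⟨1, fun v => by rw [MonoidHom.mem_ker.1 hx, Module.End.one_apply, Units.val_one, one_smul]⟩

theorem commutator_scal_le_ker (ρ : Representation k X W) (K : Subgroup X) :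
    ⁅scal ρ, K⁆ ≤ ρ.ker := by
  rw [Subgroup.commutator_le]
  rintro a ⟨c, hc⟩ b -
  have h : ρ (a * b) = ρ (b * a) := by
    ext v
    rw [map_mul, map_mul, Module.End.mul_apply, Module.End.mul_apply, hc, hc, map_smul]
  rw [MonoidHom.mem_ker, commutatorElement_def, mul_assoc, map_mul, h, ← map_mul]
  simp [mul_assoc]

theorem syma_three {N A B C : Subgroup X} [N.Normal] (h1 : ⁅⁅B, C⁆, A⁆ ≤ N)
    (h2 : ⁅⁅C, A⁆, B⁆ ≤ N) : ⁅⁅A, B⁆, C⁆ ≤ N := by
  rw [← QuotientGroup.ker_mk' N, ← Subgroup.map_eq_bot_iff, Subgroup.map_commutator,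
    Subgroup.map_commutator] at h1 h2 ⊢
  exact Subgroup.commutator_commutator_eq_bot_of_rotate h1 h2

theorem exists_symF [Finite X] [Group.IsSolvable X] {ρ : Representation k X W} (hq : QPrim ρ) :
    ∃ F : Subgroup X, SymF ρ F := by
  obtain ⟨F, ⟨hn, h1, h2⟩, hmax⟩ := (wellFounded_gt (α := Subgroup X)).has_min
    {F | F.Normal ∧ scal ρ ≤ F ∧ ⁅F, F⁆ ≤ scal ρ}
    ⟨scal ρ, inferInstance, le_rfl, commutator_self_le _⟩
  refine ⟨F, hn, h1, h2, ?_, fun x hx h => ?_⟩
  · by_contra hc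
    obtain ⟨M, hM, h3, h4, h5⟩ := exists_abelian_above F (secCent F (scal ρ))
      (lt_of_le_not_ge (le_secCent_iff.2 h2) hc)
    have h6 : ⁅⁅M, M⁆, M⁆ ≤ scal ρ :=
      (Subgroup.commutator_mono h5 le_rfl).trans (le_secCent_iff.1 h4)
    have h7 : ⁅⁅⁅M, M⁆, M⁆, M⁆ ≤ ρ.ker :=
      (Subgroup.commutator_mono h6 le_rfl).trans (commutator_scal_le_ker ρ M)
    have h8 : ⁅⁅M, M⁆, ⁅M, M⁆⁆ ≤ ρ.ker :=
      syma_three (by rwa [Subgroup.commutator_comm M ⁅M, M⁆]) h7
    exact hmax M ⟨hM, h1.trans h3.le, hq.2 _ inferInstance h8⟩ h3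
  · refine hq.2 (F ⊓ secCent F ρ.ker) inferInstance
      ((Subgroup.commutator_mono inf_le_left inf_le_right).trans (le_secCent_iff.1 le_rfl))
      ⟨hx, mem_secCent.2 fun a ha => ?_⟩
    rw [← commutatorElement_inv]
    exact inv_mem (h a ha)

theorem SymF.nres_le_ker {ρ : Representation k X W} {F : Subgroup X} (hF : SymF ρ F) :
    nres F ≤ ρ.ker :=
  (nres_le_commutator₂ F).trans
    ((Subgroup.commutator_mono hF.comm le_rfl).trans (commutator_scal_le_ker ρ F))

theorem finrank_le_one_of_scal [FiniteDimensional k W] {ρ : Representation k X W} (hρ : Irr ρ)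
    (h : scal ρ = ⊤) : finrank k W ≤ 1 := by
  have := hρ.1
  obtain ⟨v, hv⟩ := exists_ne (0 : W)
  have h1 := (hρ.2 (Submodule.span k {v}) fun x w hw => by
    obtain ⟨c, hc⟩ : x ∈ scal ρ := h ▸ Subgroup.mem_top x
    rw [hc]
    exact Submodule.smul_mem _ _ hw).resolve_left (mt Submodule.span_singleton_eq_bot.1 hv)
  rw [← finrank_top, ← h1, finrank_span_singleton hv]

theorem syma_mul [FiniteDimensional k W] (ρ : Representation k X W) (a b : X) :
    movDim ρ (a * b) ≤ movDim ρ a + movDim ρ b := by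
  refine le_trans (Submodule.finrank_mono ?_) (Submodule.finrank_add_le_finrank_add_finrank _ _)
  rintro _ ⟨v, rfl⟩
  refine Submodule.mem_sup.2 ⟨_, ⟨ρ b v, rfl⟩, _, ⟨v, rfl⟩, ?_⟩
  simp

theorem syma_inv [FiniteDimensional k W] (ρ : Representation k X W) (a : X) :
    movDim ρ a⁻¹ ≤ movDim ρ a := by
  refine Submodule.finrank_mono ?_
  rintro _ ⟨v, rfl⟩
  refine ⟨-ρ a⁻¹ v, ?_⟩
  simp [neg_add_eq_sub]

theorem syma_conj [FiniteDimensional k W] (ρ : Representation k X W) (g a : X) :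
    movDim ρ (g * a * g⁻¹) ≤ movDim ρ a := by
  refine le_trans (Submodule.finrank_mono ?_) (Submodule.finrank_map_le (ρ g) _)
  rintro _ ⟨v, rfl⟩
  refine ⟨_, ⟨ρ g⁻¹ v, rfl⟩, ?_⟩
  simp

theorem syma_left [FiniteDimensional k W] (ρ : Representation k X W) (a b : X) :
    movDim ρ ⁅a, b⁆ ≤ 2 * movDim ρ a := by
  have h1 := syma_mul ρ a (b * a⁻¹ * b⁻¹)
  have h2 := syma_conj ρ b a⁻¹
  have h3 := syma_inv ρ a
  rw [← mul_assoc, ← mul_assoc, ← commutatorElement_def] at h1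
  omega

theorem syma_right [FiniteDimensional k W] (ρ : Representation k X W) (a b : X) :
    movDim ρ ⁅a, b⁆ ≤ 2 * movDim ρ b := by
  rw [← commutatorElement_inv]
  exact (syma_inv ρ _).trans (syma_left ρ b a)

theorem syma_scal {ρ : Representation k X W} {x : X} (hx : x ∈ scal ρ) (h : x ∉ ρ.ker) :
    movDim ρ x = finrank k W := by
  obtain ⟨c, hc⟩ := hx
  have h1 : (c : k) - 1 ≠ 0 := fun e => h (MonoidHom.mem_ker.2 (by
    ext v
    rw [hc, sub_eq_zero.1 e, one_smul, Module.End.one_apply]))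
  have h2 : LinearMap.range (ρ x - 1) = ⊤ := LinearMap.range_eq_top.2 fun v =>
    ⟨((c : k) - 1)⁻¹ • v, by
      rw [map_smul, LinearMap.sub_apply, hc, Module.End.one_apply, inv_smul_eq_iff₀ h1, sub_smul,
        one_smul]⟩
  rw [movDim, h2, finrank_top]

theorem syma_in [FiniteDimensional k W] {ρ : Representation k X W} {F : Subgroup X}
    (hF : SymF ρ F) {y : X} (h : y ∈ F) (hy : y ∉ scal ρ) : finrank k W ≤ 2 * movDim ρ y := by
  obtain ⟨f, hf, h1⟩ : ∃ f ∈ F, ⁅y, f⁆ ∉ ρ.ker := by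
    by_contra h1
    exact hy (hF.nondeg y h fun f hf => by_contra fun h2 => h1 ⟨f, hf, h2⟩)
  rw [← syma_scal (hF.comm (Subgroup.commutator_mem_commutator h hf)) h1]
  exact syma_left ρ y f

/-- A non-scalar element of small rank bounds the dimension. -/
theorem SymF.finrank_le [FiniteDimensional k W] {ρ : Representation k X W} {F : Subgroup X}
    (hF : SymF ρ F) {y : X} (hy : y ∉ scal ρ) : finrank k W ≤ 4 * movDim ρ y := by
  by_cases h : y ∈ secCent F (scal ρ)
  · have h1 := syma_in hF (hF.cent h) hy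
    omega
  · obtain ⟨f, hf, h1⟩ : ∃ f ∈ F, ⁅f, y⁆ ∉ scal ρ := by
      by_contra h1
      exact h (mem_secCent.2 fun f hf => by_contra fun h2 => h1 ⟨f, hf, h2⟩)
    have h2 : ⁅f, y⁆ ∈ F := by
      rw [commutatorElement_def, mul_assoc, mul_assoc, ← mul_assoc y]
      exact mul_mem hf (hF.normal.conj_mem _ (inv_mem hf) y)
    have h3 := syma_in hF h2 h1
    have h4 := syma_right ρ f y
    omega

end Pool.Agent.P.MP_618680_al.FH
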